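import Mathlib

/-!
# Module Abs: a square root lemma

`𝓚 := PiLp 2 (fun _ : Fin m => H)`. PLAN. `Ξ : 𝓚 → K`, `Ξ ζ = ∑ j, Ξ_j ζ_j`, is bounded; `G = Ξ† Ξ` is a positive operator on
`𝓚` with matrix entries `Ξ_j† Ξ_k`. For `x = X i l` let `D x : 𝓚 → 𝓚`, `(D x ζ) j = x (ζ j)`. By `hcomm`, `G` commutes
with `D x`: `⟪ζ', G D x ζ⟫ = ⟪Ξ ζ', Ξ (D x ζ)⟫ = ∑ j k, ⟪Ξ_j ζ'_j, Ξ_k (x ζ_k)⟫ = ∑ j k, ⟪Ξ_j (x† ζ'_j), Ξ_k ζ_k⟫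
= ⟪D x† ζ', G ζ⟫ = ⟪ζ', D x G ζ⟫`. Let `h = CFC.sqrt G` (self-adjoint, `h * h = G`; `CFC.sqrt_mul_sqrt_self`). It commutes with
`D x` (`Commute.cfcₙ_nnreal`, as `CFC.sqrt a = cfcₙ NNReal.sqrt a`), and `‖Ξ ζ‖² = ⟪ζ, G ζ⟫ = ‖h ζ‖²`.
Let `ι_j ω : 𝓚` be the vector with `j`-th component `ω` (others `0`), `(h ι_j ω)_k =: h_kj ω`; then
`h_kj x = x h_kj` (`h D x ι_j ω = h ι_j (x ω) = D x h ι_j ω`). So with `ζ^i = ∑ j, ι_j (X i j Ω)`: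
`∑ i, ‖∑ j, Ξ_j (X i j Ω)‖² = ∑ i, ‖Ξ ζ^i‖² = ∑ i, ‖h ζ^i‖² = ∑ i, ∑ k, ‖∑ j, h_kj (X i j Ω)‖²
= ∑ k, ∑ i, ‖∑ j, X i j (h_kj Ω)‖² ≤ ∑ k, K0² ∑ j, ‖h_kj Ω‖² = K0² ∑ j, ‖h ι_j Ω‖² = K0² ∑ j, ‖Ξ_j Ω‖²`.
The inequality is `form_row`: from the form bound with `η i = ∑ j, X i j (ξ j)`: `t ≤ K0 √(∑ ‖ξ j‖²) √t` with
`t = ∑ i, ‖∑ j, X i j (ξ j)‖²`; so `t ≤ K0² ∑ ‖ξ j‖²` (if `t = 0` it is clear; else divide by `√t > 0` and square,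
`K0 √(…) ≥ √t > 0`).
-/

set_option autoImplicit false

open scoped ComplexOrder InnerProductSpace

namespace Pool.Agent.H26.HB

universe u w

variable {H : Type u} [NormedAddCommGroup H] [InnerProductSpace ℂ H] [CompleteSpace H]
  {K : Type w} [NormedAddCommGroup K] [InnerProductSpace ℂ K] [CompleteSpace K]

theorem form_row {m : ℕ} (X : Fin m → Fin m → H →L[ℂ] H) {K0 : ℝ}
    (hX : ∀ ξ η : Fin m → H, ‖∑ i, ∑ j, ⟪η i, X i j (ξ j)⟫_ℂ‖ ≤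
      K0 * (√(∑ j, ‖ξ j‖ ^ 2) * √(∑ i, ‖η i‖ ^ 2))) (ξ : Fin m → H) :
    ∑ i, ‖∑ j, X i j (ξ j)‖ ^ 2 ≤ K0 ^ 2 * ∑ j, ‖ξ j‖ ^ 2 := by
  obtain ⟨t, ht⟩ : ∃ t : ℝ, t = ∑ i, ‖∑ j, X i j (ξ j)‖ ^ 2 := ⟨_, rfl⟩
  obtain ⟨A, hA⟩ : ∃ A : ℝ, A = ∑ j, ‖ξ j‖ ^ 2 := ⟨_, rfl⟩
  have ht0 : 0 ≤ t := by
    rw [ht]
    exact Finset.sum_nonneg fun _ _ => sq_nonneg _
  have hA0 : 0 ≤ A := by
    rw [hA]
    exact Finset.sum_nonneg fun _ _ => sq_nonneg _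
  have h1 := hX ξ (fun i => ∑ j, X i j (ξ j))
  have h2 : ∑ i, ∑ j, ⟪∑ j, X i j (ξ j), X i j (ξ j)⟫_ℂ = ((t : ℝ) : ℂ) := by
    rw [ht, Complex.ofReal_sum]
    refine Finset.sum_congr rfl fun i _ => ?_
    rw [← inner_sum, inner_self_eq_norm_sq_to_K]
    push_cast
    rfl
  rw [h2, Complex.norm_real, Real.norm_of_nonneg ht0, ← ht, ← hA] at h1
  rw [← ht, ← hA]
  rcases ht0.eq_or_lt with h0 | h0
  · rw [← h0]
    positivity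
  · have hs : 0 < √t := Real.sqrt_pos.mpr h0
    have h3 : √t * √t ≤ K0 * √A * √t := by
      rw [Real.mul_self_sqrt ht0]
      linarith
    have h4 : √t ≤ K0 * √A := le_of_mul_le_mul_right h3 hs
    have h5 : (√t) ^ 2 ≤ (K0 * √A) ^ 2 := pow_le_pow_left₀ hs.le h4 2
    rwa [Real.sq_sqrt ht0, mul_pow, Real.sq_sqrt hA0] at h5

private theorem Abs_exists_sqrt {V : Type u} [NormedAddCommGroup V] [InnerProductSpace ℂ V]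
    [CompleteSpace V] (Ξ : V →L[ℂ] K) :
    ∃ h : V →L[ℂ] V, (∀ x, ‖h x‖ = ‖Ξ x‖) ∧
      ∀ D D' : V →L[ℂ] V, (∀ x y, ⟪D' x, y⟫_ℂ = ⟪x, D y⟫_ℂ) →
        (∀ x y, ⟪Ξ x, Ξ (D y)⟫_ℂ = ⟪Ξ (D' x), Ξ y⟫_ℂ) → ∀ x, h (D x) = D (h x) := by
  obtain ⟨G, hG⟩ : ∃ G : V →L[ℂ] V, G = ContinuousLinearMap.adjoint Ξ ∘L Ξ := ⟨_, rfl⟩
  have hGx : ∀ x y, ⟪x, G y⟫_ℂ = ⟪Ξ x, Ξ y⟫_ℂ := by
    intro x y
    rw [hG, ContinuousLinearMap.comp_apply, ContinuousLinearMap.adjoint_inner_right]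
  have hG0 : 0 ≤ G := by
    rw [hG]
    exact (ContinuousLinearMap.nonneg_iff_isPositive _).mpr
      (ContinuousLinearMap.isPositive_adjoint_comp_self Ξ)
  have hsq : CFC.sqrt G * CFC.sqrt G = G := CFC.sqrt_mul_sqrt_self G hG0
  have hsa : IsSelfAdjoint (CFC.sqrt G) := IsSelfAdjoint.of_nonneg (CFC.sqrt_nonneg G)
  have hsa' : ContinuousLinearMap.adjoint (CFC.sqrt G) = CFC.sqrt G := hsa
  refine ⟨CFC.sqrt G, fun x => ?_, fun D D' hD hc x => ?_⟩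
  · have h1 : ⟪CFC.sqrt G x, CFC.sqrt G x⟫_ℂ = ⟪Ξ x, Ξ x⟫_ℂ := by
      rw [← hGx]
      conv_rhs => rw [← hsq]
      rw [mul_apply_eq_comp]
      conv_rhs => rw [← ContinuousLinearMap.adjoint_inner_left, hsa']
    rw [inner_self_eq_norm_sq_to_K, inner_self_eq_norm_sq_to_K] at h1
    have h2 : ‖CFC.sqrt G x‖ ^ 2 = ‖Ξ x‖ ^ 2 := by exact_mod_cast h1
    exact (sq_eq_sq₀ (norm_nonneg _) (norm_nonneg _)).mp h2
  · have hcomm : Commute G D := by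
      refine ContinuousLinearMap.ext fun y => ?_
      rw [mul_apply_eq_comp, mul_apply_eq_comp]
      refine ext_inner_left ℂ fun v => ?_
      rw [hGx, hc, ← hGx, hD]
    have h1 : Commute (CFC.sqrt G) D := hcomm.cfcₙ_nnreal _
    have h2 := congrArg (fun T : V →L[ℂ] V => T x) h1.eq
    exact h2

theorem sqrt_lemma {m : ℕ} (Ξ : Fin m → H →L[ℂ] K) (X : Fin m → Fin m → H →L[ℂ] H)
    (hcomm : ∀ (j k i l : Fin m) (f g : H),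
      ⟪Ξ j (ContinuousLinearMap.adjoint (X i l) f), Ξ k g⟫_ℂ = ⟪Ξ j f, Ξ k (X i l g)⟫_ℂ)
    {K0 : ℝ}
    (hX : ∀ ξ η : Fin m → H, ‖∑ i, ∑ j, ⟪η i, X i j (ξ j)⟫_ℂ‖ ≤
      K0 * (√(∑ j, ‖ξ j‖ ^ 2) * √(∑ i, ‖η i‖ ^ 2))) (Ω : H) :
    ∑ i, ‖∑ j, Ξ j (X i j Ω)‖ ^ 2 ≤ K0 ^ 2 * ∑ j, ‖Ξ j Ω‖ ^ 2 := by
  classical
  -- the row operator
  obtain ⟨R, hR⟩ : ∃ R : PiLp 2 (fun _ : Fin m => H) →L[ℂ] K, ∀ ζ, R ζ = ∑ j, Ξ j (ζ j) := by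
    refine ⟨∑ j, (Ξ j) ∘L (PiLp.proj 2 (fun _ : Fin m => H) j), fun ζ => ?_⟩
    rw [sum_apply]
    rfl
  -- the diagonal operators
  obtain ⟨D, hD⟩ : ∃ D : (H →L[ℂ] H) → (PiLp 2 (fun _ : Fin m => H) →L[ℂ]
      PiLp 2 (fun _ : Fin m => H)), ∀ x ζ j, D x ζ j = x (ζ j) := by
    refine ⟨fun x => (PiLp.continuousLinearEquiv 2 ℂ (fun _ : Fin m => H)).symm.toContinuousLinearMap
      ∘L (ContinuousLinearMap.pi fun j => x ∘L (PiLp.proj 2 (fun _ : Fin m => H) j)),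
      fun x ζ j => rfl⟩
  have hDadj : ∀ (x : H →L[ℂ] H) (ζ ζ' : PiLp 2 (fun _ : Fin m => H)),
      ⟪D (ContinuousLinearMap.adjoint x) ζ, ζ'⟫_ℂ = ⟪ζ, D x ζ'⟫_ℂ := by
    intro x ζ ζ'
    rw [PiLp.inner_apply, PiLp.inner_apply]
    refine Finset.sum_congr rfl fun j _ => ?_
    rw [hD, hD, ContinuousLinearMap.adjoint_inner_left]
  have hRD : ∀ (i l : Fin m) (ζ ζ' : PiLp 2 (fun _ : Fin m => H)),
      ⟪R ζ, R (D (X i l) ζ')⟫_ℂ = ⟪R (D (ContinuousLinearMap.adjoint (X i l)) ζ), R ζ'⟫_ℂ := by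
    intro i l ζ ζ'
    rw [hR, hR, hR, hR]
    simp only [sum_inner, inner_sum]
    refine Finset.sum_congr rfl fun k _ => Finset.sum_congr rfl fun j _ => ?_
    rw [hD, hD, hcomm]
  obtain ⟨h, hh1, hh2⟩ := Abs_exists_sqrt R
  have hcom : ∀ i l ζ, h (D (X i l) ζ) = D (X i l) (h ζ) := fun i l ζ =>
    hh2 (D (X i l)) (D (ContinuousLinearMap.adjoint (X i l))) (hDadj _) (hRD i l) ζ
  -- the basis vectors
  obtain ⟨e, he⟩ : ∃ e : Fin m → PiLp 2 (fun _ : Fin m => H),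
      ∀ j k, e j k = if k = j then Ω else 0 :=
    ⟨fun j => WithLp.toLp 2 (fun k => if k = j then Ω else 0), fun j k => rfl⟩
  obtain ⟨z, hz⟩ : ∃ z : Fin m → PiLp 2 (fun _ : Fin m => H), ∀ i j, z i j = X i j Ω :=
    ⟨fun i => WithLp.toLp 2 (fun j => X i j Ω), fun i j => rfl⟩
  have hze : ∀ i, z i = ∑ j, D (X i j) (e j) := by
    intro i
    apply PiLp.ext
    intro k
    rw [WithLp.ofLp_sum, Finset.sum_apply, hz, Finset.sum_eq_single k]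
    · rw [hD, he, if_pos rfl]
    · intro j _ hj
      rw [hD, he, if_neg (Ne.symm hj), map_zero]
    · intro hk
      exact absurd (Finset.mem_univ k) hk
  have hRz : ∀ i, R (z i) = ∑ j, Ξ j (X i j Ω) := by
    intro i
    rw [hR]
    exact Finset.sum_congr rfl fun j _ => by rw [hz]
  have hRe : ∀ j, R (e j) = Ξ j Ω := by
    intro j
    rw [hR, Finset.sum_eq_single j]
    · rw [he, if_pos rfl]
    · intro k _ hk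
      rw [he, if_neg hk, map_zero]
    · intro hk
      exact absurd (Finset.mem_univ j) hk
  have hhz : ∀ i k, (h (z i)) k = ∑ j, X i j ((h (e j)) k) := by
    intro i k
    rw [hze, map_sum, WithLp.ofLp_sum, Finset.sum_apply]
    refine Finset.sum_congr rfl fun j _ => ?_
    rw [hcom, hD]
  calc ∑ i, ‖∑ j, Ξ j (X i j Ω)‖ ^ 2 = ∑ i, ‖h (z i)‖ ^ 2 := by
        refine Finset.sum_congr rfl fun i _ => ?_
        rw [hh1, hRz]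
    _ = ∑ i, ∑ k, ‖∑ j, X i j ((h (e j)) k)‖ ^ 2 := by
        refine Finset.sum_congr rfl fun i _ => ?_
        rw [PiLp.norm_sq_eq_of_L2]
        exact Finset.sum_congr rfl fun k _ => by rw [hhz]
    _ = ∑ k, ∑ i, ‖∑ j, X i j ((h (e j)) k)‖ ^ 2 := Finset.sum_comm
    _ ≤ ∑ k, K0 ^ 2 * ∑ j, ‖(h (e j)) k‖ ^ 2 :=
        Finset.sum_le_sum fun k _ => form_row X hX fun j => (h (e j)) k
    _ = K0 ^ 2 * ∑ j, ‖h (e j)‖ ^ 2 := by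
        rw [← Finset.mul_sum, Finset.sum_comm]
        congr 1
        refine Finset.sum_congr rfl fun j _ => ?_
        rw [PiLp.norm_sq_eq_of_L2]
    _ = K0 ^ 2 * ∑ j, ‖Ξ j Ω‖ ^ 2 := by
        congr 1
        refine Finset.sum_congr rfl fun j _ => ?_
        rw [hh1, hRe]

end Pool.Agent.H26.HB
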