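import Pool.Agent.H26.HB.Defs

/-!
# Module Build: elementary facts on buildings

Write `s = cs.simple i`, `ℓ = cs.length`. Recall `cs.length_simple_mul w i : ℓ (s w) = ℓ w + 1 ∨ ℓ (s w) + 1 = ℓ w`.

PLAN (in this order).
* `adj_symm`: (wd2 with `y := x'`) `1 = dl x' x' ∈ {s * dl x x', dl x x'}`; the second gives `x = x'` (wd1) and
  `s = dl x' x = 1`, impossible (`cs.simple_ne_one`?; or length).
* `dl_mul` (concatenation): induction on `ℓ (dl x y)`, generalizing `x`. If it is `0`: `x = y`. Else take
  a left descent `i` of `dl x y` (`cs.exists_leftDescent_of_ne_one`), by `wd3` a chamber `x₁` with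
  `dl x₁ x = s`, `dl x₁ y = s * dl x y` (length one less). `ℓ (s * dl x y * dl y z)` is `≥ ℓ (dl x y * dl y z) - 1`
  and `≤ ℓ (dl x₁ y) + ℓ (dl y z)` (`cs.length_mul_le`), so the induction hypothesis gives
  `dl x₁ z = s * dl x y * dl y z`, and `wd2'` (with `x' := x`, `x := x₁`, `adj_symm`) gives the claim.
* `dl_symm`: induction on `ℓ (dl x y)`: with `x₁` as above, `dl y x₁ = (s * dl x y)⁻¹` and `dl x₁ x = s`; apply
  `dl_mul` to `y, x₁, x`.
* `gd_tri`: induction on `ℓ (dl x z)` with `x₁` as above; `ℓ (dl x y) ≤ ℓ (dl x₁ y) + 1` by `wd2`.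
* `dl_mul_of_gd`: induction on `ℓ (dl x z)`: `gd x₁ y = gd x y - 1` by the triangle inequality, so
  `dl x₁ y = s * dl x z * dl z y`, and `dl x y = s * dl x₁ y` by `wd2` since the lengths differ.
* `exists_mid`: induction on `m`, walking with `wd3` and left descents.
-/

set_option autoImplicit false

namespace Pool.Agent.H26.HB

universe u v w

variable {B : Type v} {W : Type u} [Group W] {M : CoxeterMatrix B} {cs : CoxeterSystem M W}
  {X : Type w} {dl : X → X → W}

theorem IsBuilding.adj_symm (hb : IsBuilding cs dl) {x x' : X} {i : B}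
    (h : dl x' x = cs.simple i) : dl x x' = cs.simple i := by
  have h1 : dl x' x' = 1 := (hb.wd1 x' x').mpr rfl
  rcases hb.wd2 x x' x' i h with h2 | h2
  · rw [h1] at h2
    have h3 : cs.simple i * (cs.simple i * dl x x') = cs.simple i * 1 := by rw [← h2]
    rw [cs.simple_mul_simple_cancel_left, mul_one] at h3
    exact h3
  · rw [h1] at h2
    have h3 : x = x' := (hb.wd1 x x').mp h2.symm
    subst h3
    rw [h1] at h
    have h4 : cs.length (cs.simple i) = 1 := cs.length_simple i
    rw [← h, cs.length_one] at h4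
    omega

/-- One step of a minimal gallery. -/
private theorem Build_step (hb : IsBuilding cs dl) {x y : X} (h : dl x y ≠ 1) :
    ∃ (i : B) (x₁ : X), dl x₁ x = cs.simple i ∧ dl x x₁ = cs.simple i ∧
      dl x₁ y = cs.simple i * dl x y ∧
      cs.length (cs.simple i * dl x y) + 1 = cs.length (dl x y) := by
  obtain ⟨i, hi⟩ := cs.exists_leftDescent_of_ne_one h
  rw [cs.isLeftDescent_iff] at hi
  obtain ⟨x₁, h1, h2⟩ := hb.wd3 x y i
  exact ⟨i, x₁, h1, hb.adj_symm h1, h2, hi⟩

theorem IsBuilding.dl_mul (hb : IsBuilding cs dl) {x y z : X}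
    (h : cs.length (dl x y * dl y z) = cs.length (dl x y) + cs.length (dl y z)) :
    dl x z = dl x y * dl y z := by
  induction hn : cs.length (dl x y) generalizing x with
  | zero =>
    have h1 : dl x y = 1 := cs.length_eq_zero_iff.mp hn
    have h2 : x = y := (hb.wd1 x y).mp h1
    rw [h1, one_mul, h2]
  | succ k ih =>
    have hne : dl x y ≠ 1 := by
      intro h1
      rw [h1, cs.length_one] at hn
      omega
    obtain ⟨i, x₁, ha, hb', hc, hd⟩ := Build_step hb hne
    have e1 : cs.simple i * (dl x₁ y * dl y z) = dl x y * dl y z := by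
      rw [hc, mul_assoc, cs.simple_mul_simple_cancel_left]
    have l1 : cs.length (dl x₁ y * dl y z) ≤ cs.length (dl x₁ y) + cs.length (dl y z) :=
      cs.length_mul_le _ _
    have l2 : cs.length (dl x y * dl y z) ≤ cs.length (dl x₁ y * dl y z) + 1 := by
      rw [← e1]
      rcases cs.length_simple_mul (dl x₁ y * dl y z) i with h3 | h3 <;> omega
    have l3 : cs.length (dl x₁ y) + 1 = cs.length (dl x y) := by rw [hc]; exact hd
    have l4 : cs.length (dl x₁ y * dl y z) = cs.length (dl x₁ y) + cs.length (dl y z) := by omega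
    have e2 := ih l4 (by omega)
    have e3 := hb.wd2' x₁ z x i hb' (by rw [e2, e1]; omega)
    rw [e3, e2, e1]

theorem IsBuilding.dl_symm (hb : IsBuilding cs dl) (x y : X) : dl y x = (dl x y)⁻¹ := by
  induction hn : cs.length (dl x y) generalizing x with
  | zero =>
    have h1 : dl x y = 1 := cs.length_eq_zero_iff.mp hn
    have h2 : x = y := (hb.wd1 x y).mp h1
    rw [h1, inv_one, h2]
    exact (hb.wd1 y y).mpr rfl
  | succ k ih =>
    have hne : dl x y ≠ 1 := by
      intro h1
      rw [h1, cs.length_one] at hn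
      omega
    obtain ⟨i, x₁, ha, hb', hc, hd⟩ := Build_step hb hne
    have l3 : cs.length (dl x₁ y) + 1 = cs.length (dl x y) := by rw [hc]; exact hd
    have e1 := ih x₁ (by omega)
    have e2 : dl y x₁ * dl x₁ x = (dl x y)⁻¹ := by
      rw [e1, hc, ha, mul_inv_rev, mul_assoc, cs.inv_simple, cs.simple_mul_simple_self, mul_one]
    rw [← e2]
    refine hb.dl_mul ?_
    rw [e2, e1, ha, cs.length_inv, cs.length_inv, cs.length_simple]
    omega

theorem IsBuilding.gd_self (hb : IsBuilding cs dl) (x : X) : gd cs dl x x = 0 := by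
  rw [gd, (hb.wd1 x x).mpr rfl, cs.length_one]

theorem IsBuilding.gd_comm (hb : IsBuilding cs dl) (x y : X) : gd cs dl x y = gd cs dl y x := by
  rw [gd, gd, hb.dl_symm y x, cs.length_inv]

private theorem Build_gd_adj (hb : IsBuilding cs dl) {x x₁ : X} {i : B}
    (h : dl x x₁ = cs.simple i) (y : X) : gd cs dl x y ≤ gd cs dl x₁ y + 1 := by
  rw [gd, gd]
  rcases hb.wd2 x₁ y x i h with h1 | h1
  · rw [h1]
    rcases cs.length_simple_mul (dl x₁ y) i with h3 | h3 <;> omega
  · rw [h1]
    omega

theorem IsBuilding.gd_tri (hb : IsBuilding cs dl) (x y z : X) :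
    gd cs dl x y ≤ gd cs dl x z + gd cs dl z y := by
  induction hn : cs.length (dl x z) generalizing x with
  | zero =>
    have h1 : dl x z = 1 := cs.length_eq_zero_iff.mp hn
    have h2 : x = z := (hb.wd1 x z).mp h1
    subst h2
    omega
  | succ k ih =>
    have hne : dl x z ≠ 1 := by
      intro h1
      rw [h1, cs.length_one] at hn
      omega
    obtain ⟨i, x₁, ha, hb', hc, hd⟩ := Build_step hb hne
    have l3 : gd cs dl x₁ z + 1 = gd cs dl x z := by rw [gd, gd, hc]; exact hd
    have e1 := ih x₁ (by rw [gd, gd] at l3; omega)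
    have e2 := Build_gd_adj hb hb' y
    omega

theorem IsBuilding.dl_mul_of_gd (hb : IsBuilding cs dl) {x y z : X}
    (h : gd cs dl x z + gd cs dl z y = gd cs dl x y) : dl x y = dl x z * dl z y := by
  induction hn : cs.length (dl x z) generalizing x with
  | zero =>
    have h1 : dl x z = 1 := cs.length_eq_zero_iff.mp hn
    have h2 : x = z := (hb.wd1 x z).mp h1
    subst h2
    rw [h1, one_mul]
  | succ k ih =>
    have hne : dl x z ≠ 1 := by
      intro h1
      rw [h1, cs.length_one] at hn
      omega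
    obtain ⟨i, x₁, ha, hb', hc, hd⟩ := Build_step hb hne
    have l3 : gd cs dl x₁ z + 1 = gd cs dl x z := by rw [gd, gd, hc]; exact hd
    have e1 := hb.gd_tri x₁ y z
    have e2 := Build_gd_adj hb hb' y
    have e3 := ih (x := x₁) (by omega) (by rw [gd, gd] at l3; omega)
    rcases hb.wd2 x₁ y x i hb' with h1 | h1
    · rw [h1, e3, hc, mul_assoc, cs.simple_mul_simple_cancel_left]
    · exfalso
      have h2 : gd cs dl x y = gd cs dl x₁ y := by rw [gd, gd, h1]
      omega

theorem IsBuilding.exists_mid (hb : IsBuilding cs dl) (x y : X) (m : ℕ) (hm : m ≤ gd cs dl x y) :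
    ∃ z, gd cs dl x z = m ∧ gd cs dl z y = gd cs dl x y - m := by
  induction m with
  | zero => exact ⟨x, hb.gd_self x, by omega⟩
  | succ m ih =>
    obtain ⟨z, h1, h2⟩ := ih (by omega)
    have hne : dl z y ≠ 1 := by
      intro h3
      rw [gd, h3, cs.length_one] at h2
      omega
    obtain ⟨i, z₁, ha, hb', hc, hd⟩ := Build_step hb hne
    have l3 : gd cs dl z₁ y + 1 = gd cs dl z y := by rw [gd, gd, hc]; exact hd
    have l4 : gd cs dl z z₁ = 1 := by rw [gd, hb', cs.length_simple]
    have e1 := hb.gd_tri x z₁ z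
    have e2 := hb.gd_tri x y z₁
    exact ⟨z₁, by omega, by omega⟩

end Pool.Agent.H26.HB
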