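import Pool.Agent.H26.HB.Build

/-!
# Module Build2: retractions, projections, balls

Write `s = cs.simple i`, `ℓ = cs.length`.

PLAN.
* `retr`: `dl w x' ∈ {dl w x * s, dl w x}` if `dl x' x = s` (`wd2` for `y := w` and `dl_symm`); then induction on
  `ℓ (dl x z)`: with `x₁` (`dl x₁ x = s`, `dl x₁ z = s * dl x z`),
  `(dl w x)⁻¹ * dl w z = ((dl w x)⁻¹ * dl w x₁) * ((dl w x₁)⁻¹ * dl w z)`, the first factor is `1` or `s`.
* `down_unique`: `dl x'' x' ∈ {s * dl x x', dl x x'} = {1, s}`; if it is `s` then `wd2'` for `x'', x', y` gives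
  `dl x'' y = s * s * dl x y = dl x y`, contradiction.
* `balls`: `N 0 = 1`, `N (r + 1) = N r * (1 + ∑ i, n i)`; ball of radius `r + 1` is contained in the union
  of the `{z} ∪ {z' | dl z' z = s_i}`, `z` in the ball of radius `r` (use `exists_mid`).
-/

set_option autoImplicit false

namespace Pool.Agent.H26.HB

universe u v w

variable {B : Type v} {W : Type u} [Group W] {M : CoxeterMatrix B} {cs : CoxeterSystem M W}
  {X : Type w} {dl : X → X → W}

/-- the retraction centred at `w` does not increase distances -/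
theorem IsBuilding.retr (hb : IsBuilding cs dl) (w x z : X) :
    wd cs (dl w x) (dl w z) ≤ gd cs dl x z := by
  classical
  have hstep : ∀ (a a' : X) (i : B), dl a' a = cs.simple i →
      cs.length ((dl w a)⁻¹ * dl w a') ≤ 1 := by
    intro a a' i h
    have e1 : dl w a = (dl a w)⁻¹ := hb.dl_symm a w
    have e2 : dl w a' = (dl a' w)⁻¹ := hb.dl_symm a' w
    rcases hb.wd2 a w a' i h with h2 | h2
    · rw [e1, e2, h2, inv_inv, mul_inv_rev, ← mul_assoc, mul_inv_cancel, one_mul,
        cs.inv_simple, cs.length_simple]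
    · rw [e1, e2, h2, inv_inv, mul_inv_cancel, cs.length_one]
      exact zero_le_one
  have key : ∀ (N : ℕ) (x : X), cs.length (dl x z) = N →
      cs.length ((dl w x)⁻¹ * dl w z) ≤ N := by
    intro N
    induction N with
    | zero =>
      intro x hx
      have h1 : x = z := (hb.wd1 x z).1 (cs.length_eq_zero_iff.1 hx)
      rw [h1, inv_mul_cancel, cs.length_one]
    | succ N ih =>
      intro x hx
      have h1 : dl x z ≠ 1 := fun h => by
        rw [h, cs.length_one] at hx
        exact absurd hx (Nat.succ_ne_zero N).symm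
      obtain ⟨i, hi⟩ := cs.exists_leftDescent_of_ne_one h1
      obtain ⟨x₁, h2, h3⟩ := hb.wd3 x z i
      have h4 : cs.length (dl x₁ z) = N := by
        rw [h3]
        have h5 := cs.isLeftDescent_iff.1 hi
        omega
      have h6 := ih x₁ h4
      have h7 := hstep x x₁ i h2
      have h8 : (dl w x)⁻¹ * dl w z =
          ((dl w x)⁻¹ * dl w x₁) * ((dl w x₁)⁻¹ * dl w z) := by group
      rw [h8]
      have h9 := cs.length_mul_le ((dl w x)⁻¹ * dl w x₁) ((dl w x₁)⁻¹ * dl w z)
      omega
  exact key _ x rfl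

theorem IsBuilding.down_unique (hb : IsBuilding cs dl) {x y x' x'' : X} {i : B}
    (hd : cs.IsLeftDescent (dl x y) i) (h1 : dl x' x = cs.simple i)
    (h2 : dl x' y = cs.simple i * dl x y) (h3 : dl x'' x = cs.simple i)
    (h4 : dl x'' y = cs.simple i * dl x y) : x'' = x' := by
  have h5 := hb.adj_symm h1
  have h6 := cs.isLeftDescent_iff.1 hd
  rcases hb.wd2 x x' x'' i h3 with h7 | h7
  · rw [h5, cs.simple_mul_simple_self] at h7
    exact (hb.wd1 x'' x').1 h7
  · rw [h5] at h7
    exfalso
    have h8 : cs.simple i * dl x' y = dl x y := by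
      rw [h2, ← mul_assoc, cs.simple_mul_simple_self, one_mul]
    have h9 := hb.wd2' x' y x'' i h7 (by rw [h8, h2]; omega)
    rw [h8, h4] at h9
    rw [h9] at h6
    omega

theorem IsBuilding.balls [Finite B] (hb : IsBuilding cs dl) {n : B → ℕ}
    (hn : HasThickness cs dl n) :
    ∃ N : ℕ → ℕ, ∀ x r, ∃ F : Finset X, F.card ≤ N r ∧ ∀ y, gd cs dl x y ≤ r → y ∈ F := by
  classical
  have := Fintype.ofFinite B
  refine ⟨fun r => (1 + ∑ i, n i) ^ r, fun x r => ?_⟩
  induction r with
  | zero =>
    refine ⟨{x}, by simp, fun y hy => ?_⟩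
    have h1 : cs.length (dl x y) = 0 := Nat.le_zero.1 hy
    have h2 : x = y := (hb.wd1 x y).1 (cs.length_eq_zero_iff.1 h1)
    rw [h2]
    exact Finset.mem_singleton_self y
  | succ r ih =>
    obtain ⟨F, hF1, hF2⟩ := ih
    refine ⟨F.biUnion fun z => insert z (Finset.univ.biUnion fun i => (hn z i).1.toFinset),
      ?_, fun y hy => ?_⟩
    · have h1 : (F.biUnion fun z => insert z
          (Finset.univ.biUnion fun i => (hn z i).1.toFinset)).card ≤
          F.card * (1 + ∑ i, n i) := by
        refine Finset.card_biUnion_le_card_mul _ _ _ fun z _ => ?_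
        refine (Finset.card_insert_le _ _).trans ?_
        rw [add_comm]
        refine Nat.add_le_add_left ?_ 1
        refine Finset.card_biUnion_le.trans (Finset.sum_le_sum fun i _ => ?_)
        have h2 := (hn z i).2
        rw [Set.ncard_eq_toFinset_card _ (hn z i).1] at h2
        exact h2.le
      refine h1.trans ?_
      show F.card * (1 + ∑ i, n i) ≤ (1 + ∑ i, n i) ^ (r + 1)
      rw [pow_succ]
      exact Nat.mul_le_mul_right _ hF1
    · rw [Finset.mem_biUnion]
      rcases Nat.lt_or_ge r (gd cs dl x y) with h | h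
      · have h1 : gd cs dl x y = r + 1 := by omega
        obtain ⟨z, h2, h3⟩ := hb.exists_mid x y r (by omega)
        refine ⟨z, hF2 z h2.le, Finset.mem_insert_of_mem ?_⟩
        have h4 : cs.length (dl z y) = 1 := by
          have h5 : gd cs dl z y = 1 := by omega
          exact h5
        obtain ⟨i, hi⟩ := cs.length_eq_one_iff.1 h4
        rw [Finset.mem_biUnion]
        refine ⟨i, Finset.mem_univ _, ?_⟩
        rw [Set.Finite.mem_toFinset]
        exact hb.adj_symm hi
      · exact ⟨y, hF2 y h, Finset.mem_insert_self _ _⟩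

end Pool.Agent.H26.HB
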