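import Pool.Agent.H26.HB.CBCore

/-!
# Module CB: the cb norm of a multiplier

PLAN. `m = 0`: both sides vanish. `m > 0`: `K0 ≥ 0` (apply the hypothesis to `ξ = η = fun _ => δ 1`). For general `ξ, η`
and a finite set `A ⊆ W` put `ξ^A j = ∑ w ∈ A, (ξ j w) • δ w`; `ξ^A j → ξ j` along `atTop` (`hasSum_δ`), so both sides of
`cb_core` converge (`tendsto_finset_sum`, continuity of inner product, operators, norms, `√`);
`le_of_tendsto_of_tendsto'`.
-/

set_option autoImplicit false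

open scoped ComplexOrder InnerProductSpace
open Filter Topology

namespace Pool.Agent.H26.HB

open Pool.Agent.H73.HVN

universe u v w

variable {B : Type v} {W : Type u} [Group W] {M : CoxeterMatrix B} {cs : CoxeterSystem M W}
  {X : Type w} {dl : X → X → W} {n : B → ℕ} {nb : B → X → Finset X} {fib : X → W → Finset X}
  {κ : W → ℕ}

theorem cb_of_kernel (hc : Cnt cs dl n nb fib κ) [Nonempty X] {q : B → ℝ} (hq : Admissible cs q)
    (hqn : ∀ i, q i = n i) {φ : W → ℝ} {C : ℝ} (hC : 0 ≤ C)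
    (hker : ∀ F : Finset X, KerOK F C (fun e c => φ (dl e c)))
    {Φ : HA cs q →ₗ[ℂ] HA cs q} (hΦ : IsMult cs q Φ (fun w => (φ w : ℂ))) :
    CBNormLE (HA cs q) Φ C := by
  intro m Y K0 hY ξ η
  rcases Nat.eq_zero_or_pos m with hm | hm
  · subst hm
    simp
  have hδ : ‖(δ 1 : L2 W)‖ = 1 := by
    classical
    unfold δ
    rw [lp.norm_single (by norm_num)]
    simp
  have hK0 : 0 ≤ K0 := by
    have h1 := hY (fun _ => δ 1) (fun _ => δ 1)
    have h2 : (0 : ℝ) ≤ K0 * (√(∑ _j : Fin m, ‖(δ 1 : L2 W)‖ ^ 2) *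
        √(∑ _i : Fin m, ‖(δ 1 : L2 W)‖ ^ 2)) := (norm_nonneg _).trans h1
    rw [Real.mul_self_sqrt (Finset.sum_nonneg fun _ _ => by positivity)] at h2
    rw [hδ] at h2
    simp only [one_pow, Finset.sum_const, Finset.card_univ, Fintype.card_fin, nsmul_eq_mul,
      mul_one] at h2
    have h3 : (0 : ℝ) < m := by exact_mod_cast hm
    by_contra hneg
    push Not at hneg
    have := mul_neg_of_neg_of_pos hneg h3
    linarith
  have hξ : ∀ j, Tendsto (fun A : Finset W => ∑ w ∈ A, ξ j w • (δ w : L2 W)) atTop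
      (𝓝 (ξ j)) := fun j => hasSum_δ (ξ j)
  have hη : ∀ i, Tendsto (fun A : Finset W => ∑ w ∈ A, η i w • (δ w : L2 W)) atTop
      (𝓝 (η i)) := fun i => hasSum_δ (η i)
  have hl : Tendsto (fun A : Finset W => ‖∑ i, ∑ j, ⟪∑ w ∈ A, η i w • (δ w : L2 W),
      (Φ (Y i j) : L2 W →L[ℂ] L2 W) (∑ w ∈ A, ξ j w • (δ w : L2 W))⟫_ℂ‖) atTop
      (𝓝 ‖∑ i, ∑ j, ⟪η i, (Φ (Y i j) : L2 W →L[ℂ] L2 W) (ξ j)⟫_ℂ‖) := by
    refine Tendsto.norm (tendsto_finsetSum _ fun i _ => tendsto_finsetSum _ fun j _ => ?_)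
    exact Tendsto.inner (hη i)
      (((Φ (Y i j) : L2 W →L[ℂ] L2 W).continuous.tendsto _).comp (hξ j))
  have hr : Tendsto (fun A : Finset W => C * K0 *
      (√(∑ j, ‖∑ w ∈ A, ξ j w • (δ w : L2 W)‖ ^ 2) *
        √(∑ i, ‖∑ w ∈ A, η i w • (δ w : L2 W)‖ ^ 2))) atTop
      (𝓝 (C * K0 * (√(∑ j, ‖ξ j‖ ^ 2) * √(∑ i, ‖η i‖ ^ 2)))) := by
    refine Tendsto.const_mul _ (Tendsto.mul ?_ ?_)
    · exact (Real.continuous_sqrt.tendsto _).comp
        (tendsto_finsetSum _ fun j _ => ((hξ j).norm.pow 2))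
    · exact (Real.continuous_sqrt.tendsto _).comp
        (tendsto_finsetSum _ fun i _ => ((hη i).norm.pow 2))
  refine le_of_tendsto_of_tendsto' hl hr fun A => ?_
  exact cb_core hc hq hqn hC hker hΦ Y hK0 hY A (fun j w => ξ j w) (fun i w => η i w)
    (fun j => ∑ w ∈ A, ξ j w • (δ w : L2 W)) (fun i => ∑ w ∈ A, η i w • (δ w : L2 W))
    (fun _ => rfl) (fun _ => rfl)

end Pool.Agent.H26.HB
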