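import Mathlib

/-!
# Module KerOK: kernels which are bounded Schur multipliers (finite version)
-/

set_option autoImplicit false

namespace Pool.Agent.H26.HB

universe u w

/-- the kernel `φ` restricted to the finite set `F` is `∑ k, a x k * b y k` with square sums `≤ C` -/
def KerOK {X : Type w} (F : Finset X) (C : ℝ) (φ : X → X → ℝ) : Prop :=
  ∃ (m : ℕ) (a b : X → Fin m → ℝ), (∀ x ∈ F, ∑ k, a x k ^ 2 ≤ C) ∧ (∀ y ∈ F, ∑ k, b y k ^ 2 ≤ C) ∧
    ∀ x ∈ F, ∀ y ∈ F, ∑ k, a x k * b y k = φ x y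

theorem KerOK.of_fintype {X : Type w} {F : Finset X} {C : ℝ} {φ : X → X → ℝ} {ι : Type u}
    [Fintype ι] (a b : X → ι → ℝ) (ha : ∀ x ∈ F, ∑ k, a x k ^ 2 ≤ C)
    (hb : ∀ y ∈ F, ∑ k, b y k ^ 2 ≤ C) (hab : ∀ x ∈ F, ∀ y ∈ F, ∑ k, a x k * b y k = φ x y) :
    KerOK F C φ := by
  classical
  let e := Fintype.equivFin ι
  refine ⟨Fintype.card ι, fun x k => a x (e.symm k), fun y k => b y (e.symm k), ?_, ?_, ?_⟩
  · intro x hx
    rw [Equiv.sum_comp e.symm (fun i => a x i ^ 2)]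
    exact ha x hx
  · intro y hy
    rw [Equiv.sum_comp e.symm (fun i => b y i ^ 2)]
    exact hb y hy
  · intro x hx y hy
    rw [Equiv.sum_comp e.symm (fun i => a x i * b y i)]
    exact hab x hx y hy

/-- the function `(n - m)(n - m + 1) / (n (n + 1))` for `m ≤ n`, and `0` for `m > n` -/
noncomputable def fej (n m : ℕ) : ℝ :=
  (((n - m : ℕ) : ℝ) * (((n - m : ℕ) : ℝ) + 1)) / ((n : ℝ) * ((n : ℝ) + 1))

end Pool.Agent.H26.HB
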