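import Pool.Agent.H26.HB.JComm
import Pool.Agent.H26.HB.Abs
import Pool.Agent.H26.HB.KerOK

/-!
# Module CBCore: the cb norm of a multiplier, finitely supported vectors

Let `Φ : HA → HA` be a multiplier by `f(w) = φ(w)` (`IsMult`: `(Φ x (δ 1)) w = φ w * (x (δ 1)) w`) and suppose the
kernel `φ(dl e c)` is `KerOK` with constant `C` on every finite set of chambers. Then for finitely supported
`ξ_j = ∑ w ∈ A, s j w • δ w`, `η_i = ∑ w ∈ A, t i w • δ w`: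
`‖∑ i j, ⟪η_i, Φ(X_ij) ξ_j⟫‖ ≤ C * K0 * (√(∑ ‖ξ_j‖²) * √(∑ ‖η_i‖²))`.

PLAN. Choose `c₀ : X`; `F = A.biUnion (fib c₀)` (disjoint union); `u_j = J_{c₀} ξ_j`, `v_i = J_{c₀} η_i ∈ ℓ²(X)`;
`‖u_j‖ = ‖ξ_j‖`, `u_j(c) = 0` for `c ∉ F`, and `u_j(c) = (√κ(dl c c₀))⁻¹ * s j (dl c c₀)` for `c ∈ F`.
(I1) for `x ∈ HA`: `J_{c₀} (x ξ_j) = ∑ c ∈ F, u_j(c) • J_c (x (δ 1))` (`JJ_word`, `Finset.sum_biUnion`, `hc.mem_fib`).
So `⟪η_i, Φ(x) ξ_j⟫ = ⟪v_i, J_{c₀} (Φ(x) ξ_j)⟫ = ∑ e ∈ F, ∑ c ∈ F, conj (v_i e) * u_j c * (J_c (Φ x (δ 1))) e`, and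
`(J_c (Φ x (δ 1))) e = φ(dl e c) * (J_c (x (δ 1))) e` (`JJ_apply`, `IsMult`).
With `φ(dl e c) = ∑ k, a e k * b c k` and `Ξ_{k,j} := ∑ c ∈ F, (b c k * u_j c) • J_c`,
`α_{k,i} := ∑ e ∈ F, (a e k * v_i e) • δ e ∈ ℓ²(X)`: `⟪η_i, Φ(x) ξ_j⟫ = ∑ k, ⟪α_{k,i}, Ξ_{k,j} (x (δ 1))⟫`.
(I2) For every `k`, `sqrt_lemma` applies to `Ξ_{k,·}` (`hcomm` from `adj_JJ_comm` by bilinearity) with `Ω = δ 1`:
`∑ i, ‖∑ j, Ξ_{k,j} (X_ij (δ 1))‖² ≤ K0² ∑ j, ‖Ξ_{k,j} (δ 1)‖²`, `Ξ_{k,j} (δ 1) = ∑ c ∈ F, (b c k * u_j c) • δ c`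
(`JJ_one`), so `‖Ξ_{k,j} (δ 1)‖² = ∑ c ∈ F, (b c k)² * ‖u_j c‖²`; also `‖α_{k,i}‖² = ∑ e ∈ F, (a e k)² * ‖v_i e‖²`.
(I3) `‖∑ i j, ⟪η_i, Φ(X_ij) ξ_j⟫‖ = ‖∑ k, ∑ i, ⟪α_{k,i}, ∑ j, Ξ_{k,j} (X_ij (δ 1))⟫‖
≤ ∑ k, √(∑ i, ‖α_{k,i}‖²) * (K0 * √(∑ j, ‖Ξ_{k,j} (δ 1)‖²)) ≤ K0 √(∑ k i, ‖α_{k,i}‖²) √(∑ k j, ‖Ξ_{k,j} (δ 1)‖²)
≤ K0 √(C ∑ i, ‖v_i‖²) √(C ∑ j, ‖u_j‖²)` (Cauchy–Schwarz `Finset.sum_mul_le_sqrt_mul_sqrt`; `∑ k, (a e k)² ≤ C` on `F`;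
`∑ e ∈ F, ‖v_i e‖² ≤ ‖v_i‖²`, `hasSum_normsq`).
-/

set_option autoImplicit false

open scoped ComplexOrder InnerProductSpace
open Filter Topology

namespace Pool.Agent.H26.HB

open Pool.Agent.H73.HVN

universe u v w

variable {B : Type v} {W : Type u} [Group W] {M : CoxeterMatrix B} {cs : CoxeterSystem M W}
  {X : Type w} {dl : X → X → W} {n : B → ℕ} {nb : B → X → Finset X} {fib : X → W → Finset X}
  {κ : W → ℕ}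

private theorem CBCore_coe_sum {Z : Type*} {ι : Type*} (F : Finset ι) (f : ι → L2 Z) (x : Z) :
    (∑ e ∈ F, f e : L2 Z) x = ∑ e ∈ F, (f e) x := by
  rw [lp.coeFn_sum, Finset.sum_apply]

private theorem CBCore_coe_smul {Z : Type*} (z : ℂ) (f : L2 Z) (x : Z) :
    (z • f : L2 Z) x = z * f x := by
  rw [lp.coeFn_smul, Pi.smul_apply, smul_eq_mul]

private theorem CBCore_val_mem {Z : Type*} (F : Finset Z) (z : Z → ℂ) {x : Z} (hx : x ∈ F) :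
    (∑ e ∈ F, z e • (δ e : L2 Z) : L2 Z) x = z x := by
  rw [CBCore_coe_sum, Finset.sum_eq_single x]
  · rw [CBCore_coe_smul, δ_self, mul_one]
  · intro e _ he
    rw [CBCore_coe_smul, δ_ne (Ne.symm he), mul_zero]
  · intro h
    exact absurd hx h

private theorem CBCore_val_not {Z : Type*} (F : Finset Z) (z : Z → ℂ) {x : Z} (hx : x ∉ F) :
    (∑ e ∈ F, z e • (δ e : L2 Z) : L2 Z) x = 0 := by
  rw [CBCore_coe_sum]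
  refine Finset.sum_eq_zero fun e he => ?_
  rw [CBCore_coe_smul, δ_ne, mul_zero]
  rintro rfl
  exact hx he

private theorem CBCore_norm {Z : Type*} (F : Finset Z) (z : Z → ℂ) :
    ‖∑ e ∈ F, z e • (δ e : L2 Z)‖ ^ 2 = ∑ e ∈ F, ‖z e‖ ^ 2 := by
  have h1 := hasSum_normsq (∑ e ∈ F, z e • (δ e : L2 Z) : L2 Z)
  have h2 : HasSum (fun x => ‖(∑ e ∈ F, z e • (δ e : L2 Z) : L2 Z) x‖ ^ 2)
      (∑ x ∈ F, ‖(∑ e ∈ F, z e • (δ e : L2 Z) : L2 Z) x‖ ^ 2) := by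
    refine hasSum_sum_of_ne_finset_zero fun x hx => ?_
    rw [CBCore_val_not F z hx, norm_zero]
    norm_num
  rw [h1.unique h2]
  refine Finset.sum_congr rfl fun x hx => ?_
  rw [CBCore_val_mem F z hx]

private theorem CBCore_inner {Z : Type*} (F : Finset Z) (z : Z → ℂ) (g : L2 Z) :
    ⟪(∑ e ∈ F, z e • (δ e : L2 Z) : L2 Z), g⟫_ℂ = ∑ e ∈ F, (starRingEnd ℂ) (z e) * g e := by
  rw [sum_inner]
  refine Finset.sum_congr rfl fun e _ => ?_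
  rw [inner_smul_left, inner_δ]

private theorem CBCore_est {Z : Type*} (F : Finset Z) {C : ℝ} (hC : 0 ≤ C) {m' : ℕ}
    (a : Z → Fin m' → ℝ) (ha : ∀ x ∈ F, ∑ k, a x k ^ 2 ≤ C) (u : L2 Z) :
    ∑ k, ‖∑ e ∈ F, ((a e k : ℂ) * u e) • (δ e : L2 Z)‖ ^ 2 ≤ C * ‖u‖ ^ 2 := by
  have h1 : ∀ k, ‖∑ e ∈ F, ((a e k : ℂ) * u e) • (δ e : L2 Z)‖ ^ 2 =
      ∑ e ∈ F, a e k ^ 2 * ‖u e‖ ^ 2 := by
    intro k
    rw [CBCore_norm]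
    refine Finset.sum_congr rfl fun e _ => ?_
    rw [norm_mul, mul_pow, Complex.norm_real, Real.norm_eq_abs, sq_abs]
  rw [Finset.sum_congr rfl fun k _ => h1 k, Finset.sum_comm]
  have h2 : ∀ e ∈ F, ∑ k, a e k ^ 2 * ‖u e‖ ^ 2 ≤ C * ‖u e‖ ^ 2 := by
    intro e he
    rw [← Finset.sum_mul]
    exact mul_le_mul_of_nonneg_right (ha e he) (sq_nonneg _)
  refine (Finset.sum_le_sum h2).trans ?_
  rw [← Finset.mul_sum]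
  refine mul_le_mul_of_nonneg_left ?_ hC
  exact sum_le_hasSum F (fun _ _ => sq_nonneg _) (hasSum_normsq u)

private theorem CBCore_I1 [DecidableEq X] (hc : Cnt cs dl n nb fib κ) {q : B → ℝ}
    (hq : Admissible cs q) (hqn : ∀ i, q i = n i) (c₀ : X) (A : Finset W) (s : W → ℂ)
    {x : L2 W →L[ℂ] L2 W} (hx : x ∈ HA cs q) :
    JJ dl κ c₀ (x (∑ w ∈ A, s w • (δ w : L2 W))) =
      ∑ c ∈ A.biUnion (fib c₀), (JJ dl κ c₀ (∑ w ∈ A, s w • (δ w : L2 W)) c) •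
        JJ dl κ c (x (δ 1)) := by
  rw [Finset.sum_biUnion]
  · rw [map_sum, map_sum]
    refine Finset.sum_congr rfl fun w hw => ?_
    rw [map_smul, map_smul, JJ_word hc hq hqn c₀ w hx, smul_smul, Finset.smul_sum]
    refine Finset.sum_congr rfl fun c hcw => ?_
    have h1 : dl c c₀ = w := (hc.mem_fib c₀ w c).1 hcw
    rw [JJ_apply hc, h1, CBCore_val_mem A s hw, mul_comm]
  · intro w _ w' _ hne
    rw [Function.onFun, Finset.disjoint_left]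
    intro c h1 h2
    exact hne (((hc.mem_fib c₀ w c).1 h1).symm.trans ((hc.mem_fib c₀ w' c).1 h2))

private theorem CBCore_supp [DecidableEq X] (hc : Cnt cs dl n nb fib κ) {q : B → ℝ}
    (hq : Admissible cs q) (hqn : ∀ i, q i = n i) (c₀ : X) (A : Finset W) (s : W → ℂ) :
    JJ dl κ c₀ (∑ w ∈ A, s w • (δ w : L2 W)) =
      ∑ c ∈ A.biUnion (fib c₀), (JJ dl κ c₀ (∑ w ∈ A, s w • (δ w : L2 W)) c) •
        (δ c : L2 X) := by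
  have h : JJ dl κ c₀ (∑ w ∈ A, s w • (δ w : L2 W)) =
      ∑ c ∈ A.biUnion (fib c₀), (JJ dl κ c₀ (∑ w ∈ A, s w • (δ w : L2 W)) c) •
        JJ dl κ c (δ 1) := CBCore_I1 hc hq hqn c₀ A s (Subalgebra.one_mem (HA cs q))
  exact h.trans (Finset.sum_congr rfl fun c _ => by rw [JJ_one hc c])

theorem cb_core (hc : Cnt cs dl n nb fib κ) [Nonempty X] {q : B → ℝ} (hq : Admissible cs q)
    (hqn : ∀ i, q i = n i) {φ : W → ℝ} {C : ℝ} (hC : 0 ≤ C)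
    (hker : ∀ F : Finset X, KerOK F C (fun e c => φ (dl e c)))
    {Φ : HA cs q →ₗ[ℂ] HA cs q} (hΦ : IsMult cs q Φ (fun w => (φ w : ℂ)))
    {m : ℕ} (Y : Fin m → Fin m → HA cs q) {K0 : ℝ} (hK0 : 0 ≤ K0)
    (hY : ∀ ξ η : Fin m → L2 W, ‖∑ i, ∑ j, ⟪η i, (Y i j : L2 W →L[ℂ] L2 W) (ξ j)⟫_ℂ‖ ≤
      K0 * (√(∑ j, ‖ξ j‖ ^ 2) * √(∑ i, ‖η i‖ ^ 2)))
    (A : Finset W) (s t : Fin m → W → ℂ) (ξ η : Fin m → L2 W)
    (hξ : ∀ j, ξ j = ∑ w ∈ A, s j w • (δ w : L2 W)) (hη : ∀ i, η i = ∑ w ∈ A, t i w • (δ w : L2 W)) :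
    ‖∑ i, ∑ j, ⟪η i, (Φ (Y i j) : L2 W →L[ℂ] L2 W) (ξ j)⟫_ℂ‖ ≤
      C * K0 * (√(∑ j, ‖ξ j‖ ^ 2) * √(∑ i, ‖η i‖ ^ 2)) := by
  classical
  obtain ⟨c₀⟩ := ‹Nonempty X›
  set F : Finset X := A.biUnion (fib c₀) with hF
  obtain ⟨m', a, b, ha, hb, hab⟩ := hker F
  set u : Fin m → L2 X := fun j => JJ dl κ c₀ (ξ j) with hu
  set v : Fin m → L2 X := fun i => JJ dl κ c₀ (η i) with hv
  set Ξ : Fin m' → Fin m → (L2 W →L[ℂ] L2 X) := fun k j =>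
    ∑ c ∈ F, ((b c k : ℂ) * u j c) • JJ dl κ c with hΞ
  set α : Fin m' → Fin m → L2 X := fun k i =>
    ∑ e ∈ F, ((a e k : ℂ) * v i e) • (δ e : L2 X) with hα
  have hΞ_apply : ∀ k j f, Ξ k j f = ∑ c ∈ F, ((b c k : ℂ) * u j c) • JJ dl κ c f := by
    intro k j f
    rw [hΞ]
    simp only [sum_apply, smul_apply]
  -- the inner products
  have hin : ∀ i j, ⟪η i, (Φ (Y i j) : L2 W →L[ℂ] L2 W) (ξ j)⟫_ℂ =
      ∑ k, ⟪α k i, Ξ k j ((Y i j : L2 W →L[ℂ] L2 W) (δ 1))⟫_ℂ := by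
    intro i j
    have e1 : JJ dl κ c₀ ((Φ (Y i j) : L2 W →L[ℂ] L2 W) (ξ j)) =
        ∑ c ∈ F, (u j c) • JJ dl κ c ((Φ (Y i j) : L2 W →L[ℂ] L2 W) (δ 1)) := by
      rw [hu]
      simp only
      rw [hξ j]
      exact CBCore_I1 hc hq hqn c₀ A (s j) (Φ (Y i j)).2
    have e2 : v i = ∑ e ∈ F, (v i e) • (δ e : L2 X) := by
      rw [hv]
      simp only
      rw [hη i]
      exact CBCore_supp hc hq hqn c₀ A (t i)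
    rw [← JJ_inner hc c₀, e1]
    change ⟪v i, _⟫_ℂ = _
    rw [e2, CBCore_inner]
    have e3 : ∀ c e, JJ dl κ c ((Φ (Y i j) : L2 W →L[ℂ] L2 W) (δ 1)) e =
        (φ (dl e c) : ℂ) * JJ dl κ c ((Y i j : L2 W →L[ℂ] L2 W) (δ 1)) e := by
      intro c e
      rw [JJ_apply hc, JJ_apply hc, hΦ (Y i j) (dl e c)]
      ring
    have e4 : ∀ k, ⟪α k i, Ξ k j ((Y i j : L2 W →L[ℂ] L2 W) (δ 1))⟫_ℂ =
        ∑ e ∈ F, ∑ c ∈ F, (starRingEnd ℂ) (v i e) * u j c * ((a e k : ℂ) * (b c k : ℂ)) *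
          JJ dl κ c ((Y i j : L2 W →L[ℂ] L2 W) (δ 1)) e := by
      intro k
      rw [hα]
      simp only
      rw [CBCore_inner]
      refine Finset.sum_congr rfl fun e _ => ?_
      rw [hΞ_apply, CBCore_coe_sum, Finset.mul_sum]
      refine Finset.sum_congr rfl fun c _ => ?_
      rw [CBCore_coe_smul, map_mul, Complex.conj_ofReal]
      ring
    rw [Finset.sum_congr rfl fun k _ => e4 k, Finset.sum_comm]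
    refine Finset.sum_congr rfl fun e he => ?_
    rw [CBCore_coe_sum, Finset.mul_sum, Finset.sum_comm]
    refine Finset.sum_congr rfl fun c hcF => ?_
    rw [CBCore_coe_smul, e3, ← Finset.sum_mul, ← Finset.mul_sum]
    have e5 : ∑ k, (a e k : ℂ) * (b c k : ℂ) = (φ (dl e c) : ℂ) := by
      have h6 : ∑ k, a e k * b c k = φ (dl e c) := hab e he c hcF
      rw [← h6]
      push_cast
      rfl
    rw [e5]
    ring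
  have hsum : ∑ i, ∑ j, ⟪η i, (Φ (Y i j) : L2 W →L[ℂ] L2 W) (ξ j)⟫_ℂ =
      ∑ k, ∑ i, ⟪α k i, ∑ j, Ξ k j ((Y i j : L2 W →L[ℂ] L2 W) (δ 1))⟫_ℂ := by
    rw [Finset.sum_comm (s := (Finset.univ : Finset (Fin m')))]
    refine Finset.sum_congr rfl fun i _ => ?_
    rw [Finset.sum_congr rfl fun j _ => hin i j, Finset.sum_comm]
    refine Finset.sum_congr rfl fun k _ => ?_
    rw [inner_sum]
  -- the square root lemma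
  have hsq : ∀ k, ∑ i, ‖∑ j, Ξ k j ((Y i j : L2 W →L[ℂ] L2 W) (δ 1))‖ ^ 2 ≤
      K0 ^ 2 * ∑ j, ‖Ξ k j (δ 1)‖ ^ 2 := by
    intro k
    refine sqrt_lemma (Ξ k) (fun i j => (Y i j : L2 W →L[ℂ] L2 W)) ?_ hY (δ 1)
    intro j k' i l f g
    rw [hΞ_apply, hΞ_apply, hΞ_apply, hΞ_apply]
    simp only [sum_inner, inner_sum, inner_smul_left, inner_smul_right]
    refine Finset.sum_congr rfl fun c _ => ?_
    congr 1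
    refine Finset.sum_congr rfl fun d _ => ?_
    rw [adj_JJ_comm hc hqn d c (Y i l).2]
  -- the norms
  have hα2 : ∑ k, ∑ i, ‖α k i‖ ^ 2 ≤ C * ∑ i, ‖η i‖ ^ 2 := by
    rw [Finset.sum_comm, Finset.mul_sum]
    refine Finset.sum_le_sum fun i _ => ?_
    rw [← JJ_norm hc c₀ (η i)]
    exact CBCore_est F hC a ha (v i)
  have hΞ2 : ∑ k, ∑ j, ‖Ξ k j (δ 1)‖ ^ 2 ≤ C * ∑ j, ‖ξ j‖ ^ 2 := by
    rw [Finset.sum_comm, Finset.mul_sum]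
    refine Finset.sum_le_sum fun j _ => ?_
    rw [← JJ_norm hc c₀ (ξ j)]
    have h1 : ∀ k, Ξ k j (δ 1) = ∑ c ∈ F, ((b c k : ℂ) * u j c) • (δ c : L2 X) := by
      intro k
      rw [hΞ_apply]
      exact Finset.sum_congr rfl fun c _ => by rw [JJ_one hc c]
    rw [Finset.sum_congr rfl fun k _ => by rw [h1 k]]
    exact CBCore_est F hC b hb (u j)
  -- the estimate
  have hk : ∀ k, ‖∑ i, ⟪α k i, ∑ j, Ξ k j ((Y i j : L2 W →L[ℂ] L2 W) (δ 1))⟫_ℂ‖ ≤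
      K0 * (√(∑ i, ‖α k i‖ ^ 2) * √(∑ j, ‖Ξ k j (δ 1)‖ ^ 2)) := by
    intro k
    have h1 : ‖∑ i, ⟪α k i, ∑ j, Ξ k j ((Y i j : L2 W →L[ℂ] L2 W) (δ 1))⟫_ℂ‖ ≤
        ∑ i, ‖α k i‖ * ‖∑ j, Ξ k j ((Y i j : L2 W →L[ℂ] L2 W) (δ 1))‖ :=
      (norm_sum_le _ _).trans (Finset.sum_le_sum fun i _ => norm_inner_le_norm _ _)
    have h2 := Real.sum_mul_le_sqrt_mul_sqrt (Finset.univ : Finset (Fin m))
      (fun i => ‖α k i‖) (fun i => ‖∑ j, Ξ k j ((Y i j : L2 W →L[ℂ] L2 W) (δ 1))‖)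
    have h3 : √(∑ i, ‖∑ j, Ξ k j ((Y i j : L2 W →L[ℂ] L2 W) (δ 1))‖ ^ 2) ≤
        K0 * √(∑ j, ‖Ξ k j (δ 1)‖ ^ 2) := by
      have h4 := Real.sqrt_le_sqrt (hsq k)
      rwa [Real.sqrt_mul (sq_nonneg K0), Real.sqrt_sq hK0] at h4
    calc _ ≤ √(∑ i, ‖α k i‖ ^ 2) *
          √(∑ i, ‖∑ j, Ξ k j ((Y i j : L2 W →L[ℂ] L2 W) (δ 1))‖ ^ 2) := h1.trans h2
      _ ≤ √(∑ i, ‖α k i‖ ^ 2) * (K0 * √(∑ j, ‖Ξ k j (δ 1)‖ ^ 2)) :=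
        mul_le_mul_of_nonneg_left h3 (Real.sqrt_nonneg _)
      _ = _ := by ring
  rw [hsum]
  have hnn1 : ∀ k, 0 ≤ ∑ i, ‖α k i‖ ^ 2 := fun k => Finset.sum_nonneg fun i _ => sq_nonneg _
  have hnn2 : ∀ k, 0 ≤ ∑ j, ‖Ξ k j (δ 1)‖ ^ 2 := fun k => Finset.sum_nonneg fun i _ => sq_nonneg _
  have hfin : ∑ k, √(∑ i, ‖α k i‖ ^ 2) * √(∑ j, ‖Ξ k j (δ 1)‖ ^ 2) ≤
      √(C * ∑ i, ‖η i‖ ^ 2) * √(C * ∑ j, ‖ξ j‖ ^ 2) := by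
    refine (Real.sum_sqrt_mul_sqrt_le (Finset.univ : Finset (Fin m')) hnn1 hnn2).trans ?_
    exact mul_le_mul (Real.sqrt_le_sqrt hα2) (Real.sqrt_le_sqrt hΞ2) (Real.sqrt_nonneg _)
      (Real.sqrt_nonneg _)
  calc _ ≤ ∑ k, K0 * (√(∑ i, ‖α k i‖ ^ 2) * √(∑ j, ‖Ξ k j (δ 1)‖ ^ 2)) :=
        (norm_sum_le _ _).trans (Finset.sum_le_sum fun k _ => hk k)
    _ = K0 * ∑ k, √(∑ i, ‖α k i‖ ^ 2) * √(∑ j, ‖Ξ k j (δ 1)‖ ^ 2) := by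
        rw [Finset.mul_sum]
    _ ≤ K0 * (√(C * ∑ i, ‖η i‖ ^ 2) * √(C * ∑ j, ‖ξ j‖ ^ 2)) :=
        mul_le_mul_of_nonneg_left hfin hK0
    _ = _ := by
        rw [Real.sqrt_mul hC, Real.sqrt_mul hC]
        have h5 := Real.mul_self_sqrt hC
        linear_combination (K0 * √(∑ i, ‖η i‖ ^ 2) * √(∑ j, ‖ξ j‖ ^ 2)) * h5

end Pool.Agent.H26.HB
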