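import Pool.Agent.H26.HB.Build2

/-!
# Module Cnt: counting chambers

`nb i x` is the finite set of the chambers `x' ≠ x` of the `i`-panel of `x` (so `n i` chambers), `fib c w` the finite
set of the chambers `d` with `dl d c = w`, `κ w` its cardinality (which does not depend on `c`).

PLAN. `nb i x := (hn x i).1.toFinset` (`Set.ncard_eq_toFinset_card`), `n i ≥ 1` by `wd3` (with `y := x`; `X` is nonempty;
`dl x' x = s`). `fib c w` is finite: induction on `ℓ w` (`dl d c = 1` iff `d = c`; if `i` is a left descent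
of `w` and `dl d c = w` then by `wd3` there is `d'` with `dl d' d = s`, `dl d' c = s * w`, so `d ∈ nb i d'`:
`fib c w ⊆ ⋃ d' ∈ fib c (s * w), nb i d'`; `hb.adj_symm`). (One can also use `hb.balls` if `B` is finite, but
here `B` is arbitrary.)
`sum_nb_up`: if `i` is not a left descent of `dl d c` then all `d' ∈ nb i d` have `dl d' c = s * dl d c` (`wd2'`).
`sum_nb_down`: if it is one, exactly one `d' ∈ nb i d` has `dl d' c = s * dl d c` (`wd3`, `hb.down_unique`), the
others have `dl d' c = dl d c` (`wd2`): `Finset.sum_erase`/`Finset.add_sum_erase`, `card_erase_of_mem`.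
`κ_up`: let `i` be not a left descent of `w`. `fib c (s * w)` is the disjoint union of the `nb i d`, `d ∈ fib c w`:
`d' ∈ fib c (s * w)` has by `wd3` and `hb.down_unique` exactly one `d` with `dl d d' = s`, `dl d c = w`
(`s * (s * w) = w`), see `Finset.card_biUnion`. So the card is `n i * card (fib c w)`.
`card_fib`: define `κ w := (fib c₀ w).card` for a fixed `c₀`, and show `(fib c w).card = (fib c₀ w).card` by
induction on `ℓ w` (left descents). `κ_pos`: same induction.
-/

set_option autoImplicit false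

namespace Pool.Agent.H26.HB

universe u v w

variable {B : Type v} {W : Type u} [Group W] {M : CoxeterMatrix B}

/-- the counting data of a building of type `(W, S)` with thickness `n` -/
structure Cnt (cs : CoxeterSystem M W) {X : Type w} (dl : X → X → W) (n : B → ℕ)
    (nb : B → X → Finset X) (fib : X → W → Finset X) (κ : W → ℕ) : Prop where
  bd : IsBuilding cs dl
  npos : ∀ i, 1 ≤ n i
  mem_nb : ∀ i x x', x' ∈ nb i x ↔ dl x' x = cs.simple i
  nb_symm : ∀ i x x', x' ∈ nb i x ↔ x ∈ nb i x'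
  card_nb : ∀ i x, (nb i x).card = n i
  mem_fib : ∀ c w d, d ∈ fib c w ↔ dl d c = w
  card_fib : ∀ c w, (fib c w).card = κ w
  κ_one : κ 1 = 1
  κ_pos : ∀ w, 0 < κ w
  κ_up : ∀ i w, ¬ cs.IsLeftDescent w i → κ (cs.simple i * w) = n i * κ w
  sum_nb_up : ∀ i d c (g : W → ℂ), ¬ cs.IsLeftDescent (dl d c) i →
    ∑ d' ∈ nb i d, g (dl d' c) = n i * g (cs.simple i * dl d c)
  sum_nb_down : ∀ i d c (g : W → ℂ), cs.IsLeftDescent (dl d c) i →
    ∑ d' ∈ nb i d, g (dl d' c) = g (cs.simple i * dl d c) + ((n i : ℂ) - 1) * g (dl d c)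

/-- left-descent induction -/
private theorem Cnt_ind (cs : CoxeterSystem M W) {P : W → Prop} (h1 : P 1)
    (h2 : ∀ i w, ¬ cs.IsLeftDescent w i → P w → P (cs.simple i * w)) (w : W) : P w := by
  obtain ⟨m, hm⟩ : ∃ m, cs.length w = m := ⟨_, rfl⟩
  induction m generalizing w with
  | zero => rw [cs.length_eq_zero_iff.1 hm]; exact h1
  | succ m ih =>
    have hw : w ≠ 1 := fun h => by rw [h, cs.length_one] at hm; omega
    obtain ⟨i, hi⟩ := cs.exists_leftDescent_of_ne_one hw
    have h3 := h2 i (cs.simple i * w) (cs.isLeftDescent_iff_not_isLeftDescent_mul.1 hi)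
      (ih _ (by have := cs.isLeftDescent_iff.1 hi; omega))
    rwa [cs.simple_mul_simple_cancel_left] at h3

private theorem Cnt_fin {cs : CoxeterSystem M W} {X : Type w} {dl : X → X → W} {n : B → ℕ}
    (hb : IsBuilding cs dl) (hn : HasThickness cs dl n) (c : X) (w : W) :
    {d | dl d c = w}.Finite := by
  refine Cnt_ind cs (P := fun w => {d | dl d c = w}.Finite) ?_ ?_ w
  · refine (Set.finite_singleton c).subset fun d hd => ?_
    exact (hb.wd1 d c).1 hd
  · intro i w _ hw
    refine (hw.biUnion (t := fun d' => {d | dl d d' = cs.simple i})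
      fun d' _ => (hn d' i).1).subset fun d hd => ?_
    obtain ⟨d', h1, h2⟩ := hb.wd3 d c i
    rw [show dl d c = cs.simple i * w from hd, cs.simple_mul_simple_cancel_left] at h2
    exact Set.mem_biUnion (show d' ∈ {d | dl d c = w} from h2) (hb.adj_symm h1)

theorem exists_cnt (cs : CoxeterSystem M W) {X : Type w} [Nonempty X] {dl : X → X → W} {n : B → ℕ}
    (hb : IsBuilding cs dl) (hn : HasThickness cs dl n) :
    ∃ nb fib κ, Cnt cs dl n nb fib κ := by
  classical
  obtain ⟨c₀⟩ := ‹Nonempty X›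
  -- neighbours
  obtain ⟨nb, hnb⟩ : ∃ nb : B → X → Finset X, ∀ i x x', x' ∈ nb i x ↔ dl x' x = cs.simple i :=
    ⟨fun i x => (hn x i).1.toFinset, fun i x x' => by
      rw [Set.Finite.mem_toFinset]; exact Iff.rfl⟩
  have hcard : ∀ i x, (nb i x).card = n i := by
    intro i x
    have h1 : (↑(nb i x) : Set X) = {x' | dl x' x = cs.simple i} := by
      ext x'
      rw [Finset.mem_coe, hnb]
      exact Iff.rfl
    rw [← Set.ncard_coe_finset, h1, (hn x i).2]
  have hsymm : ∀ i x x', x' ∈ nb i x ↔ x ∈ nb i x' := by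
    intro i x x'
    rw [hnb, hnb]
    exact ⟨fun h => hb.adj_symm h, fun h => hb.adj_symm h⟩
  have hpos : ∀ i, 1 ≤ n i := by
    intro i
    obtain ⟨x', h1, _⟩ := hb.wd3 c₀ c₀ i
    rw [← hcard i c₀]
    exact Finset.card_pos.2 ⟨x', (hnb i c₀ x').2 h1⟩
  -- fibres
  obtain ⟨fib, hfib⟩ : ∃ fib : X → W → Finset X, ∀ c w d, d ∈ fib c w ↔ dl d c = w :=
    ⟨fun c w => (Cnt_fin hb hn c w).toFinset, fun c w d => by
      rw [Set.Finite.mem_toFinset]; exact Iff.rfl⟩
  have hone : ∀ c, (fib c 1).card = 1 := by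
    intro c
    have h1 : fib c 1 = {c} := by
      ext d
      rw [hfib, Finset.mem_singleton]
      exact hb.wd1 d c
    rw [h1, Finset.card_singleton]
  have hup : ∀ c i w, ¬ cs.IsLeftDescent w i →
      (fib c (cs.simple i * w)).card = n i * (fib c w).card := by
    intro c i w hi
    have h1 : fib c (cs.simple i * w) = (fib c w).biUnion (nb i) := by
      ext d'
      rw [hfib, Finset.mem_biUnion]
      constructor
      · intro h
        obtain ⟨d, h2, h3⟩ := hb.wd3 d' c i
        rw [h, cs.simple_mul_simple_cancel_left] at h3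
        exact ⟨d, (hfib _ _ _).2 h3, (hnb _ _ _).2 (hb.adj_symm h2)⟩
      · rintro ⟨d, hd, hd'⟩
        rw [hfib] at hd
        rw [hnb] at hd'
        rw [← hd]
        refine hb.wd2' d c d' i hd' ?_
        rw [hd]
        exact cs.not_isLeftDescent_iff.1 hi
    have h2 : ∀ d₁ ∈ fib c w, ∀ d₂ ∈ fib c w, d₁ ≠ d₂ → Disjoint (nb i d₁) (nb i d₂) := by
      intro d₁ hd₁ d₂ hd₂ hne
      rw [Finset.disjoint_left]
      intro d' h3 h4
      rw [hfib] at hd₁ hd₂
      rw [hnb] at h3 h4
      apply hne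
      have h5 : dl d' c = cs.simple i * w := by
        rw [← hd₁]
        refine hb.wd2' d₁ c d' i h3 ?_
        rw [hd₁]
        exact cs.not_isLeftDescent_iff.1 hi
      have h6 : cs.IsLeftDescent (dl d' c) i := by
        rw [h5, cs.isLeftDescent_iff_not_isLeftDescent_mul, cs.simple_mul_simple_cancel_left]
        exact hi
      have h7 : w = cs.simple i * dl d' c := by
        rw [h5, cs.simple_mul_simple_cancel_left]
      exact hb.down_unique h6 (hb.adj_symm h4) (hd₂.trans h7) (hb.adj_symm h3) (hd₁.trans h7)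
    rw [h1, Finset.card_biUnion h2, Finset.sum_congr rfl (fun d _ => hcard i d),
      Finset.sum_const, smul_eq_mul, mul_comm]
  refine ⟨nb, fib, fun w => (fib c₀ w).card, ⟨hb, hpos, hnb, hsymm, hcard, hfib, ?_, hone c₀, ?_,
    fun i w hi => hup c₀ i w hi, ?_, ?_⟩⟩
  · intro c w
    refine Cnt_ind cs (P := fun w => (fib c w).card = (fib c₀ w).card) ?_ ?_ w
    · rw [hone, hone]
    · intro i w hi h
      rw [hup c i w hi, hup c₀ i w hi, h]
  · intro w
    refine Cnt_ind cs (P := fun w => 0 < (fib c₀ w).card) ?_ ?_ w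
    · rw [hone]; exact Nat.one_pos
    · intro i w hi h
      rw [hup c₀ i w hi]
      exact Nat.mul_pos (hpos i) h
  · intro i d c g hi
    have h1 : ∀ d' ∈ nb i d, g (dl d' c) = g (cs.simple i * dl d c) := by
      intro d' hd'
      rw [hnb] at hd'
      rw [hb.wd2' d c d' i hd' (cs.not_isLeftDescent_iff.1 hi)]
    rw [Finset.sum_congr rfl h1, Finset.sum_const, hcard, nsmul_eq_mul]
  · intro i d c g hi
    obtain ⟨d₁, h1, h2⟩ := hb.wd3 d c i
    have hd₁ : d₁ ∈ nb i d := (hnb _ _ _).2 h1
    rw [← Finset.add_sum_erase _ _ hd₁, h2]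
    congr 1
    have h3 : ∀ d' ∈ (nb i d).erase d₁, g (dl d' c) = g (dl d c) := by
      intro d' hd'
      rw [Finset.mem_erase, hnb] at hd'
      rcases hb.wd2 d c d' i hd'.2 with h4 | h4
      · exact absurd (hb.down_unique hi h1 h2 hd'.2 h4) hd'.1
      · rw [h4]
    rw [Finset.sum_congr rfl h3, Finset.sum_const, Finset.card_erase_of_mem hd₁, hcard,
      nsmul_eq_mul, Nat.cast_sub (hpos i), Nat.cast_one]

end Pool.Agent.H26.HB
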