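import Mathlib

/-!
# Project HB: hyperbolic buildings and Hecke-von Neumann algebras: definitions

`(W, S)` is a Coxeter system, `X` the set of chambers of a building of type `(W, S)` given by its
`W`-distance `dl : X → X → W` (Abramenko-Brown, Buildings, Definition 5.1).
-/

set_option autoImplicit false

namespace Pool.Agent.H26.HB

universe u v w

variable {B : Type v} {W : Type u} [Group W] {M : CoxeterMatrix B} (cs : CoxeterSystem M W)

/-- the word metric `d(u, v) = |u⁻¹ v|` of `(W, S)` -/
noncomputable def wd (x y : W) : ℕ := cs.length (x⁻¹ * y)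

/-- `(W, S)` is word hyperbolic: Gromov's four point condition for the word metric -/
def IsHyp (k : ℕ) : Prop :=
  ∀ x y z t : W, wd cs x y + wd cs z t ≤
    max (wd cs x z + wd cs y t) (wd cs x t + wd cs y z) + k

/-- `(X, dl)` is a building of type `(W, S)`: `dl` is a `W`-valued distance function which satisfies
(WD1), (WD2), (WD3). -/
structure IsBuilding {X : Type w} (dl : X → X → W) : Prop where
  wd1 : ∀ x y, dl x y = 1 ↔ x = y
  wd2 : ∀ x y x' i, dl x' x = cs.simple i →
    dl x' y = cs.simple i * dl x y ∨ dl x' y = dl x y
  wd2' : ∀ x y x' i, dl x' x = cs.simple i →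
    cs.length (cs.simple i * dl x y) = cs.length (dl x y) + 1 → dl x' y = cs.simple i * dl x y
  wd3 : ∀ x y i, ∃ x', dl x' x = cs.simple i ∧ dl x' y = cs.simple i * dl x y

/-- the building has thickness `n`: every `i`-panel has exactly `n i + 1` chambers -/
def HasThickness {X : Type w} (dl : X → X → W) (n : B → ℕ) : Prop :=
  ∀ x i, {x' | dl x' x = cs.simple i}.Finite ∧ {x' | dl x' x = cs.simple i}.ncard = n i

/-- the gallery distance -/
noncomputable def gd {X : Type w} (dl : X → X → W) (x y : X) : ℕ := cs.length (dl x y)

end Pool.Agent.H26.HB
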