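import Mathlib

/-!
# Module GSp: discrete geodesic hyperbolic spaces with bounded balls, definitions
-/

set_option autoImplicit false

namespace Pool.Agent.H26.HB

universe u w

/-- a discrete geodesic metric `d` which satisfies a slim bigon/triangle inequality, with uniformly finite
balls -/
structure GSp {X : Type w} (d : X → X → ℕ) (k : ℕ) (N : ℕ → ℕ) : Prop where
  self : ∀ x, d x x = 0
  comm : ∀ x y, d x y = d y x
  tri : ∀ x y z, d x y ≤ d x z + d z y
  mid : ∀ x y m, m ≤ d x y → ∃ z, d x z = m ∧ d z y = d x y - m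
  slim : ∀ x y z t, d x z + d z y = d x y →
    d z t + d x y ≤ max (d x z + d y t) (d z y + d x t) + k
  ball : ∀ x r, ∃ F : Finset X, F.card ≤ N r ∧ ∀ y, d x y ≤ r → y ∈ F

/-- the sets `T x l` (finite subsets of a set `P` of points of heights `g`) which meet in levels `l`, `n - l`
exactly if `d x y ≤ n`, and then only for `l` in an interval of length `D` -/
structure TS {X : Type w} {P : Type u} (d : X → X → ℕ) (T : X → ℕ → Finset P) (h : X → ℤ)
    (g : P → ℤ) (D NT : ℕ) : Prop where
  t1 : ∀ x y l m p, p ∈ T x l → p ∈ T y m → d x y ≤ l + m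
  t2 : ∀ x l p, p ∈ T x l → h x - l ≤ g p ∧ g p ≤ h x - l + D
  t3 : ∀ x y n, d x y ≤ n → ∃ l ≤ n, ∃ p, p ∈ T x l ∧ p ∈ T y (n - l)
  t4 : ∀ x l, (T x l).card ≤ NT

end Pool.Agent.H26.HB
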