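import Pool.Agent.H26.HB.GSp

/-!
# Module Geo: the sets `T x l` in a hyperbolic space with base point and base ray

`x₀ : X` a base point, `h x = d x x₀`, `D = 3 k + 1`. `P = X ⊕ ℕ` (`inr t` is the point at height `-t` of a ray
attached at `x₀`), `g (inl w) = h w`, `g (inr t) = -t`. `inl w ∈ T x l` iff `d x w ≤ l` and `h w + l ≤ h x + D`;
`inr t ∈ T x l` iff `h x + t ≤ l` and `l ≤ h x + D + t`. (As a `Finset`: filter of the images of the ball
of radius `l` and of `range (l + 1)`.)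

PROOF.
(t1) `inl w`: `d x y ≤ d x w + d w y ≤ l + m`. `inr t`: `d x y ≤ h x + h y ≤ l + m`.
(t2) `inl w`: `h x ≤ d x w + h w ≤ l + h w`. `inr t`: clear.
(t4) the number of `inr t ∈ T x l` is at most `D + 1` (`l - h x - D ≤ t ≤ l - h x`). If `inl w ∈ T x l` and `l > h x` then
`h w ≤ D`, so at most `N D` such `w`. If `l ≤ h x`: choose `z` with `d x z = l`, `d z x₀ = h x - l` (`mid`); `slim` for
`(x, y := x₀, z, t := w)`: `d z w + h x ≤ max (l + h w) (h x - l + d x w) + k ≤ max (h x + D) (h x) + k`, so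
`d z w ≤ D + k`: at most `N (D + k)` such `w`. So `NT = N (D + k) + N D + D + 1`.
(t3) Let `d = d x y ≤ n`, `e = n - d`, `l = (n + h x - h y) / 2` (integers, floor; `|h x - h y| ≤ d ≤ n`, so `0 ≤ l ≤ n`),
`m = n - l`, `a = h x - l`, `b = h y - m` (integers), so `a - b ∈ {0, 1}` (as `a - b = n + h x - h y - 2 l`).
Case A: `e ≤ 2 k`. If `l ≤ d`, take `w` with `d x w = l`, `d w y = d - l ≤ m` (`mid`). `slim` for `(x, y, w, t := x₀)`:
`h w + d ≤ max (l + h y) (d - l + h x) + k`; `l + h y = l + m + b = n + b`, `h x - l = a`. So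
`h w ≤ max (e + b) a + k ≤ b + max (2 k) 1 + k ≤ b + D`, that is `h w + m ≤ h y + D`, and as `b ≤ a` also
`h w + l ≤ h x + D`. If `l > d`: take `w = y`: `m < e ≤ 2 k ≤ D`, so `h y + m ≤ h y + D`, and `h y ≤ b + D ≤ a + D`;
`d x y = d ≤ l`.
Case B: `e ≥ 2 k + 1`. Then `2 l + 1 ≥ n + h x - h y ≥ n - d = e ≥ 2 k + 1`, so `l ≥ k`; `2 m ≥ n - h x + h y ≥ e`, so `m ≥ k`.
B1: `l - k ≤ h x`: take `w` with `d x w = l - k`, `h w = h x - (l - k)` (`mid` for `x, x₀`). `h w + l = h x + k ≤ h x + D`;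
`h w = a + k ≤ b + 1 + k ≤ b + D`, so `h w + m ≤ h y + D`. `d y w ≤ m`: `slim` for `(x, y := x₀, z := w, t := y)`:
`d w y + h x ≤ max (l - k + h y) (h w + d x y) + k`, so `d w y ≤ max (l + h y - h x) (d - l + 2 k)`, and
`l + h y - h x ≤ n - l` (definition of `l`), `d - l + 2 k ≤ n - l` (as `2 k ≤ e`).
B2: `l - k > h x`: take `inr t`, `t = l - k - h x`: `h x + t = l - k ≤ l`, `l = h x + t + k ≤ h x + D + t`;
`h y + t ≤ m` iff `2 l ≤ n + h x - h y + k`, true; `m ≤ h y + D + t` iff `n + h x - h y ≤ 2 l + D - k`, true as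
`n + h x - h y ≤ 2 l + 1` and `D - k = 2 k + 1`.
-/

set_option autoImplicit false

namespace Pool.Agent.H26.HB

universe w

private theorem Geo_t4a {X : Type w} {d : X → X → ℕ} {k : ℕ} {N : ℕ → ℕ} (hG : GSp d k N)
    (x₀ x : X) (l D : ℕ) :
    ∃ F : Finset X, F.card ≤ N (D + k) + N D ∧
      ∀ w, d x w ≤ l → d w x₀ + l ≤ d x x₀ + D → w ∈ F := by
  rcases Nat.lt_or_ge (d x x₀) l with hl | hl
  · obtain ⟨F, hF, hF'⟩ := hG.ball x₀ D
    refine ⟨F, by omega, fun w _ h2 => hF' w ?_⟩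
    have := hG.comm x₀ w
    omega
  · obtain ⟨z, hz1, hz2⟩ := hG.mid x x₀ l hl
    obtain ⟨F, hF, hF'⟩ := hG.ball z (D + k)
    refine ⟨F, by omega, fun w h1 h2 => hF' w ?_⟩
    have h3 := hG.slim x x₀ z w (by omega)
    have h4 := hG.comm x₀ w
    omega

private theorem Geo_t4b (hx l D : ℕ) :
    ((Finset.range (l + 1)).filter (fun t => hx + t ≤ l ∧ l ≤ hx + D + t)).card ≤ D + 1 := by
  have h1 : (Finset.range (l + 1)).filter (fun t => hx + t ≤ l ∧ l ≤ hx + D + t) ⊆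
      Finset.Icc (l - hx - D) (l - hx) := by
    intro t ht
    rw [Finset.mem_filter] at ht
    rw [Finset.mem_Icc]
    omega
  refine (Finset.card_le_card h1).trans ?_
  rw [Nat.card_Icc]
  omega

private theorem Geo_t3 {X : Type w} {d : X → X → ℕ} {k : ℕ} {N : ℕ → ℕ} (hG : GSp d k N)
    (x₀ x y : X) (n : ℕ) (hn : d x y ≤ n) :
    ∃ l ≤ n, (∃ w, (d x w ≤ l ∧ d w x₀ + l ≤ d x x₀ + (3 * k + 1)) ∧
      (d y w ≤ n - l ∧ d w x₀ + (n - l) ≤ d y x₀ + (3 * k + 1))) ∨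
      (∃ t : ℕ, (d x x₀ + t ≤ l ∧ l ≤ d x x₀ + (3 * k + 1) + t) ∧
      (d y x₀ + t ≤ n - l ∧ n - l ≤ d y x₀ + (3 * k + 1) + t)) := by
  have hxy1 : d x x₀ ≤ d x y + d y x₀ := hG.tri x x₀ y
  have hxy2 : d y x₀ ≤ d x y + d x x₀ := by
    have h1 := hG.tri y x₀ x
    have h2 := hG.comm x y
    omega
  obtain ⟨l, hl⟩ : ∃ l : ℕ, l = (n + d x x₀ - d y x₀) / 2 := ⟨_, rfl⟩
  have hln : l ≤ n := by omega
  refine ⟨l, hln, ?_⟩
  rcases Nat.lt_or_ge (2 * k) (n - d x y) with he | he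
  · -- case B
    rcases Nat.lt_or_ge (d x x₀ + k) l with hb | hb
    · right
      refine ⟨l - k - d x x₀, ⟨by omega, by omega⟩, ⟨by omega, by omega⟩⟩
    · left
      have hk : k ≤ l := by omega
      obtain ⟨w, hw1, hw2⟩ := hG.mid x x₀ (l - k) (by omega)
      refine ⟨w, ⟨by omega, by omega⟩, ⟨?_, by omega⟩⟩
      have h3 := hG.slim x x₀ w y (by omega)
      have h4 := hG.comm x₀ y
      have h5 := hG.comm y w
      omega
  · -- case A
    left
    rcases Nat.lt_or_ge (d x y) l with hb | hb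
    · refine ⟨y, ⟨by omega, by omega⟩, ⟨?_, by omega⟩⟩
      rw [hG.self]
      omega
    · obtain ⟨w, hw1, hw2⟩ := hG.mid x y l hb
      have h3 := hG.slim x y w x₀ (by omega)
      have h5 := hG.comm y w
      refine ⟨w, ⟨by omega, by omega⟩, ⟨by omega, by omega⟩⟩

theorem exists_ts {X : Type w} [Nonempty X] {d : X → X → ℕ} {k : ℕ} {N : ℕ → ℕ} (hG : GSp d k N) :
    ∃ (T : X → ℕ → Finset (X ⊕ ℕ)) (h : X → ℤ) (g : X ⊕ ℕ → ℤ) (D NT : ℕ), TS d T h g D NT := by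
  classical
  obtain ⟨x₀⟩ := ‹Nonempty X›
  choose F hF hF' using hG.ball
  let D := 3 * k + 1
  let A : X → ℕ → Finset X := fun x l =>
    (F x l).filter (fun w => d x w ≤ l ∧ d w x₀ + l ≤ d x x₀ + D)
  let B : X → ℕ → Finset ℕ := fun x l =>
    (Finset.range (l + 1)).filter (fun t => d x x₀ + t ≤ l ∧ l ≤ d x x₀ + D + t)
  have hA : ∀ x l w, w ∈ A x l ↔ d x w ≤ l ∧ d w x₀ + l ≤ d x x₀ + D := by
    intro x l w
    rw [Finset.mem_filter]
    exact ⟨fun h => h.2, fun h => ⟨hF' x l w h.1, h⟩⟩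
  have hB : ∀ x l t, t ∈ B x l ↔ d x x₀ + t ≤ l ∧ l ≤ d x x₀ + D + t := by
    intro x l t
    rw [Finset.mem_filter, Finset.mem_range]
    exact ⟨fun h => h.2, fun h => ⟨by omega, h⟩⟩
  refine ⟨fun x l => (A x l).disjSum (B x l), fun x => (d x x₀ : ℤ),
    Sum.elim (fun w => (d w x₀ : ℤ)) (fun t => -(t : ℤ)), D, N (D + k) + N D + (D + 1), ?_⟩
  constructor
  · intro x y l m p hp hq
    rcases p with w | t
    · rw [Finset.inl_mem_disjSum, hA] at hp hq
      have h1 := hG.tri x y w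
      have h2 := hG.comm y w
      omega
    · rw [Finset.inr_mem_disjSum, hB] at hp hq
      have h1 := hG.tri x y x₀
      have h2 := hG.comm y x₀
      omega
  · intro x l p hp
    rcases p with w | t
    · rw [Finset.inl_mem_disjSum, hA] at hp
      have h1 := hG.tri x x₀ w
      simp only [Sum.elim_inl]
      omega
    · rw [Finset.inr_mem_disjSum, hB] at hp
      simp only [Sum.elim_inr]
      omega
  · intro x y n hn
    obtain ⟨l, hl, hw | ht⟩ := Geo_t3 hG x₀ x y n hn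
    · obtain ⟨w, h1, h2⟩ := hw
      exact ⟨l, hl, Sum.inl w, Finset.inl_mem_disjSum.2 ((hA _ _ _).2 h1),
        Finset.inl_mem_disjSum.2 ((hA _ _ _).2 h2)⟩
    · obtain ⟨t, h1, h2⟩ := ht
      exact ⟨l, hl, Sum.inr t, Finset.inr_mem_disjSum.2 ((hB _ _ _).2 h1),
        Finset.inr_mem_disjSum.2 ((hB _ _ _).2 h2)⟩
  · intro x l
    obtain ⟨G, hG1, hG2⟩ := Geo_t4a hG x₀ x l D
    have h1 : (A x l).card ≤ N (D + k) + N D :=
      (Finset.card_le_card (fun w hw => hG2 w ((hA x l w).1 hw).1 ((hA x l w).1 hw).2)).trans hG1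
    have h2 : (B x l).card ≤ D + 1 := Geo_t4b (d x x₀) l D
    simp only [Finset.card_disjSum]
    omega

end Pool.Agent.H26.HB
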