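import Pool.Agent.H73.HVN.Conv

/-!
# Module Inv: the parameters `q` and `q⁻¹`

If `q' i ∈ {q i, (q i)⁻¹}` for all `i` (both admissible) then `HA cs q'` is unitarily equivalent to `HA cs q`.

PLAN. Let `e i = 1` if `q' i = q i` and `e i = -1` else (so `q' i = (q i)⁻¹`); `pp q' i = e i * pp q i`
(`√(q⁻¹) = (√q)⁻¹`). If `IsConj (s_i) (s_j)` then `e i = e j` (both `q`, `q'` are constant on classes).
There is a homomorphism `ε : W →* ℤˣ` with `ε (s_i) = e i`: `cs.lift ⟨e, _⟩` needs `(e i * e j) ^ M i j = 1`: if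
`e i = e j` clear; if `M i j` is even clear; if `M i j = 2 k + 1` then
`(s_i s_j)^k s_i (s_i s_j)^(-k) = (s_i s_j)^(2k) s_i = (s_i s_j)⁻¹ s_i = s_j` (`s_i (s_j s_i)^k = (s_i s_j)^k s_i`,
`cs.simple_mul_simple_pow`), so `s_i, s_j` are conjugate and `e i = e j`.
`U = wop (Equiv.refl W) (fun w => (ε w : ℂ))`: `(U f) w = ε w * f w`, `U * U = 1`, `⟪U f, g⟫ = ⟪f, U g⟫`, `‖U f‖ = ‖f‖`,
`U * TT cs q i * U = (e i : ℂ) • TT cs q' i` (`TT_apply`: `ε w ε (s_i w) = e i`).
Hence `x ∈ HA cs q' ↔ U * x * U ∈ HA cs q` (`HA = vN (range TT)` is the double centralizer; `y` commutes with all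
`TT cs q' i` iff `U * y * U` commutes with all `TT cs q i`; or use `mem_HA_iff` with the `RR`, for which the
same formula `U * RR cs q i * U = (e i : ℂ) • RR cs q' i` holds).
Transport: for `Φ : HA cs q → HA cs q` put `Φ' x = U * Φ (U * x * U) * U`. `CBNormLE`: apply the bound of `Φ` to
`U X_ij U` and the vectors `U ξ_j`, `U η_i` (norms unchanged). Normal functionals: `φ'(x) = φ (U x U)` is normal on the
other algebra (vectors `U ξ_k`, `U η_k`). Range of `Φ'`: image of the range of `Φ` under a linear map.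
-/

set_option autoImplicit false

open scoped ComplexOrder InnerProductSpace
open Filter Topology

namespace Pool.Agent.H26.HB

open Pool.Agent.H73.HVN

universe u v

variable {B : Type v} {W : Type u} [Group W] {M : CoxeterMatrix B} (cs : CoxeterSystem M W)

private theorem Inv_conj_of_odd {i j : B} {k : ℕ} (h : M i j = 2 * k + 1) :
    IsConj (cs.simple i) (cs.simple j) := by
  rw [isConj_iff]
  refine ⟨(cs.simple i * cs.simple j) ^ k, ?_⟩
  have h1 : (cs.simple i * cs.simple j) ^ (2 * k + 1) = 1 := by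
    rw [← h]
    exact cs.simple_mul_simple_pow i j
  have h2 : cs.simple i * (cs.simple i * cs.simple j)⁻¹ * (cs.simple i)⁻¹ =
      cs.simple i * cs.simple j := by
    rw [mul_inv_rev, cs.inv_simple, cs.inv_simple]
    rw [mul_assoc, mul_assoc, cs.simple_mul_simple_self, mul_one]
  have h3 : cs.simple i * ((cs.simple i * cs.simple j) ^ k)⁻¹ * (cs.simple i)⁻¹ =
      (cs.simple i * cs.simple j) ^ k := by
    rw [← inv_pow, ← conj_pow, h2]
  have h4 : cs.simple i * ((cs.simple i * cs.simple j) ^ k)⁻¹ =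
      (cs.simple i * cs.simple j) ^ k * cs.simple i := by
    rwa [mul_inv_eq_iff_eq_mul] at h3
  rw [mul_assoc, h4, ← mul_assoc, ← pow_add, ← two_mul]
  have h5 : (cs.simple i * cs.simple j) ^ (2 * k) = (cs.simple i * cs.simple j)⁻¹ := by
    rw [eq_inv_iff_mul_eq_one, ← pow_succ]
    exact h1
  rw [h5, mul_inv_rev, cs.inv_simple, cs.inv_simple, mul_assoc, cs.simple_mul_simple_self, mul_one]

/-- the sign homomorphism -/
private theorem Inv_exists_sign {q q' : B → ℝ} (hq : Admissible cs q) (hq' : Admissible cs q') :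
    ∃ ε : W →* ℤˣ, ∀ i, (q' i = q i → ε (cs.simple i) = 1) ∧
      (q' i ≠ q i → ε (cs.simple i) = -1) := by
  classical
  let e : B → ℤˣ := fun i => if q' i = q i then 1 else -1
  have he : M.IsLiftable e := by
    intro i j
    by_cases hij : e i = e j
    · rw [hij, Int.units_mul_self, one_pow]
    · have h1 : e i * e j = -1 := by
        rcases Int.units_eq_one_or (e i) with h | h <;>
          rcases Int.units_eq_one_or (e j) with h' | h' <;> rw [h, h'] at hij ⊢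
        · exact absurd rfl hij
        · rfl
        · rfl
        · exact absurd rfl hij
      rw [h1]
      rcases Nat.even_or_odd (M i j) with h2 | ⟨k, hk⟩
      · exact h2.neg_one_pow
      · exfalso
        apply hij
        have h3 := Inv_conj_of_odd cs hk
        have h4 := hq.2 i j h3
        have h5 := hq'.2 i j h3
        simp only [e, h4, h5]
  refine ⟨cs.lift ⟨e, he⟩, fun i => ⟨fun h => ?_, fun h => ?_⟩⟩
  · rw [cs.lift_apply_simple he]
    exact if_pos h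
  · rw [cs.lift_apply_simple he]
    exact if_neg h

private theorem Inv_pp_inv {q : ℝ} (hq : 0 < q) :
    √(q⁻¹) - (√(q⁻¹))⁻¹ = -(√q - (√q)⁻¹) := by
  rw [Real.sqrt_inv, inv_inv]
  ring

/-- a self-adjoint unitary which conjugates the right Hecke operators -/
private theorem Inv_exists_U {q q' : B → ℝ} (hq : Admissible cs q) (hq' : Admissible cs q')
    (h : ∀ i, q' i = q i ∨ q' i = (q i)⁻¹) :
    ∃ (U : L2 W →L[ℂ] L2 W) (c : B → ℂ), (∀ f, U (U f) = f) ∧
      (∀ f g, ⟪U f, g⟫_ℂ = ⟪f, U g⟫_ℂ) ∧ (∀ i, c i ≠ 0) ∧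
      ∀ i, U * RR cs q i * U = c i • RR cs q' i := by
  obtain ⟨ε, hε⟩ := Inv_exists_sign cs hq hq'
  let u : W → ℂ := fun w => (((ε w : ℤˣ) : ℤ) : ℂ)
  have hu1 : ∀ w, u w * u w = 1 := by
    intro w
    have h1 : ((ε w : ℤˣ) : ℤ) * ((ε w : ℤˣ) : ℤ) = 1 := by
      rw [← Units.val_mul, Int.units_mul_self, Units.val_one]
    show (((ε w : ℤˣ) : ℤ) : ℂ) * (((ε w : ℤˣ) : ℤ) : ℂ) = 1
    rw [← Int.cast_mul, h1, Int.cast_one]
  have hun : ∀ w, ‖u w‖ ≤ 1 := by
    intro w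
    have h1 : ‖u w‖ * ‖u w‖ = 1 := by rw [← norm_mul, hu1, norm_one]
    nlinarith [norm_nonneg (u w)]
  have hus : ∀ w, (starRingEnd ℂ) (u w) = u w := fun w => map_intCast (starRingEnd ℂ) _
  have hum : ∀ a b, u (a * b) = u a * u b := by
    intro a b
    show (((ε (a * b) : ℤˣ) : ℤ) : ℂ) = _
    rw [map_mul, Units.val_mul, Int.cast_mul]
  let U : L2 W →L[ℂ] L2 W := wop (Equiv.refl W) u
  have hU : ∀ f w, U f w = u w * f w := fun f w => wop_apply (Equiv.refl W) u hun f w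
  refine ⟨U, fun i => u (cs.simple i), ?_, ?_, ?_, ?_⟩
  · intro f
    apply lp.ext
    funext w
    rw [hU, hU, ← mul_assoc, hu1, one_mul]
  · intro f g
    rw [lp.inner_eq_tsum, lp.inner_eq_tsum]
    refine tsum_congr fun x => ?_
    rw [hU, hU]
    simp only [RCLike.inner_apply, map_mul, hus]
    ring
  · intro i hi
    have h1 := hu1 (cs.simple i)
    have h2 : u (cs.simple i) = 0 := hi
    rw [h2, zero_mul] at h1
    exact zero_ne_one h1
  · intro i
    refine ContinuousLinearMap.ext fun f => ?_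
    apply lp.ext
    funext w
    have e1 : (U * RR cs q i * U) f = U (RR cs q i (U f)) := rfl
    have e2 : (u (cs.simple i) • RR cs q' i) f = u (cs.simple i) • RR cs q' i f := rfl
    rw [e1, e2, hU, RR_apply, hU, hU, lp.coeFn_smul, Pi.smul_apply, smul_eq_mul, RR_apply, hum]
    have h3 : pr cs q i w = u (cs.simple i) * pr cs q' i w := by
      unfold pr
      split_ifs with hd
      · have h4 : ((pp q i : ℝ) : ℂ) = u (cs.simple i) * ((pp q' i : ℝ) : ℂ) := by
          by_cases h5 : q' i = q i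
          · have h6 : u (cs.simple i) = 1 := by
              show (((ε (cs.simple i) : ℤˣ) : ℤ) : ℂ) = 1
              rw [(hε i).1 h5]
              simp
            rw [h6, one_mul]
            unfold pp
            rw [h5]
          · have h6 : u (cs.simple i) = -1 := by
              show (((ε (cs.simple i) : ℤˣ) : ℤ) : ℂ) = -1
              rw [(hε i).2 h5]
              simp
            have h7 := (h i).resolve_left h5
            rw [h6]
            unfold pp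
            rw [h7, Inv_pp_inv (hq.1 i)]
            push_cast
            ring
        exact h4
      · rw [mul_zero]
    have h8 := hu1 w
    calc u w * (u w * u (cs.simple i) * f (w * cs.simple i) + pr cs q i w * (u w * f w))
        = (u w * u w) * (u (cs.simple i) * f (w * cs.simple i) + pr cs q i w * f w) := by ring
      _ = u (cs.simple i) * (f (w * cs.simple i) + pr cs q' i w * f w) := by
          rw [h8, h3]
          ring

private theorem Inv_mem {q q' : B → ℝ} (hq : Admissible cs q) (hq' : Admissible cs q')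
    {U : L2 W →L[ℂ] L2 W} {c : B → ℂ} (hU : ∀ f, U (U f) = f)
    (hR : ∀ i, U * RR cs q i * U = c i • RR cs q' i) {x : L2 W →L[ℂ] L2 W}
    (hx : x ∈ HA cs q') : U * x * U ∈ HA cs q := by
  have hUU : U * U = 1 := ContinuousLinearMap.ext hU
  rw [mem_HA_iff cs hq]
  intro i
  have h1 := (mem_HA_iff cs hq' x).1 hx i
  have h2 : RR cs q i * U = U * (c i • RR cs q' i) := by
    rw [← hR i]
    simp only [← mul_assoc, hUU, one_mul]
  have h3 : U * RR cs q i = (c i • RR cs q' i) * U := by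
    rw [← hR i]
    simp only [mul_assoc, hUU, mul_one]
  calc U * x * U * RR cs q i = U * x * (U * RR cs q i) := by simp only [mul_assoc]
    _ = U * (x * (c i • RR cs q' i)) * U := by rw [h3]; simp only [mul_assoc]
    _ = U * ((c i • RR cs q' i) * x) * U := by
        rw [mul_smul_comm, h1, smul_mul_assoc]
    _ = (U * (c i • RR cs q' i)) * x * U := by simp only [mul_assoc]
    _ = RR cs q i * (U * x * U) := by rw [← h2]; simp only [mul_assoc]

section General

variable {H : Type u} [NormedAddCommGroup H] [InnerProductSpace ℂ H]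
  {𝓜 𝓝' : Subalgebra ℂ (H →L[ℂ] H)} {U : H →L[ℂ] H}

private theorem Inv_norm (hU : ∀ f, U (U f) = f) (hs : ∀ f g, ⟪U f, g⟫_ℂ = ⟪f, U g⟫_ℂ) (f : H) :
    ‖U f‖ = ‖f‖ := by
  have h1 : ⟪U f, U f⟫_ℂ = ⟪f, f⟫_ℂ := by rw [hs, hU]
  have h2 : ‖U f‖ ^ 2 = ‖f‖ ^ 2 := by
    have h3 := congrArg Complex.re h1
    rw [inner_self_eq_norm_sq_to_K, inner_self_eq_norm_sq_to_K] at h3
    norm_cast at h3
  exact (pow_left_inj₀ (norm_nonneg _) (norm_nonneg _) two_ne_zero).1 h2

/-- conjugation -/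
private def Inv_th (U : H →L[ℂ] H) (h : ∀ x ∈ 𝓜, U * x * U ∈ 𝓝') : 𝓜 →ₗ[ℂ] 𝓝' where
  toFun x := ⟨U * x.1 * U, h x.1 x.2⟩
  map_add' x y := by
    apply Subtype.ext
    show U * (x.1 + y.1) * U = U * x.1 * U + U * y.1 * U
    rw [mul_add, add_mul]
  map_smul' a x := by
    apply Subtype.ext
    show U * (a • x.1) * U = a • (U * x.1 * U)
    rw [mul_smul_comm, smul_mul_assoc]

private theorem Inv_normal (hU : ∀ f, U (U f) = f) (hs : ∀ f g, ⟪U f, g⟫_ℂ = ⟪f, U g⟫_ℂ)
    (h : ∀ x ∈ 𝓜, U * x * U ∈ 𝓝') {φ : 𝓝' → ℂ} (hφ : IsNormalFunctional 𝓝' φ) :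
    IsNormalFunctional 𝓜 (fun x => φ (Inv_th U h x)) := by
  obtain ⟨ι, ξ, η, h1, h2, h3⟩ := hφ
  refine ⟨ι, fun i => U (ξ i), fun i => U (η i), ?_, ?_, ?_⟩
  · simpa only [Inv_norm hU hs] using h1
  · simpa only [Inv_norm hU hs] using h2
  · intro x
    show φ (Inv_th U h x) = _
    rw [h3]
    refine tsum_congr fun i => ?_
    rw [hs]
    rfl

private theorem Inv_cb (hU : ∀ f, U (U f) = f) (hs : ∀ f g, ⟪U f, g⟫_ℂ = ⟪f, U g⟫_ℂ)
    (h : ∀ x ∈ 𝓜, U * x * U ∈ 𝓝') (h' : ∀ x ∈ 𝓝', U * x * U ∈ 𝓜) {Φ : 𝓜 →ₗ[ℂ] 𝓜} {C : ℝ}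
    (hΦ : CBNormLE 𝓜 Φ C) : CBNormLE 𝓝' (Inv_th U h ∘ₗ Φ ∘ₗ Inv_th U h') C := by
  intro n X K hX ξ η
  have h1 := hΦ n (fun i j => Inv_th U h' (X i j)) K (by
    intro ξ η
    have h2 := hX (fun j => U (ξ j)) (fun i => U (η i))
    simp only [Inv_norm hU hs] at h2
    have h3 : (∑ i, ∑ j, ⟪η i, ((Inv_th U h' (X i j) : 𝓜) : H →L[ℂ] H) (ξ j)⟫_ℂ) =
        ∑ i, ∑ j, ⟪U (η i), (X i j : H →L[ℂ] H) (U (ξ j))⟫_ℂ := by
      refine Finset.sum_congr rfl fun i _ => Finset.sum_congr rfl fun j _ => ?_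
      rw [hs]
      rfl
    rw [h3]
    exact h2) (fun j => U (ξ j)) (fun i => U (η i))
  simp only [Inv_norm hU hs] at h1
  have h3 : (∑ i, ∑ j, ⟪η i, (((Inv_th U h ∘ₗ Φ ∘ₗ Inv_th U h') (X i j) : 𝓝') :
      H →L[ℂ] H) (ξ j)⟫_ℂ) =
      ∑ i, ∑ j, ⟪U (η i), (Φ (Inv_th U h' (X i j)) : H →L[ℂ] H) (U (ξ j))⟫_ℂ := by
    refine Finset.sum_congr rfl fun i _ => Finset.sum_congr rfl fun j _ => ?_
    rw [hs]
    rfl
  rw [h3]
  exact h1

private theorem Inv_cbap (hU : ∀ f, U (U f) = f) (hs : ∀ f g, ⟪U f, g⟫_ℂ = ⟪f, U g⟫_ℂ)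
    (h : ∀ x ∈ 𝓜, U * x * U ∈ 𝓝') (h' : ∀ x ∈ 𝓝', U * x * U ∈ 𝓜) {C : ℝ}
    (hC : HasWeakStarCBAP 𝓜 C) : HasWeakStarCBAP 𝓝' C := by
  obtain ⟨ι, i1, i2, i3, Φ, h1, h2⟩ := hC
  refine ⟨ι, i1, i2, i3, fun i => Inv_th U h ∘ₗ Φ i ∘ₗ Inv_th U h', fun i => ⟨?_, ?_, ?_⟩, ?_⟩
  · intro φ hφ
    exact Inv_normal hU hs h' ((h1 i).1 _ (Inv_normal hU hs h hφ))
  · have := (h1 i).2.1
    have h3 : LinearMap.range (Inv_th U h ∘ₗ Φ i ∘ₗ Inv_th U h') ≤
        (LinearMap.range (Φ i)).map (Inv_th U h) := by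
      rintro _ ⟨x, rfl⟩
      exact ⟨_, ⟨Inv_th U h' x, rfl⟩, rfl⟩
    exact Submodule.finiteDimensional_of_le h3
  · exact Inv_cb hU hs h h' (h1 i).2.2
  · intro x φ hφ
    have h3 := h2 (Inv_th U h' x) _ (Inv_normal hU hs h hφ)
    have h4 : Inv_th U h (Inv_th U h' x) = x := by
      apply Subtype.ext
      have hUU : U * U = 1 := ContinuousLinearMap.ext hU
      show U * (U * x.1 * U) * U = x.1
      rw [← mul_assoc, ← mul_assoc, hUU, one_mul, mul_assoc, hUU, mul_one]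
    simp only [h4] at h3
    exact h3

end General

theorem cbap_inv {q q' : B → ℝ} (hq : Admissible cs q) (hq' : Admissible cs q')
    (h : ∀ i, q' i = q i ∨ q' i = (q i)⁻¹) {C : ℝ} (hC : HasWeakStarCBAP (HA cs q) C) :
    HasWeakStarCBAP (HA cs q') C := by
  obtain ⟨U, c, hU, hs, hc, hR⟩ := Inv_exists_U cs hq hq' h
  have hUU : U * U = 1 := ContinuousLinearMap.ext hU
  have hR' : ∀ i, U * RR cs q' i * U = (c i)⁻¹ • RR cs q i := by
    intro i
    have h1 : RR cs q' i = (c i)⁻¹ • (U * RR cs q i * U) := by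
      rw [hR i, smul_smul, inv_mul_cancel₀ (hc i), one_smul]
    rw [h1, mul_smul_comm, smul_mul_assoc]
    congr 1
    rw [← mul_assoc, ← mul_assoc, hUU, one_mul, mul_assoc, hUU, mul_one]
  exact Inv_cbap hU hs (fun x hx => Inv_mem cs hq' hq hU hR' hx)
    (fun x hx => Inv_mem cs hq hq' hU hR hx) hC

end Pool.Agent.H26.HB
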