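import Pool.Agent.H26.HB.JOp

/-!
# Module JComm: `J_c† J_d` commutes with the Hecke–von Neumann algebra; the formula for `J_c (x δ_w)`

PLAN.
* `adj_JJ_comm`: let `A = (adjoint (JJ c)) ∘ (JJ d)`. It suffices that `A` commutes with all `TT cs q i`: then
  `A ∈ Set.centralizer (range TT)` and `x ∈ HA = vN (range TT)` is in the centralizer of that
  (`Subalgebra.mem_centralizer_iff`, `Set.mem_centralizer_iff`, see `mem_HA_iff` in `Pool/Agent/H73/HVN/Comm.lean`).
  By `ext_δ` and coefficients (`inner_δ`) it suffices: `⟪δ u, A (T_i (δ v))⟫ = ⟪T_i (δ u), A (δ v)⟫` for all `u, v`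
  (`TT_adj`), i.e. `⟪J_c (δ u), J_d (T_i (δ v))⟫ = ⟪J_c (T_i (δ u)), J_d (δ v)⟫`. With
  `φ = J_c (δ u)`, `ψ = J_d (δ v)`, functions on `X` of finite support (`JJ_apply`: the supports are in `fib c u`,
  `fib d v`) and real values, both sides are by `JJ_TT` `(√n)⁻¹ ∑_e ∑_{e' ∈ nb i e}` of `conj (φ e) ψ(e')`, resp.
  `conj (φ e') ψ(e)` (`lp.inner_eq_tsum`; the `tsum` are finite sums, `tsum_eq_sum`), and the relation
  `e' ∈ nb i e` is symmetric (`hc.nb_symm`): `Finset.sum_comm'` over a finite set containing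
  `fib c u`, `fib d v` and their neighbours.
* `JJ_word`: let `R` be as in `exists_RR_word`: `R (δ 1) = δ w`, `R` commutes with every `x ∈ HA` (`mem_HA_iff`), in
  particular with `TT cs q i`. Put `A = J_c ∘ R - (√κ w)⁻¹ • ∑ c' ∈ fib c w, J_{c'} : ℓ²(W) → ℓ²(X)`.
  `A (δ 1) = 0`: `J_c (δ w)` has the value `(√κ w)⁻¹` at the `d` with `dl d c = w` and `0` elsewhere, and
  `J_{c'} (δ 1) = δ c'`. By `JJ_TT`: `A (T_i f) e = (√n)⁻¹ ∑ e' ∈ nb i e, A f e'`. So `A (δ v) = 0` for all `v` by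
  induction over `v` (`cs.simple_induction_left`; `T_i (δ v) = δ (s_i v) + pl • δ v`, `TT_δ`). So `A = 0` (`ext`),
  and `J_c (x (δ w)) = J_c (x (R (δ 1))) = J_c (R (x (δ 1)))`.
-/

set_option autoImplicit false

open scoped ComplexOrder InnerProductSpace
open Filter Topology

namespace Pool.Agent.H26.HB

open Pool.Agent.H73.HVN

universe u v w

variable {B : Type v} {W : Type u} [Group W] {M : CoxeterMatrix B} {cs : CoxeterSystem M W}
  {X : Type w} {dl : X → X → W} {n : B → ℕ} {nb : B → X → Finset X} {fib : X → W → Finset X}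
  {κ : W → ℕ}

/-- a double sum over the panels -/
private theorem JComm_sum (hc : Cnt cs dl n nb fib κ) (i : B) (φ ψ : X → ℂ) (E F : Finset X)
    (hφ : ∀ e, e ∉ E → φ e = 0) (hψ : ∀ e, e ∉ F → ψ e = 0) :
    ∑ e ∈ E, φ e * ∑ e' ∈ nb i e, ψ e' = ∑ e ∈ F, (∑ e' ∈ nb i e, φ e') * ψ e := by
  classical
  have key : ∀ (g : X → ℂ) (G : Finset X), (∀ e, e ∉ G → g e = 0) → ∀ e,
      ∑ e' ∈ nb i e, g e' = ∑ e' ∈ G, if e' ∈ nb i e then g e' else 0 := by
    intro g G hg e
    rw [← Finset.sum_filter, ← Finset.sum_filter_add_sum_filter_not (nb i e) (fun e' => e' ∈ G)]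
    have h0 : ∑ e' ∈ (nb i e).filter (fun e' => ¬e' ∈ G), g e' = 0 :=
      Finset.sum_eq_zero fun e' he' => hg e' (Finset.mem_filter.1 he').2
    rw [h0, add_zero]
    refine Finset.sum_congr ?_ fun _ _ => rfl
    ext e'
    rw [Finset.mem_filter, Finset.mem_filter, and_comm]
  have h1 : ∀ e ∈ E, φ e * ∑ e' ∈ nb i e, ψ e' =
      ∑ e' ∈ F, if e' ∈ nb i e then φ e * ψ e' else 0 := by
    intro e _
    rw [key ψ F hψ e, Finset.mul_sum]
    refine Finset.sum_congr rfl fun e' _ => ?_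
    rw [mul_ite, mul_zero]
  have h2 : ∀ e ∈ F, (∑ e' ∈ nb i e, φ e') * ψ e =
      ∑ e' ∈ E, if e' ∈ nb i e then φ e' * ψ e else 0 := by
    intro e _
    rw [key φ E hφ e, Finset.sum_mul]
    refine Finset.sum_congr rfl fun e' _ => ?_
    rw [ite_mul, zero_mul]
  rw [Finset.sum_congr rfl h1, Finset.sum_congr rfl h2, Finset.sum_comm]
  refine Finset.sum_congr rfl fun e' _ => Finset.sum_congr rfl fun e _ => ?_
  by_cases h : e' ∈ nb i e
  · rw [if_pos h, if_pos ((hc.nb_symm i e e').1 h)]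
  · rw [if_neg h, if_neg fun h' => h ((hc.nb_symm i e e').2 h')]

private theorem JComm_supp (hc : Cnt cs dl n nb fib κ) (c : X) (u : W) (e : X)
    (he : e ∉ fib c u) : JJ dl κ c (δ u) e = 0 := by
  rw [JJ_apply hc, δ_ne, mul_zero]
  intro h
  exact he ((hc.mem_fib c u e).2 h)

private theorem JComm_basic (hc : Cnt cs dl n nb fib κ) {q : B → ℝ} (hqn : ∀ i, q i = n i)
    (c d : X) (i : B) (u v : W) :
    ⟪JJ dl κ c (δ u), JJ dl κ d (TT cs q i (δ v))⟫_ℂ =
      ⟪JJ dl κ c (TT cs q i (δ u)), JJ dl κ d (δ v)⟫_ℂ := by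
  rw [lp.inner_eq_tsum, lp.inner_eq_tsum]
  rw [tsum_eq_sum (s := fib c u), tsum_eq_sum (s := fib d v)]
  · have h := JComm_sum hc i (fun e => (starRingEnd ℂ) (JJ dl κ c (δ u) e))
      (fun e => JJ dl κ d (δ v) e) (fib c u) (fib d v)
      (fun e he => by simp only [JComm_supp hc c u e he, map_zero])
      (fun e he => JComm_supp hc d v e he)
    have h1 : ∀ e ∈ fib c u, ⟪JJ dl κ c (δ u) e, JJ dl κ d (TT cs q i (δ v)) e⟫_ℂ =
        ((√(n i : ℝ) : ℝ) : ℂ)⁻¹ * ((starRingEnd ℂ) (JJ dl κ c (δ u) e) *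
          ∑ e' ∈ nb i e, JJ dl κ d (δ v) e') := by
      intro e _
      rw [JJ_TT hc hqn, RCLike.inner_apply]
      ring
    have h2 : ∀ e ∈ fib d v, ⟪JJ dl κ c (TT cs q i (δ u)) e, JJ dl κ d (δ v) e⟫_ℂ =
        ((√(n i : ℝ) : ℝ) : ℂ)⁻¹ * ((∑ e' ∈ nb i e, (starRingEnd ℂ) (JJ dl κ c (δ u) e')) *
          JJ dl κ d (δ v) e) := by
      intro e _
      rw [JJ_TT hc hqn, RCLike.inner_apply, map_mul, map_inv₀, Complex.conj_ofReal, map_sum]
      ring
    rw [Finset.sum_congr rfl h1, Finset.sum_congr rfl h2, ← Finset.mul_sum, ← Finset.mul_sum]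
    rw [h]
  · intro e he
    rw [JComm_supp hc d v e he]
    simp
  · intro e he
    rw [JComm_supp hc c u e he]
    simp

private theorem JComm_comm (hc : Cnt cs dl n nb fib κ) {q : B → ℝ} (hqn : ∀ i, q i = n i)
    (c d : X) (i : B) :
    ((ContinuousLinearMap.adjoint (JJ dl κ c)).comp (JJ dl κ d)) * TT cs q i =
      TT cs q i * ((ContinuousLinearMap.adjoint (JJ dl κ c)).comp (JJ dl κ d)) := by
  refine ext_δ fun v => ?_
  refine lp.ext (funext fun u => ?_)
  rw [← inner_δ u, ← inner_δ u, mul_apply_eq_comp, mul_apply_eq_comp]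
  rw [← TT_adj cs q i]
  simp only [ContinuousLinearMap.comp_apply]
  rw [ContinuousLinearMap.adjoint_inner_right, ContinuousLinearMap.adjoint_inner_right]
  exact JComm_basic hc hqn c d i u v

theorem adj_JJ_comm (hc : Cnt cs dl n nb fib κ) {q : B → ℝ} (hqn : ∀ i, q i = n i) (c d : X)
    {x : L2 W →L[ℂ] L2 W} (hx : x ∈ HA cs q) (f g : L2 W) :
    ⟪JJ dl κ c (ContinuousLinearMap.adjoint x f), JJ dl κ d g⟫_ℂ =
      ⟪JJ dl κ c f, JJ dl κ d (x g)⟫_ℂ := by
  set A := (ContinuousLinearMap.adjoint (JJ dl κ c)).comp (JJ dl κ d) with hA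
  have h1 := (Subalgebra.mem_centralizer_iff ℂ).1 hx
  have h2 : A * x = x * A := by
    refine h1 A ?_
    rw [Set.mem_centralizer_iff]
    rintro _ ⟨i, rfl⟩
    exact (JComm_comm hc hqn c d i).symm
  have e1 : ∀ f g : L2 W, ⟪JJ dl κ c f, JJ dl κ d g⟫_ℂ = ⟪f, A g⟫_ℂ := by
    intro f g
    rw [hA, ContinuousLinearMap.comp_apply, ContinuousLinearMap.adjoint_inner_right]
  rw [e1, e1, ContinuousLinearMap.adjoint_inner_left, ← mul_apply_eq_comp, ← h2,
    mul_apply_eq_comp]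

theorem JJ_word (hc : Cnt cs dl n nb fib κ) {q : B → ℝ} (hq : Admissible cs q)
    (hqn : ∀ i, q i = n i) (c : X) (w : W) {x : L2 W →L[ℂ] L2 W} (hx : x ∈ HA cs q) :
    JJ dl κ c (x (δ w)) = ((√(κ w : ℝ) : ℝ) : ℂ)⁻¹ • ∑ c' ∈ fib c w, JJ dl κ c' (x (δ 1)) := by
  classical
  obtain ⟨R, hR1, hR2⟩ := exists_RR_word cs q w
  have hRT : ∀ i, TT cs q i * R = R * TT cs q i := fun i =>
    hR2 (TT cs q i) (fun j => TT_RR_comm cs hq i j)
  have hRx : x * R = R * x := hR2 x ((mem_HA_iff cs hq x).1 hx)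
  set k : ℂ := ((√(κ w : ℝ) : ℝ) : ℂ)⁻¹ with hk
  -- the claim for all vectors
  have key : ∀ f : L2 W, JJ dl κ c (R f) = k • ∑ c' ∈ fib c w, JJ dl κ c' f := by
    set A : L2 W →L[ℂ] L2 X := (JJ dl κ c).comp R - k • ∑ c' ∈ fib c w, JJ dl κ c' with hA
    have hAf : ∀ f e, A f e = JJ dl κ c (R f) e - k * ∑ c' ∈ fib c w, JJ dl κ c' f e := by
      intro f e
      rw [hA]
      simp only [ContinuousLinearMap.sub_apply, ContinuousLinearMap.comp_apply,
        ContinuousLinearMap.smul_apply, lp.coeFn_sub, Pi.sub_apply, lp.coeFn_smul,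
        Pi.smul_apply, smul_eq_mul]
      congr 2
      rw [ContinuousLinearMap.sum_apply, lp.coeFn_sum, Finset.sum_apply]
    have h1 : A (δ 1) = 0 := by
      refine lp.ext (funext fun e => ?_)
      rw [hAf, hR1, JJ_apply hc]
      have h2 : ∑ c' ∈ fib c w, JJ dl κ c' (δ 1) e = if e ∈ fib c w then 1 else 0 := by
        rw [← Finset.sum_ite_eq (fib c w) e (fun _ => (1 : ℂ))]
        refine Finset.sum_congr rfl fun c' _ => ?_
        rw [JJ_one hc]
        by_cases h : e = c'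
        · subst h
          rw [δ_self, if_pos rfl]
        · rw [δ_ne h, if_neg h]
      rw [h2]
      by_cases h : dl e c = w
      · rw [if_pos ((hc.mem_fib c w e).2 h), h, δ_self, ← hk]
        simp
      · rw [if_neg fun h' => h ((hc.mem_fib c w e).1 h'), δ_ne h]
        simp
    have hT : ∀ i f, A f = 0 → A (TT cs q i f) = 0 := by
      intro i f hf
      refine lp.ext (funext fun e => ?_)
      have e1 : R (TT cs q i f) = TT cs q i (R f) := by
        rw [← mul_apply_eq_comp, ← hRT, mul_apply_eq_comp]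
      rw [hAf, e1, JJ_TT hc hqn]
      have e2 : ∑ c' ∈ fib c w, JJ dl κ c' (TT cs q i f) e =
          ((√(n i : ℝ) : ℝ) : ℂ)⁻¹ * ∑ e' ∈ nb i e, ∑ c' ∈ fib c w, JJ dl κ c' f e' := by
        rw [Finset.sum_comm, Finset.mul_sum]
        exact Finset.sum_congr rfl fun c' _ => JJ_TT hc hqn c' i f e
      rw [e2]
      have e3 : ∀ e', JJ dl κ c (R f) e' = k * ∑ c' ∈ fib c w, JJ dl κ c' f e' := by
        intro e'
        have := hAf f e'
        rw [hf] at this
        exact (sub_eq_zero.1 this.symm)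
      have e4 : ∑ e' ∈ nb i e, JJ dl κ c (R f) e' =
          k * ∑ e' ∈ nb i e, ∑ c' ∈ fib c w, JJ dl κ c' f e' := by
        rw [Finset.mul_sum]
        exact Finset.sum_congr rfl fun e' _ => e3 e'
      rw [e4]
      show _ = (0 : ℂ)
      ring
    have hδ : ∀ v : W, A (δ v) = 0 := by
      intro v
      refine cs.simple_induction_left v (p := fun v => A (δ v) = 0) h1 ?_
      intro v i hv
      have h2 := hT i (δ v) hv
      rw [TT_δ, map_add, map_smul, hv, smul_zero, add_zero] at h2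
      exact h2
    have hA0 : ∀ f, A f = 0 := by
      intro f
      have h2 := (hasSum_δ f).mapL A
      have h3 : (fun y => A (f y • (δ y : L2 W))) = fun _ => 0 := by
        funext y
        rw [map_smul, hδ y, smul_zero]
      rw [h3] at h2
      exact h2.unique hasSum_zero
    intro f
    have h2 := hA0 f
    rw [hA] at h2
    simp only [ContinuousLinearMap.sub_apply, ContinuousLinearMap.comp_apply,
      ContinuousLinearMap.smul_apply, ContinuousLinearMap.sum_apply] at h2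
    exact sub_eq_zero.1 h2
  rw [← hR1, ← mul_apply_eq_comp, hRx, mul_apply_eq_comp]
  exact key (x (δ 1))

end Pool.Agent.H26.HB
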