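import Pool.Agent.H26.HB.Cnt
import Pool.Agent.H73.HVN.Coef

/-!
# Module JOp: the isometries `J_c : ℓ²(W) → ℓ²(X)`

`(J_c f)(d) = κ(dl d c)^{-1/2} f(dl d c)`.

PLAN.
* `exists_JJ`: the fibres of `d ↦ dl d c` are the finite sets `fib c w` of cardinality `κ w`, so
  `∑_d ‖κ(dl d c)^{-1/2} f(dl d c)‖² = ∑_w κ w * (κ w)⁻¹ * ‖f w‖² = ‖f‖²`: use `HasSum.sigma`-type lemmas with
  `Equiv.sigmaFiberEquiv (fun d => dl d c)` (or bound every finite partial sum `∑ d ∈ F` by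
  `∑ w ∈ F.image _, ∑ d ∈ fib c w`, `summable_of_sum_le`). Construct the operator with
  `LinearMap.mkContinuous` as `exists_wop` in `Pool/Agent/H73/HVN/OpBasic.lean`. For the inner product formula:
  `norm_map` for all `f` gives it by polarisation (`LinearMap.norm_map_iff_inner_map_map` or
  `LinearIsometry.inner_map_map` after building a `LinearIsometry`).
* `JJ_one`: `dl d c = 1` iff `d = c`, `κ 1 = 1`.
* `JJ_TT`: put `w = dl e c`; `TT_apply`, `hc.sum_nb_up`, `hc.sum_nb_down` with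
  `g w = κ(w)^{-1/2} f(w)`; `κ (s w) = n κ w` if `i` is not a left descent of `w`, else `κ w = n κ (s w)`
  (`κ_up` for `s w`). In the first case the claim is `κ^{-1/2} f(sw) = n^{-1/2} * n * (nκ)^{-1/2} f(sw)`; in the
  second, with `κ = n κ'`: `κ^{-1/2} (f(sw) + (√n - (√n)⁻¹) f(w)) = n^{-1/2} (κ'^{-1/2} f(sw) + (n - 1) κ^{-1/2} f(w))`.
  (`pp q i = √(q i) - (√(q i))⁻¹`.)
-/

set_option autoImplicit false

open scoped ComplexOrder InnerProductSpace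
open Filter Topology

namespace Pool.Agent.H26.HB

open Pool.Agent.H73.HVN

universe u v w

variable {B : Type v} {W : Type u} [Group W] {M : CoxeterMatrix B} {cs : CoxeterSystem M W}
  {X : Type w} {dl : X → X → W} {n : B → ℕ} {nb : B → X → Finset X} {fib : X → W → Finset X}
  {κ : W → ℕ}

private theorem JOp_fib (hc : Cnt cs dl n nb fib κ) (c : X) (w : W) (a : ℝ) :
    HasSum (fun _ : {d // dl d c = w} => a) (κ w * a) := by
  let _ : Fintype {d // dl d c = w} := Fintype.subtype (fib c w) (fun d => hc.mem_fib c w d)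
  have h := hasSum_fintype (fun _ : {d // dl d c = w} => a)
  rwa [Finset.sum_const, nsmul_eq_mul, Finset.card_univ, Fintype.subtype_card, hc.card_fib] at h

private theorem JOp_hasSum (hc : Cnt cs dl n nb fib κ) (c : X) (g : W → ℝ) (hg : ∀ w, 0 ≤ g w)
    {S : ℝ} (h : HasSum (fun w => (κ w : ℝ) * g w) S) : HasSum (fun d => g (dl d c)) S := by
  rw [← (Equiv.sigmaFiberEquiv (fun d => dl d c)).hasSum_iff]
  have hf : ∀ w, HasSum (fun y : {d // dl d c = w} =>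
      ((fun d => g (dl d c)) ∘ (Equiv.sigmaFiberEquiv (fun d => dl d c))) ⟨w, y⟩)
      ((κ w : ℝ) * g w) := by
    intro w
    have h1 := JOp_fib hc c w (g w)
    have h2 : (fun y : {d // dl d c = w} =>
        ((fun d => g (dl d c)) ∘ (Equiv.sigmaFiberEquiv (fun d => dl d c))) ⟨w, y⟩)
        = fun _ => g w := by
      funext y
      change g (dl y.1 c) = g w
      rw [y.2]
    rw [h2]
    exact h1
  refine HasSum.sigma_of_hasSum h hf ?_
  refine (summable_sigma_of_nonneg (fun x => hg _)).2 ⟨fun w => (hf w).summable, ?_⟩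
  have h3 : (fun w => ∑' y : {d // dl d c = w},
      ((fun d => g (dl d c)) ∘ (Equiv.sigmaFiberEquiv (fun d => dl d c))) ⟨w, y⟩)
      = fun w => (κ w : ℝ) * g w := by
    funext w
    exact (hf w).tsum_eq
  have h4 := h.summable
  rw [← h3] at h4
  exact h4

private theorem JOp_normsq (hc : Cnt cs dl n nb fib κ) (c : X) (f : L2 W) :
    HasSum (fun d => ‖((√(κ (dl d c) : ℝ) : ℝ) : ℂ)⁻¹ * f (dl d c)‖ ^ 2) (‖f‖ ^ 2) := by
  have h1 : HasSum (fun w => (κ w : ℝ) * ‖((√(κ w : ℝ) : ℝ) : ℂ)⁻¹ * f w‖ ^ 2) (‖f‖ ^ 2) := by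
    have h2 : (fun w => (κ w : ℝ) * ‖((√(κ w : ℝ) : ℝ) : ℂ)⁻¹ * f w‖ ^ 2)
        = fun w => ‖f w‖ ^ 2 := by
      funext w
      have h3 : (0 : ℝ) < κ w := by exact_mod_cast hc.κ_pos w
      rw [norm_mul, norm_inv, Complex.norm_real, Real.norm_eq_abs, abs_of_nonneg (Real.sqrt_nonneg _),
        mul_pow, inv_pow, Real.sq_sqrt h3.le, ← mul_assoc, mul_inv_cancel₀ h3.ne', one_mul]
    rw [h2]
    exact hasSum_normsq f
  exact JOp_hasSum hc c (fun w => ‖((√(κ w : ℝ) : ℝ) : ℂ)⁻¹ * f w‖ ^ 2) (fun w => sq_nonneg _) h1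

theorem exists_JJ (hc : Cnt cs dl n nb fib κ) (c : X) :
    ∃ A : L2 W →L[ℂ] L2 X, (∀ f d, A f d = ((√(κ (dl d c) : ℝ) : ℝ) : ℂ)⁻¹ * f (dl d c)) ∧
      ∀ f g, ⟪A f, A g⟫_ℂ = ⟪f, g⟫_ℂ := by
  have hmem : ∀ f : L2 W, Memℓp (fun d : X => ((√(κ (dl d c) : ℝ) : ℝ) : ℂ)⁻¹ * f (dl d c)) 2 := by
    intro f
    refine memℓp_gen ?_
    have h := (JOp_normsq hc c f).summable
    simpa only [ENNReal.toReal_ofNat, Real.rpow_ofNat] using h
  let L : L2 W →ₗ[ℂ] L2 X :=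
    { toFun := fun f => ⟨fun d => ((√(κ (dl d c) : ℝ) : ℝ) : ℂ)⁻¹ * f (dl d c), hmem f⟩
      map_add' := by
        intro f g
        apply lp.ext
        funext d
        change ((√(κ (dl d c) : ℝ) : ℝ) : ℂ)⁻¹ * (f + g) (dl d c)
          = ((√(κ (dl d c) : ℝ) : ℝ) : ℂ)⁻¹ * f (dl d c)
            + ((√(κ (dl d c) : ℝ) : ℝ) : ℂ)⁻¹ * g (dl d c)
        rw [lp.coeFn_add, Pi.add_apply, mul_add]
      map_smul' := by
        intro a f
        apply lp.ext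
        funext d
        change ((√(κ (dl d c) : ℝ) : ℝ) : ℂ)⁻¹ * (a • f) (dl d c)
          = a * (((√(κ (dl d c) : ℝ) : ℝ) : ℂ)⁻¹ * f (dl d c))
        rw [lp.coeFn_smul, Pi.smul_apply, smul_eq_mul]
        ring }
  have hL : ∀ f d, L f d = ((√(κ (dl d c) : ℝ) : ℝ) : ℂ)⁻¹ * f (dl d c) := fun f d => rfl
  have hnorm : ∀ f, ‖L f‖ = ‖f‖ := by
    intro f
    have h1 := hasSum_normsq (L f)
    have h2 : (fun d => ‖L f d‖ ^ 2)
        = fun d => ‖((√(κ (dl d c) : ℝ) : ℝ) : ℂ)⁻¹ * f (dl d c)‖ ^ 2 := by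
      funext d
      rw [hL]
    rw [h2] at h1
    have h3 := h1.unique (JOp_normsq hc c f)
    exact (sq_eq_sq₀ (norm_nonneg _) (norm_nonneg _)).1 h3
  let A : L2 W →ₗᵢ[ℂ] L2 X := ⟨L, hnorm⟩
  exact ⟨A.toContinuousLinearMap, fun f d => hL f d, fun f g => A.inner_map_map f g⟩

open Classical in
/-- the isometry `J_c` -/
noncomputable def JJ (dl : X → X → W) (κ : W → ℕ) (c : X) : L2 W →L[ℂ] L2 X :=
  if h : ∃ A : L2 W →L[ℂ] L2 X, (∀ f d, A f d = ((√(κ (dl d c) : ℝ) : ℝ) : ℂ)⁻¹ * f (dl d c)) ∧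
      ∀ f g, ⟪A f, A g⟫_ℂ = ⟪f, g⟫_ℂ then h.choose else 0

theorem JJ_apply (hc : Cnt cs dl n nb fib κ) (c : X) (f : L2 W) (d : X) :
    JJ dl κ c f d = ((√(κ (dl d c) : ℝ) : ℝ) : ℂ)⁻¹ * f (dl d c) := by
  unfold JJ
  rw [dif_pos (exists_JJ hc c)]
  exact (exists_JJ hc c).choose_spec.1 f d

theorem JJ_inner (hc : Cnt cs dl n nb fib κ) (c : X) (f g : L2 W) :
    ⟪JJ dl κ c f, JJ dl κ c g⟫_ℂ = ⟪f, g⟫_ℂ := by
  unfold JJ
  rw [dif_pos (exists_JJ hc c)]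
  exact (exists_JJ hc c).choose_spec.2 f g

theorem JJ_norm (hc : Cnt cs dl n nb fib κ) (c : X) (f : L2 W) : ‖JJ dl κ c f‖ = ‖f‖ := by
  rw [@norm_eq_sqrt_re_inner ℂ _ _ _ _ (JJ dl κ c f), @norm_eq_sqrt_re_inner ℂ _ _ _ _ f,
    JJ_inner hc]

theorem JJ_one (hc : Cnt cs dl n nb fib κ) (c : X) : JJ dl κ c (δ 1) = (δ c : L2 X) := by
  apply lp.ext
  funext d
  rw [JJ_apply hc]
  by_cases h : d = c
  · subst h
    rw [(hc.bd.wd1 d d).2 rfl, δ_self, δ_self, hc.κ_one]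
    simp
  · have h2 : dl d c ≠ 1 := fun h3 => h ((hc.bd.wd1 d c).1 h3)
    rw [δ_ne h, δ_ne h2, mul_zero]

/-- `J_c` intertwines the Hecke operators with the panel sums -/
theorem JJ_TT (hc : Cnt cs dl n nb fib κ) {q : B → ℝ} (hqn : ∀ i, q i = n i) (c : X) (i : B)
    (f : L2 W) (e : X) :
    JJ dl κ c (TT cs q i f) e = ((√(n i : ℝ) : ℝ) : ℂ)⁻¹ * ∑ e' ∈ nb i e, JJ dl κ c f e' := by
  have hn : (0 : ℝ) < n i := by exact_mod_cast hc.npos i
  have hns : ((√(n i : ℝ) : ℝ) : ℂ) ≠ 0 := by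
    exact_mod_cast (Real.sqrt_pos.2 hn).ne'
  have hnn : ((√(n i : ℝ) : ℝ) : ℂ) * ((√(n i : ℝ) : ℝ) : ℂ) = (n i : ℂ) := by
    rw [← Complex.ofReal_mul, Real.mul_self_sqrt hn.le]
    push_cast
    rfl
  obtain ⟨g, hg⟩ : ∃ g : W → ℂ, ∀ w, g w = ((√(κ w : ℝ) : ℝ) : ℂ)⁻¹ * f w :=
    ⟨_, fun _ => rfl⟩
  have hsum : ∑ e' ∈ nb i e, JJ dl κ c f e' = ∑ e' ∈ nb i e, g (dl e' c) :=
    Finset.sum_congr rfl fun e' _ => by rw [JJ_apply hc, hg]
  have hκ : ∀ w, ((√(κ w : ℝ) : ℝ) : ℂ) ≠ 0 := fun w => by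
    have h1 : (0 : ℝ) < κ w := by exact_mod_cast hc.κ_pos w
    exact_mod_cast (Real.sqrt_pos.2 h1).ne'
  have hup : ∀ w, ¬ cs.IsLeftDescent w i → ((√(κ (cs.simple i * w) : ℝ) : ℝ) : ℂ)
      = ((√(n i : ℝ) : ℝ) : ℂ) * ((√(κ w : ℝ) : ℝ) : ℂ) := by
    intro w hw
    rw [hc.κ_up i w hw, ← Complex.ofReal_mul, ← Real.sqrt_mul hn.le]
    push_cast
    rfl
  rw [hsum, JJ_apply hc, TT_apply]
  unfold pl
  by_cases hd : cs.IsLeftDescent (dl e c) i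
  · rw [hc.sum_nb_down i e c g hd, if_pos hd, hg, hg]
    have hd2 : ¬ cs.IsLeftDescent (cs.simple i * dl e c) i := by
      rw [← cs.isLeftDescent_iff_not_isLeftDescent_mul]
      exact hd
    have h1 := hup _ hd2
    rw [cs.simple_mul_simple_cancel_left] at h1
    have hpp : ((pp q i : ℝ) : ℂ)
        = ((√(n i : ℝ) : ℝ) : ℂ) - ((√(n i : ℝ) : ℝ) : ℂ)⁻¹ := by
      unfold pp
      rw [hqn i]
      push_cast
      rfl
    have h2 := hκ (cs.simple i * dl e c)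
    rw [hpp, h1, ← hnn]
    field_simp
  · rw [hc.sum_nb_up i e c g hd, if_neg hd, hg, hup _ hd, ← hnn]
    have h2 := hκ (dl e c)
    field_simp
    ring

end Pool.Agent.H26.HB
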