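import Pool.Agent.H26.HB.KerOK

/-!
# Module KerB: from level sums to bounded kernels

PLAN.
(K1) inclusion-exclusion: for finite sets `A, A' ⊆ U`: `∑ E ∈ U.powerset.filter Nonempty, (-1)^(|E|+1) [E ⊆ A] [E ⊆ A'] =
[A ∩ A' ≠ ∅]` (`Finset.sum_powerset_neg_one_pow_card`: the sum over all `E ⊆ A ∩ A'` of `(-1)^|E|` is `[A ∩ A' = ∅]`).
(K3) multiplicity: by `hAm`, for a nonempty `E` the number of the `l ≤ t` with `E ⊆ A c x l` is at most `D + 1` (all
these `l` are in `[l₀, l₀ + D]`, `l₀` the least), so `(∑_{l ≤ t} [E ⊆ A c x l])² ≤ (D + 1) ∑_{l ≤ t} [E ⊆ A c x l]`; the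
number of `E ⊆ A c x l` is `2 ^ |A c x l| ≤ 2 ^ N0`.
MAIN. Fix `n ≥ 1`, `F`; `U` = union of all `A c x l`, `B c x l`, `c < 2`, `x ∈ F`, `l < n` (`Finset.biUnion`). Index set
`ι = Fin n × {E // E ∈ U.powerset.filter Nonempty} × Fin 2`, `γ = √(2/(n(n+1)))`;
`a x (t, E, c) = γ ∑_{l ∈ range (t+1)} [E ⊆ A c x l]`, `b y (t, E, c) = σ_c γ (-1)^(|E|+1) ∑_{m ∈ range (n-t)} [E ⊆ B c y m]`,
`σ_0 = 1`, `σ_1 = -1`. Then with `G l m = [A 0 x l ∩ B 0 y m ≠ ∅] - [A 1 x l ∩ B 1 y m ≠ ∅]`: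
`∑ a b = γ² ∑_{t < n} ∑_{l ≤ t} ∑_{m < n - t} G l m = γ² ∑_{i < n} (n - i) ∑_{l ≤ i} G l (i - l) = γ² ∑_{i < n} (n - i) [d x y ≤ i]
= fej n (d x y)`: for given `l, m` with `l + m = i < n` the number of `t` with `l ≤ t`, `m < n - t` is `n - i`, and there
is none if `l + m ≥ n` (one may prove the identity `∑_{t < n} ∑_{l ≤ t} ∑_{m < n - t} G l m = ∑_{i < n} (n - i) ∑_{l ≤ i} G l (i - l)`
by induction on `n`: the difference of the left sides for `n + 1` and `n` is `∑_{t ≤ n} ∑_{l ≤ t} G l (n - t) `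
`+ …`, i.e. `∑_{i ≤ n} ∑_{l ≤ i} G l (i - l)`); `∑_{i = d}^{n-1} (n - i) = (n - d)(n - d + 1)/2`.
`∑ a² ≤ γ² ∑_c ∑_{t < n} (D + 1) ∑_{l ≤ t} 2 ^ N0 = γ² 2 (D + 1) 2 ^ N0 n (n + 1) / 2 = 2 (D + 1) 2 ^ N0`; same for `b`
(`∑_{t < n} (n - t) = n (n + 1) / 2`). Use `KerOK.of_fintype`.
-/

set_option autoImplicit false

namespace Pool.Agent.H26.HB

universe u w

variable {X : Type w} {α : Type u}

open Classical in
private theorem KerB_ie (A A' U : Finset α) (hA : A ⊆ U) :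
    ∑ E ∈ U.powerset.filter (fun E => E.Nonempty), (-1 : ℝ) ^ (E.card + 1) *
      ((if E ⊆ A then (1 : ℝ) else 0) * (if E ⊆ A' then (1 : ℝ) else 0)) =
      if (A ∩ A').Nonempty then 1 else 0 := by
  have h1 : ∑ E ∈ U.powerset.filter (fun E => E.Nonempty), (-1 : ℝ) ^ (E.card + 1) *
      ((if E ⊆ A then (1 : ℝ) else 0) * (if E ⊆ A' then (1 : ℝ) else 0)) =
      ∑ E ∈ (A ∩ A').powerset.filter (fun E => E.Nonempty), (-1 : ℝ) ^ (E.card + 1) := by
    symm
    refine Finset.sum_subset_zero_on_sdiff ?_ ?_ ?_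
    · intro E hE
      rw [Finset.mem_filter, Finset.mem_powerset] at hE ⊢
      exact ⟨(hE.1.trans Finset.inter_subset_left).trans hA, hE.2⟩
    · intro E hE
      rw [Finset.mem_sdiff, Finset.mem_filter, Finset.mem_filter, Finset.mem_powerset] at hE
      have h2 : ¬ (E ⊆ A ∧ E ⊆ A') := by
        intro h3
        exact hE.2 ⟨Finset.mem_powerset.2 (Finset.subset_inter h3.1 h3.2), hE.1.2⟩
      by_cases h4 : E ⊆ A
      · have h5 : ¬ E ⊆ A' := fun h6 => h2 ⟨h4, h6⟩
        rw [if_neg h5, mul_zero, mul_zero]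
      · rw [if_neg h4, zero_mul, mul_zero]
    · intro E hE
      rw [Finset.mem_filter, Finset.mem_powerset] at hE
      rw [if_pos (hE.1.trans Finset.inter_subset_left),
        if_pos (hE.1.trans Finset.inter_subset_right), mul_one, mul_one]
  rw [h1]
  have h2 : ∑ E ∈ (A ∩ A').powerset, (-1 : ℝ) ^ E.card = if A ∩ A' = ∅ then 1 else 0 := by
    have := Finset.sum_powerset_neg_one_pow_card (x := A ∩ A')
    have h3 := congrArg (fun z : ℤ => (z : ℝ)) this
    simp only [Int.cast_sum, Int.cast_pow, Int.cast_neg, Int.cast_one, Int.cast_ite,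
      Int.cast_zero] at h3
    exact h3
  have h3 : ∑ E ∈ (A ∩ A').powerset.filter (fun E => E.Nonempty), (-1 : ℝ) ^ (E.card + 1) =
      1 - ∑ E ∈ (A ∩ A').powerset, (-1 : ℝ) ^ E.card := by
    rw [← Finset.sum_filter_add_sum_filter_not (A ∩ A').powerset (fun E => E.Nonempty)]
    have h4 : (A ∩ A').powerset.filter (fun E => ¬ E.Nonempty) = {∅} := by
      ext E
      rw [Finset.mem_filter, Finset.mem_powerset, Finset.mem_singleton,
        Finset.not_nonempty_iff_eq_empty]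
      constructor
      · exact fun h => h.2
      · rintro rfl
        exact ⟨Finset.empty_subset _, rfl⟩
    rw [h4, Finset.sum_singleton, Finset.card_empty, pow_zero]
    have h5 : ∀ E : Finset α, (-1 : ℝ) ^ (E.card + 1) = - (-1 : ℝ) ^ E.card := by
      intro E
      rw [pow_succ]
      ring
    simp only [h5, Finset.sum_neg_distrib]
    ring
  rw [h3, h2]
  by_cases h : A ∩ A' = ∅
  · rw [if_pos h, if_neg (by rw [h]; exact Finset.not_nonempty_empty)]
    ring
  · rw [if_neg h, if_pos (Finset.nonempty_iff_ne_empty.2 h)]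
    ring

private theorem KerB_flip (G : ℕ → ℕ → ℝ) (n : ℕ) :
    ∑ t ∈ Finset.range n, ∑ l ∈ Finset.range (t + 1), G l (n - 1 - t) =
      ∑ i ∈ Finset.range n, ∑ l ∈ Finset.range (i + 1), G l (i - l) := by
  rw [← Finset.sum_range_reflect (fun t => ∑ l ∈ Finset.range (t + 1), G l (n - 1 - t))]
  have h1 : ∀ m ∈ Finset.range n, ∑ l ∈ Finset.range (n - 1 - m + 1), G l (n - 1 - (n - 1 - m)) =
      ∑ l ∈ Finset.range (n - m), G l m := by
    intro m hm
    rw [Finset.mem_range] at hm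
    have e1 : n - 1 - m + 1 = n - m := by omega
    have e2 : n - 1 - (n - 1 - m) = m := by omega
    rw [e1, e2]
  rw [Finset.sum_congr rfl h1, ← Finset.sum_range_diag_flip n (fun m l => G l m)]
  refine Finset.sum_congr rfl fun i _ => ?_
  rw [← Finset.sum_range_reflect]
  refine Finset.sum_congr rfl fun l hl => ?_
  rw [Finset.mem_range] at hl
  have e1 : i + 1 - 1 - l = i - l := by omega
  have e2 : i - (i - l) = l := by omega
  rw [e1, e2]

private theorem KerB_tri (G : ℕ → ℕ → ℝ) (n : ℕ) :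
    ∑ t ∈ Finset.range n, ∑ l ∈ Finset.range (t + 1), ∑ m ∈ Finset.range (n - t), G l m =
      ∑ i ∈ Finset.range n, ((n - i : ℕ) : ℝ) * ∑ l ∈ Finset.range (i + 1), G l (i - l) := by
  induction n with
  | zero => simp
  | succ n ih =>
    have hL : ∑ t ∈ Finset.range (n + 1), ∑ l ∈ Finset.range (t + 1),
        ∑ m ∈ Finset.range (n + 1 - t), G l m =
        (∑ t ∈ Finset.range n, ∑ l ∈ Finset.range (t + 1), ∑ m ∈ Finset.range (n - t), G l m) +
        ∑ t ∈ Finset.range (n + 1), ∑ l ∈ Finset.range (t + 1), G l (n + 1 - 1 - t) := by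
      have h1 : ∀ t ∈ Finset.range (n + 1), ∑ l ∈ Finset.range (t + 1),
          ∑ m ∈ Finset.range (n + 1 - t), G l m =
          (∑ l ∈ Finset.range (t + 1), ∑ m ∈ Finset.range (n - t), G l m) +
            ∑ l ∈ Finset.range (t + 1), G l (n + 1 - 1 - t) := by
        intro t ht
        rw [Finset.mem_range] at ht
        rw [← Finset.sum_add_distrib]
        refine Finset.sum_congr rfl fun l _ => ?_
        have e1 : n + 1 - t = (n - t) + 1 := by omega
        have e2 : n + 1 - 1 - t = n - t := by omega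
        rw [e1, e2, Finset.sum_range_succ]
      rw [Finset.sum_congr rfl h1, Finset.sum_add_distrib]
      congr 1
      rw [Finset.sum_range_succ]
      simp
    rw [hL, ih, KerB_flip]
    have hR : ∀ i ∈ Finset.range (n + 1), ((n + 1 - i : ℕ) : ℝ) *
        ∑ l ∈ Finset.range (i + 1), G l (i - l) =
        ((n - i : ℕ) : ℝ) * (∑ l ∈ Finset.range (i + 1), G l (i - l)) +
          ∑ l ∈ Finset.range (i + 1), G l (i - l) := by
      intro i hi
      rw [Finset.mem_range] at hi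
      have e1 : n + 1 - i = (n - i) + 1 := by omega
      rw [e1]
      push_cast
      ring
    rw [Finset.sum_congr rfl hR, Finset.sum_add_distrib]
    congr 1
    rw [Finset.sum_range_succ]
    simp

private theorem KerB_fej (n d : ℕ) :
    ∑ i ∈ Finset.range n, ((n - i : ℕ) : ℝ) * (if d ≤ i then 1 else 0) =
      ((n - d : ℕ) : ℝ) * (((n - d : ℕ) : ℝ) + 1) / 2 := by
  induction n with
  | zero => simp
  | succ n ih =>
    have hR : ∀ i ∈ Finset.range (n + 1), ((n + 1 - i : ℕ) : ℝ) * (if d ≤ i then (1 : ℝ) else 0) =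
        ((n - i : ℕ) : ℝ) * (if d ≤ i then (1 : ℝ) else 0) + (if d ≤ i then (1 : ℝ) else 0) := by
      intro i hi
      rw [Finset.mem_range] at hi
      have e1 : n + 1 - i = (n - i) + 1 := by omega
      rw [e1]
      push_cast
      ring
    rw [Finset.sum_congr rfl hR, Finset.sum_add_distrib, Finset.sum_range_succ, ih]
    have h1 : ∑ i ∈ Finset.range (n + 1), (if d ≤ i then (1 : ℝ) else 0) = ((n + 1 - d : ℕ) : ℝ) := by
      rw [Finset.sum_boole]
      congr 1
      have : (Finset.range (n + 1)).filter (fun i => d ≤ i) = Finset.Ico d (n + 1) := by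
        ext i
        rw [Finset.mem_filter, Finset.mem_range, Finset.mem_Ico]
        constructor
        · rintro ⟨h1, h2⟩
          exact ⟨h2, h1⟩
        · rintro ⟨h1, h2⟩
          exact ⟨h2, h1⟩
      rw [this, Nat.card_Ico]
    rw [h1]
    by_cases hd : d ≤ n
    · have e1 : n + 1 - d = (n - d) + 1 := by omega
      rw [e1]
      push_cast
      simp
      ring
    · have e1 : n + 1 - d = 0 := by omega
      have e2 : n - d = 0 := by omega
      rw [e1, e2]
      simp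

open Classical in
private theorem KerB_count {A : ℕ → Finset α} {D : ℕ}
    (hm : ∀ l l' a, a ∈ A l → a ∈ A l' → l' ≤ l + D) {E : Finset α} (hE : E.Nonempty) (r : ℕ) :
    ∑ l ∈ Finset.range r, (if E ⊆ A l then (1 : ℝ) else 0) ≤ D + 1 := by
  rw [Finset.sum_boole]
  obtain ⟨a, ha⟩ := hE
  set L := (Finset.range r).filter (fun l => E ⊆ A l) with hL
  rcases L.eq_empty_or_nonempty with h | h
  · rw [h, Finset.card_empty]
    push_cast
    positivity
  · have h0 : L.min' h ∈ L := L.min'_mem h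
    have h1 : L ⊆ Finset.Icc (L.min' h) (L.min' h + D) := by
      intro l hl
      rw [Finset.mem_Icc]
      refine ⟨L.min'_le l hl, ?_⟩
      have h3 := (Finset.mem_filter.1 hl).2
      have h2 := (Finset.mem_filter.1 h0).2
      exact hm _ _ a (h2 ha) (h3 ha)
    have h2 := Finset.card_le_card h1
    rw [Nat.card_Icc] at h2
    have h3 : L.card ≤ D + 1 := by omega
    exact_mod_cast h3

open Classical in
private theorem KerB_sq {A : ℕ → Finset α} {D N0 : ℕ} (hA : ∀ l, (A l).card ≤ N0)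
    (hm : ∀ l l' a, a ∈ A l → a ∈ A l' → l' ≤ l + D) (U : Finset α) (r : ℕ) :
    ∑ E ∈ U.powerset.filter (fun E => E.Nonempty),
      (∑ l ∈ Finset.range r, (if E ⊆ A l then (1 : ℝ) else 0)) ^ 2 ≤ (D + 1) * r * 2 ^ N0 := by
  have h1 : ∀ E ∈ U.powerset.filter (fun E => E.Nonempty),
      (∑ l ∈ Finset.range r, (if E ⊆ A l then (1 : ℝ) else 0)) ^ 2 ≤
        ((D : ℝ) + 1) * ∑ l ∈ Finset.range r, (if E ⊆ A l then (1 : ℝ) else 0) := by
    intro E hE
    rw [Finset.mem_filter] at hE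
    have h2 := KerB_count hm hE.2 r
    have h3 : 0 ≤ ∑ l ∈ Finset.range r, (if E ⊆ A l then (1 : ℝ) else 0) :=
      Finset.sum_nonneg fun l _ => by split_ifs <;> norm_num
    rw [sq]
    exact mul_le_mul_of_nonneg_right h2 h3
  refine (Finset.sum_le_sum h1).trans ?_
  rw [← Finset.mul_sum, Finset.sum_comm, mul_assoc]
  refine mul_le_mul_of_nonneg_left ?_ (by positivity)
  have h2 : ∀ l ∈ Finset.range r, ∑ E ∈ U.powerset.filter (fun E => E.Nonempty),
      (if E ⊆ A l then (1 : ℝ) else 0) ≤ 2 ^ N0 := by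
    intro l _
    rw [Finset.sum_boole]
    have h3 : ((U.powerset.filter (fun E => E.Nonempty)).filter (fun E => E ⊆ A l)).card ≤
        (A l).powerset.card := by
      refine Finset.card_le_card fun E hE => ?_
      rw [Finset.mem_filter] at hE
      exact Finset.mem_powerset.2 hE.2
    rw [Finset.card_powerset] at h3
    have h4 : 2 ^ (A l).card ≤ 2 ^ N0 := Nat.pow_le_pow_right (by norm_num) (hA l)
    exact_mod_cast h3.trans h4
  refine (Finset.sum_le_sum h2).trans ?_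
  rw [Finset.sum_const, Finset.card_range, nsmul_eq_mul]

private theorem KerB_gauss (n : ℕ) : ∑ t ∈ Finset.range n, ((t + 1 : ℕ) : ℝ) = n * (n + 1) / 2 := by
  induction n with
  | zero => simp
  | succ n ih =>
    rw [Finset.sum_range_succ, ih]
    push_cast
    ring

private theorem KerB_gauss' (n : ℕ) : ∑ t ∈ Finset.range n, ((n - t : ℕ) : ℝ) = n * (n + 1) / 2 := by
  rw [← KerB_gauss, ← Finset.sum_range_reflect]
  refine Finset.sum_congr rfl fun t ht => ?_
  rw [Finset.mem_range] at ht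
  congr 1
  omega

open Classical in
theorem kernel_abs {d : X → X → ℕ} {A B : ℕ → X → ℕ → Finset α} {D N0 : ℕ}
    (hA : ∀ c x l, (A c x l).card ≤ N0) (hB : ∀ c x l, (B c x l).card ≤ N0)
    (hAm : ∀ c x l l' a, a ∈ A c x l → a ∈ A c x l' → l' ≤ l + D)
    (hBm : ∀ c x l l' a, a ∈ B c x l → a ∈ B c x l' → l' ≤ l + D)
    (hsum : ∀ x y n, ∑ l ∈ Finset.range (n + 1),
      ((if (A 0 x l ∩ B 0 y (n - l)).Nonempty then (1 : ℝ) else 0) -
        (if (A 1 x l ∩ B 1 y (n - l)).Nonempty then (1 : ℝ) else 0)) =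
      if d x y ≤ n then 1 else 0)
    (n : ℕ) (hn : 1 ≤ n) (F : Finset X) :
    KerOK F (2 * (D + 1) * 2 ^ N0) (fun x y => fej n (d x y)) := by
  have hn0 : (0 : ℝ) < n := by exact_mod_cast hn
  set U : Finset α := F.biUnion (fun x => (Finset.range n).biUnion
    (fun l => A 0 x l ∪ A 1 x l)) with hU
  have hUA : ∀ x ∈ F, ∀ l < n, A 0 x l ⊆ U ∧ A 1 x l ⊆ U := by
    intro x hx l hl
    constructor
    · intro a ha
      rw [hU, Finset.mem_biUnion]
      exact ⟨x, hx, Finset.mem_biUnion.2 ⟨l, Finset.mem_range.2 hl, Finset.mem_union_left _ ha⟩⟩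
    · intro a ha
      rw [hU, Finset.mem_biUnion]
      exact ⟨x, hx, Finset.mem_biUnion.2 ⟨l, Finset.mem_range.2 hl, Finset.mem_union_right _ ha⟩⟩
  set 𝓔 := U.powerset.filter (fun E => E.Nonempty) with h𝓔
  set γ : ℝ := √(2 / (n * (n + 1))) with hγ
  have hγ2 : γ ^ 2 = 2 / (n * (n + 1)) := Real.sq_sqrt (by positivity)
  let a : X → Fin n × {E // E ∈ 𝓔} × Fin 2 → ℝ := fun x k =>
    γ * ∑ l ∈ Finset.range ((k.1 : ℕ) + 1), (if (k.2.1 : Finset α) ⊆ A k.2.2 x l then (1 : ℝ) else 0)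
  let b : X → Fin n × {E // E ∈ 𝓔} × Fin 2 → ℝ := fun y k =>
    γ * ((-1) ^ ((k.2.2 : Fin 2) : ℕ) * (-1) ^ ((k.2.1 : Finset α).card + 1)) *
      ∑ m ∈ Finset.range (n - (k.1 : ℕ)), (if (k.2.1 : Finset α) ⊆ B k.2.2 y m then (1 : ℝ) else 0)
  refine KerOK.of_fintype a b ?_ ?_ ?_
  · intro x hx
    rw [Fintype.sum_prod_type]
    have h1 : ∀ t : Fin n, ∑ k : {E // E ∈ 𝓔} × Fin 2, a x (t, k) ^ 2 ≤
        γ ^ 2 * (2 * ((D + 1) * ((t + 1 : ℕ) : ℝ) * 2 ^ N0)) := by
      intro t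
      rw [Fintype.sum_prod_type_right, Fin.sum_univ_two]
      have h2 : ∀ c : Fin 2, ∑ E : {E // E ∈ 𝓔}, a x (t, E, c) ^ 2 ≤
          γ ^ 2 * ((D + 1) * ((t + 1 : ℕ) : ℝ) * 2 ^ N0) := by
        intro c
        have h3 := KerB_sq (fun l => hA c x l) (fun l l' a => hAm c x l l' a) U ((t : ℕ) + 1)
        have h4 : ∑ E : {E // E ∈ 𝓔}, a x (t, E, c) ^ 2 = γ ^ 2 * ∑ E ∈ 𝓔,
            (∑ l ∈ Finset.range ((t : ℕ) + 1), (if E ⊆ A c x l then (1 : ℝ) else 0)) ^ 2 := by
          rw [Finset.mul_sum, ← Finset.sum_coe_sort 𝓔]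
          refine Finset.sum_congr rfl fun E _ => ?_
          show (γ * _) ^ 2 = _
          rw [mul_pow]
        rw [h4]
        exact mul_le_mul_of_nonneg_left h3 (sq_nonneg _)
      have h5 := h2 0
      have h6 := h2 1
      linarith
    refine (Finset.sum_le_sum fun t _ => h1 t).trans (le_of_eq ?_)
    rw [← Finset.mul_sum, Fin.sum_univ_eq_sum_range
      (fun t : ℕ => 2 * (((D : ℝ) + 1) * ((t + 1 : ℕ) : ℝ) * 2 ^ N0)) n]
    have h3 : ∀ t ∈ Finset.range n, 2 * (((D : ℝ) + 1) * ((t + 1 : ℕ) : ℝ) * 2 ^ N0) =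
        (2 * ((D : ℝ) + 1) * 2 ^ N0) * ((t + 1 : ℕ) : ℝ) := fun t _ => by ring
    rw [Finset.sum_congr rfl h3, ← Finset.mul_sum, KerB_gauss, hγ2]
    field_simp
  · intro x hx
    rw [Fintype.sum_prod_type]
    have h1 : ∀ t : Fin n, ∑ k : {E // E ∈ 𝓔} × Fin 2, b x (t, k) ^ 2 ≤
        γ ^ 2 * (2 * ((D + 1) * ((n - t : ℕ) : ℝ) * 2 ^ N0)) := by
      intro t
      rw [Fintype.sum_prod_type_right, Fin.sum_univ_two]
      have h2 : ∀ c : Fin 2, ∑ E : {E // E ∈ 𝓔}, b x (t, E, c) ^ 2 ≤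
          γ ^ 2 * ((D + 1) * ((n - t : ℕ) : ℝ) * 2 ^ N0) := by
        intro c
        have h3 := KerB_sq (fun l => hB c x l) (fun l l' a => hBm c x l l' a) U (n - (t : ℕ))
        have h4 : ∑ E : {E // E ∈ 𝓔}, b x (t, E, c) ^ 2 = γ ^ 2 * ∑ E ∈ 𝓔,
            (∑ m ∈ Finset.range (n - (t : ℕ)), (if E ⊆ B c x m then (1 : ℝ) else 0)) ^ 2 := by
          rw [Finset.mul_sum, ← Finset.sum_coe_sort 𝓔]
          refine Finset.sum_congr rfl fun E _ => ?_
          show (γ * ((-1) ^ ((c : Fin 2) : ℕ) * (-1) ^ ((E : Finset α).card + 1)) * _) ^ 2 = _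
          have h5 : ((-1 : ℝ) ^ ((c : Fin 2) : ℕ) * (-1) ^ ((E : Finset α).card + 1)) ^ 2 = 1 := by
            rw [← pow_add, ← pow_mul, mul_comm, pow_mul]
            norm_num
          rw [mul_pow, mul_pow, h5, mul_one]
        rw [h4]
        exact mul_le_mul_of_nonneg_left h3 (sq_nonneg _)
      have h5 := h2 0
      have h6 := h2 1
      linarith
    refine (Finset.sum_le_sum fun t _ => h1 t).trans (le_of_eq ?_)
    rw [← Finset.mul_sum, Fin.sum_univ_eq_sum_range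
      (fun t : ℕ => 2 * (((D : ℝ) + 1) * ((n - t : ℕ) : ℝ) * 2 ^ N0)) n]
    have h3 : ∀ t ∈ Finset.range n, 2 * (((D : ℝ) + 1) * ((n - t : ℕ) : ℝ) * 2 ^ N0) =
        (2 * ((D : ℝ) + 1) * 2 ^ N0) * ((n - t : ℕ) : ℝ) := fun t _ => by ring
    rw [Finset.sum_congr rfl h3, ← Finset.mul_sum, KerB_gauss', hγ2]
    field_simp
  · intro x hx y _
    let G : Fin 2 → ℕ → ℕ → ℝ := fun c l m => if (A c x l ∩ B c y m).Nonempty then 1 else 0
    have h1 : ∀ (t : Fin n) (c : Fin 2), ∑ E : {E // E ∈ 𝓔}, a x (t, E, c) * b y (t, E, c) =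
        γ ^ 2 * ((-1) ^ (c : ℕ) * ∑ l ∈ Finset.range ((t : ℕ) + 1),
          ∑ m ∈ Finset.range (n - (t : ℕ)), G c l m) := by
      intro t c
      have h2 : ∀ l ∈ Finset.range ((t : ℕ) + 1), ∀ m ∈ Finset.range (n - (t : ℕ)),
          G c l m = ∑ E ∈ 𝓔, (-1 : ℝ) ^ (E.card + 1) *
            ((if E ⊆ A c x l then (1 : ℝ) else 0) * (if E ⊆ B c y m then (1 : ℝ) else 0)) := by
        intro l hl m _
        rw [Finset.mem_range] at hl
        have h3 : A c x l ⊆ U := by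
          have h4 := hUA x hx l (by have := t.2; omega)
          fin_cases c
          · exact h4.1
          · exact h4.2
        exact (KerB_ie (A c x l) (B c y m) U h3).symm
      rw [Finset.sum_congr rfl fun l hl => Finset.sum_congr rfl (h2 l hl)]
      have h5 : ∑ l ∈ Finset.range ((t : ℕ) + 1), ∑ m ∈ Finset.range (n - (t : ℕ)),
          ∑ E ∈ 𝓔, (-1 : ℝ) ^ (E.card + 1) *
            ((if E ⊆ A c x l then (1 : ℝ) else 0) * (if E ⊆ B c y m then (1 : ℝ) else 0)) =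
          ∑ E ∈ 𝓔, (-1 : ℝ) ^ (E.card + 1) *
            ((∑ l ∈ Finset.range ((t : ℕ) + 1), (if E ⊆ A c x l then (1 : ℝ) else 0)) *
              ∑ m ∈ Finset.range (n - (t : ℕ)), (if E ⊆ B c y m then (1 : ℝ) else 0)) := by
        have h6 : ∀ l ∈ Finset.range ((t : ℕ) + 1), ∑ m ∈ Finset.range (n - (t : ℕ)),
          ∑ E ∈ 𝓔, (-1 : ℝ) ^ (E.card + 1) *
            ((if E ⊆ A c x l then (1 : ℝ) else 0) * (if E ⊆ B c y m then (1 : ℝ) else 0)) =
            ∑ E ∈ 𝓔, ∑ m ∈ Finset.range (n - (t : ℕ)), (-1 : ℝ) ^ (E.card + 1) *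
            ((if E ⊆ A c x l then (1 : ℝ) else 0) * (if E ⊆ B c y m then (1 : ℝ) else 0)) :=
          fun l _ => Finset.sum_comm
        rw [Finset.sum_congr rfl h6, Finset.sum_comm]
        refine Finset.sum_congr rfl fun E _ => ?_
        rw [Finset.sum_mul_sum, Finset.mul_sum]
        refine Finset.sum_congr rfl fun l _ => ?_
        rw [Finset.mul_sum]
      rw [h5, Finset.mul_sum, Finset.mul_sum, ← Finset.sum_coe_sort 𝓔]
      refine Finset.sum_congr rfl fun E _ => ?_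
      show γ * _ * (γ * ((-1) ^ ((c : Fin 2) : ℕ) * (-1) ^ ((E : Finset α).card + 1)) * _) = _
      ring
    rw [Fintype.sum_prod_type]
    have h2 : ∀ t : Fin n, ∑ k : {E // E ∈ 𝓔} × Fin 2, a x (t, k) * b y (t, k) =
        γ ^ 2 * ∑ l ∈ Finset.range ((t : ℕ) + 1), ∑ m ∈ Finset.range (n - (t : ℕ)),
          (G 0 l m - G 1 l m) := by
      intro t
      rw [Fintype.sum_prod_type_right, Fin.sum_univ_two, h1 t 0, h1 t 1]
      simp only [Finset.sum_sub_distrib]
      simp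
      ring
    rw [Finset.sum_congr rfl fun t _ => h2 t, ← Finset.mul_sum, Fin.sum_univ_eq_sum_range
      (fun t : ℕ => ∑ l ∈ Finset.range (t + 1), ∑ m ∈ Finset.range (n - t), (G 0 l m - G 1 l m)) n,
      KerB_tri (fun l m => G 0 l m - G 1 l m)]
    have h3 : ∀ i ∈ Finset.range n, ((n - i : ℕ) : ℝ) * ∑ l ∈ Finset.range (i + 1),
        (G 0 l (i - l) - G 1 l (i - l)) = ((n - i : ℕ) : ℝ) * (if d x y ≤ i then 1 else 0) := by
      intro i _
      rw [← hsum x y i]
      rfl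
    rw [Finset.sum_congr rfl h3, KerB_fej, hγ2]
    unfold fej
    field_simp

end Pool.Agent.H26.HB
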