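import Pool.Agent.H26.HB.KerA
import Pool.Agent.H26.HB.KerB

/-!
# Module Ker: the kernels, assembly
-/

set_option autoImplicit false

namespace Pool.Agent.H26.HB

universe u w

variable {X : Type w} {P : Type u}

private theorem Ker_level [inst : DecidableEq (P × ℕ)] {d : X → X → ℕ} {T : X → ℕ → Finset P}
    {h : X → ℤ} {g : P → ℤ} {D NT : ℕ} (hT : TS d T h g D NT) (x y : X) (n : ℕ) :
    ∑ l ∈ Finset.range (n + 1),
      ((if (SA T D 0 x l ∩ SB T D 0 y (n - l)).Nonempty then (1 : ℝ) else 0) -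
        (if (SA T D 1 x l ∩ SB T D 1 y (n - l)).Nonempty then (1 : ℝ) else 0)) =
      if d x y ≤ n then 1 else 0 := by
  have h0 : inst = (fun a b => @instDecidableEqProd P ℕ (fun a b => Classical.propDecidable (a = b))
      instDecidableEqNat a b) := Subsingleton.elim _ _
  subst h0
  exact level_sum hT x y n

theorem exists_kernel {d : X → X → ℕ} {T : X → ℕ → Finset P} {h : X → ℤ} {g : P → ℤ} {D NT : ℕ}
    (hT : TS d T h g D NT) :
    ∃ C : ℝ, 0 ≤ C ∧ ∀ n : ℕ, 1 ≤ n → ∀ F : Finset X, KerOK F C (fun x y => fej n (d x y)) := by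
  classical
  refine ⟨2 * (D + 1) * 2 ^ ((D + 1) * NT), by positivity, fun n hn F => ?_⟩
  refine kernel_abs (A := fun c x l => SA T D c x l) (B := fun c x l => SB T D c x l)
    (fun c x l => card_SA hT c x l) (fun c x l => card_SB hT c x l)
    (fun c x l l' a => SA_mult hT c x l l' a) (fun c x l l' a => SB_mult hT c x l l' a)
    (fun x y n => ?_) n hn F
  exact @Ker_level _ _ (fun a b => Classical.propDecidable (a = b)) _ _ _ _ _ _ hT x y n

end Pool.Agent.H26.HB
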