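import Pool.Agent.H26.HB.GSp
import Pool.Agent.H26.HB.KerOK

/-!
# Module Ker0: definitions for the kernels
-/

set_option autoImplicit false

namespace Pool.Agent.H26.HB

universe u w

variable {X : Type w} {P : Type u}

open Classical in
/-- `{(p, j) | c ≤ j ≤ D, j ≤ l, p ∈ T x (l - j)}` -/
noncomputable def SA (T : X → ℕ → Finset P) (D c : ℕ) (x : X) (l : ℕ) : Finset (P × ℕ) :=
  ((Finset.range (D + 1)).filter (fun j => c ≤ j ∧ j ≤ l)).biUnion
    (fun j => (T x (l - j)).image (fun p => (p, j)))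

open Classical in
/-- `{(p, j) | c ≤ j ≤ D, p ∈ T y (m + j)}` -/
noncomputable def SB (T : X → ℕ → Finset P) (D c : ℕ) (y : X) (m : ℕ) : Finset (P × ℕ) :=
  ((Finset.range (D + 1)).filter (fun j => c ≤ j)).biUnion
    (fun j => (T y (m + j)).image (fun p => (p, j)))

theorem mem_SA {T : X → ℕ → Finset P} {D c : ℕ} {x : X} {l : ℕ} {p : P} {j : ℕ} :
    (p, j) ∈ SA T D c x l ↔ c ≤ j ∧ j ≤ D ∧ j ≤ l ∧ p ∈ T x (l - j) := by
  classical
  unfold SA
  simp only [Finset.mem_biUnion, Finset.mem_filter, Finset.mem_range, Finset.mem_image,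
    Prod.mk.injEq]
  constructor
  · rintro ⟨j', ⟨h1, h2, h3⟩, p', h4, rfl, rfl⟩
    exact ⟨h2, by omega, h3, h4⟩
  · rintro ⟨h1, h2, h3, h4⟩
    exact ⟨j, ⟨by omega, h1, h3⟩, p, h4, rfl, rfl⟩

theorem mem_SB {T : X → ℕ → Finset P} {D c : ℕ} {y : X} {m : ℕ} {p : P} {j : ℕ} :
    (p, j) ∈ SB T D c y m ↔ c ≤ j ∧ j ≤ D ∧ p ∈ T y (m + j) := by
  classical
  unfold SB
  simp only [Finset.mem_biUnion, Finset.mem_filter, Finset.mem_range, Finset.mem_image,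
    Prod.mk.injEq]
  constructor
  · rintro ⟨j', ⟨h1, h2⟩, p', h4, rfl, rfl⟩
    exact ⟨h2, by omega, h4⟩
  · rintro ⟨h1, h2, h4⟩
    exact ⟨j, ⟨by omega, h1⟩, p, h4, rfl, rfl⟩

end Pool.Agent.H26.HB
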