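import Pool.Agent.H26.HB.Ker0

/-!
# Module KerA: the level sum and the multiplicity

`SA T D c x l = {(p, j) | c ≤ j ≤ D, j ≤ l, p ∈ T x (l - j)}`, `SB T D c y m = {(p, j) | c ≤ j ≤ D, p ∈ T y (m + j)}`
(`mem_SA`, `mem_SB`).

PLAN. `card_SA`, `card_SB`: `Finset.card_biUnion_le`, at most `D + 1` values of `j`, `card_image_le`, `hT.t4`.
`SA_mult`: `p ∈ T x (l - j)` and `p ∈ T x (l' - j)` with `j ≤ l, l'`; by t2 `h x - (l - j) ≤ g p ≤ h x - (l' - j) + D`, so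
`l' ≤ l + D`. Same for `SB`.
`level_sum`: let `Q l := ∃ p, p ∈ T x l ∧ p ∈ T y (n - l)`. For `l ≤ n`:
`(SA T D c x l ∩ SB T D c y (n - l)).Nonempty ↔ ∃ j, c ≤ j ∧ j ≤ D ∧ j ≤ l ∧ Q (l - j)` (`n - l + j = n - (l - j)`).
If `l, l' ≤ n`, `Q l`, `Q l'` then `l' ≤ l + D`: t2 gives `h x - l ≤ g p ≤ h y - (n - l) + D` and for `l'` with `p'`:
`h y - (n - l') ≤ g p' ≤ h x - l' + D`; add: `2 l' ≤ 2 l + 2 D`.
If `d x y > n`: no `l ≤ n` has `Q l` (t1), all terms are `0 - 0`. If `d x y ≤ n`: t3 gives `l ≤ n` with `Q l`, let `l₀` be the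
least one (`Nat.find`). The term of `l = l₀` is `1 - 0` (`j = 0`; for `j ≥ 1`, `Q (l₀ - j)` is false by minimality), for
`l ≠ l₀` both indicators agree: if `∃ j ≥ 0` but no `j ≥ 1`, then `Q l` (`j = 0`), so `l₀ < l`, `l ≤ l₀ + D`, and
`j = l - l₀ ≥ 1` works, contradiction. `Finset.sum_eq_single`.
-/

set_option autoImplicit false

namespace Pool.Agent.H26.HB

universe u w

variable {X : Type w} {P : Type u} {d : X → X → ℕ} {T : X → ℕ → Finset P} {h : X → ℤ} {g : P → ℤ}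
  {D NT : ℕ}

theorem card_SA (hT : TS d T h g D NT) (c : ℕ) (x : X) (l : ℕ) :
    (SA T D c x l).card ≤ (D + 1) * NT := by
  classical
  unfold SA
  refine (Finset.card_biUnion_le_card_mul _ _ NT fun j _ =>
    Finset.card_image_le.trans (hT.t4 x (l - j))).trans ?_
  refine Nat.mul_le_mul_right NT ?_
  refine (Finset.card_filter_le _ _).trans ?_
  rw [Finset.card_range]

theorem card_SB (hT : TS d T h g D NT) (c : ℕ) (y : X) (m : ℕ) :
    (SB T D c y m).card ≤ (D + 1) * NT := by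
  classical
  unfold SB
  refine (Finset.card_biUnion_le_card_mul _ _ NT fun j _ =>
    Finset.card_image_le.trans (hT.t4 y (m + j))).trans ?_
  refine Nat.mul_le_mul_right NT ?_
  refine (Finset.card_filter_le _ _).trans ?_
  rw [Finset.card_range]

theorem SA_mult (hT : TS d T h g D NT) (c : ℕ) (x : X) (l l' : ℕ) (a : P × ℕ)
    (h1 : a ∈ SA T D c x l) (h2 : a ∈ SA T D c x l') : l' ≤ l + D := by
  obtain ⟨p, j⟩ := a
  rw [mem_SA] at h1 h2
  obtain ⟨_, _, h3, h4⟩ := h1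
  obtain ⟨_, _, h5, h6⟩ := h2
  have h7 := (hT.t2 x (l - j) p h4).1
  have h8 := (hT.t2 x (l' - j) p h6).2
  omega

theorem SB_mult (hT : TS d T h g D NT) (c : ℕ) (y : X) (m m' : ℕ) (a : P × ℕ)
    (h1 : a ∈ SB T D c y m) (h2 : a ∈ SB T D c y m') : m' ≤ m + D := by
  obtain ⟨p, j⟩ := a
  rw [mem_SB] at h1 h2
  obtain ⟨_, _, h4⟩ := h1
  obtain ⟨_, _, h6⟩ := h2
  have h7 := (hT.t2 y (m + j) p h4).1
  have h8 := (hT.t2 y (m' + j) p h6).2
  omega

open Classical in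
private theorem KerA_ne (T : X → ℕ → Finset P) (D c : ℕ) (x y : X) (n l : ℕ) (hl : l ≤ n) :
    (SA T D c x l ∩ SB T D c y (n - l)).Nonempty ↔
      ∃ j, c ≤ j ∧ j ≤ D ∧ j ≤ l ∧ ∃ p, p ∈ T x (l - j) ∧ p ∈ T y (n - (l - j)) := by
  constructor
  · rintro ⟨⟨p, j⟩, hp⟩
    rw [Finset.mem_inter, mem_SA, mem_SB] at hp
    obtain ⟨⟨h1, h2, h3, h4⟩, _, _, h5⟩ := hp
    rw [show n - l + j = n - (l - j) by omega] at h5
    exact ⟨j, h1, h2, h3, p, h4, h5⟩
  · rintro ⟨j, h1, h2, h3, p, h4, h5⟩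
    refine ⟨(p, j), ?_⟩
    rw [Finset.mem_inter, mem_SA, mem_SB, show n - l + j = n - (l - j) by omega]
    exact ⟨⟨h1, h2, h3, h4⟩, h1, h2, h5⟩

private theorem KerA_close (hT : TS d T h g D NT) (x y : X) (n l l' : ℕ) (hl : l ≤ n)
    (hl' : l' ≤ n) (h1 : ∃ p, p ∈ T x l ∧ p ∈ T y (n - l))
    (h2 : ∃ p, p ∈ T x l' ∧ p ∈ T y (n - l')) : l' ≤ l + D := by
  obtain ⟨p, h3, h4⟩ := h1
  obtain ⟨p', h5, h6⟩ := h2
  have e1 := (hT.t2 x l p h3).1
  have e2 := (hT.t2 y (n - l) p h4).2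
  have e3 := (hT.t2 y (n - l') p' h6).1
  have e4 := (hT.t2 x l' p' h5).2
  omega

open Classical in
theorem level_sum (hT : TS d T h g D NT) (x y : X) (n : ℕ) :
    ∑ l ∈ Finset.range (n + 1),
      ((if (SA T D 0 x l ∩ SB T D 0 y (n - l)).Nonempty then (1 : ℝ) else 0) -
        (if (SA T D 1 x l ∩ SB T D 1 y (n - l)).Nonempty then (1 : ℝ) else 0)) =
      if d x y ≤ n then 1 else 0 := by
  by_cases hd : d x y ≤ n
  · rw [if_pos hd]
    obtain ⟨l0, h0, hQ0, hmin⟩ : ∃ l0, l0 ≤ n ∧ (∃ p, p ∈ T x l0 ∧ p ∈ T y (n - l0)) ∧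
        ∀ l, l < l0 → ¬ (l ≤ n ∧ ∃ p, p ∈ T x l ∧ p ∈ T y (n - l)) := by
      have hex : ∃ l, l ≤ n ∧ ∃ p, p ∈ T x l ∧ p ∈ T y (n - l) := by
        obtain ⟨l, hl, p, hp⟩ := hT.t3 x y n hd
        exact ⟨l, hl, p, hp⟩
      exact ⟨Nat.find hex, (Nat.find_spec hex).1, (Nat.find_spec hex).2,
        fun l hl => Nat.find_min hex hl⟩
    rw [Finset.sum_eq_single_of_mem l0 (Finset.mem_range.mpr (by omega))]
    · rw [if_pos, if_neg, sub_zero]
      · rw [KerA_ne T D 1 x y n l0 h0]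
        rintro ⟨j, h1, h2, h3, h4⟩
        exact hmin (l0 - j) (by omega) ⟨by omega, h4⟩
      · rw [KerA_ne T D 0 x y n l0 h0]
        exact ⟨0, le_rfl, Nat.zero_le _, Nat.zero_le _, by rw [Nat.sub_zero]; exact hQ0⟩
    · intro l hl hne
      have hln : l ≤ n := by
        have := Finset.mem_range.mp hl
        omega
      have n0 := KerA_ne T D 0 x y n l hln
      have n1 := KerA_ne T D 1 x y n l hln
      by_cases h1 : ∃ j, 1 ≤ j ∧ j ≤ D ∧ j ≤ l ∧ ∃ p, p ∈ T x (l - j) ∧ p ∈ T y (n - (l - j))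
      · obtain ⟨j, h2, h3, h4, h5⟩ := h1
        rw [if_pos (n0.mpr ⟨j, by omega, h3, h4, h5⟩), if_pos (n1.mpr ⟨j, h2, h3, h4, h5⟩),
          sub_self]
      · rw [if_neg (fun hh => h1 (n1.mp hh)), if_neg, sub_self]
        intro hh
        obtain ⟨j, h2, h3, h4, h5⟩ := n0.mp hh
        rcases Nat.eq_zero_or_pos j with hj | hj
        · subst hj
          rw [Nat.sub_zero] at h5
          have h6 : l0 ≤ l := by
            by_contra hcon
            exact hmin l (by omega) ⟨hln, h5⟩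
          have h7 := KerA_close hT x y n l0 l h0 hln hQ0 h5
          apply h1
          have e1 : 1 ≤ l - l0 := Nat.sub_pos_of_lt (lt_of_le_of_ne h6 (Ne.symm hne))
          have e2 : l - l0 ≤ D := Nat.sub_le_iff_le_add'.mpr h7
          refine ⟨l - l0, e1, e2, Nat.sub_le _ _, ?_⟩
          rw [Nat.sub_sub_self h6]
          exact hQ0
        · exact h1 ⟨j, hj, h3, h4, h5⟩
  · rw [if_neg hd]
    refine Finset.sum_eq_zero fun l hl => ?_
    have hln : l ≤ n := by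
      have := Finset.mem_range.mp hl
      omega
    have hno : ∀ m, m ≤ n → ¬ ∃ p, p ∈ T x m ∧ p ∈ T y (n - m) := by
      rintro m hm ⟨p, h1, h2⟩
      have := hT.t1 x y m (n - m) p h1 h2
      omega
    rw [if_neg, if_neg, sub_self]
    · rw [KerA_ne T D 1 x y n l hln]
      rintro ⟨j, _, _, _, h4⟩
      exact hno (l - j) (by omega) h4
    · rw [KerA_ne T D 0 x y n l hln]
      rintro ⟨j, _, _, _, h4⟩
      exact hno (l - j) (by omega) h4

end Pool.Agent.H26.HB
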