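import Pool.Agent.H26.HB.Build2
import Pool.Agent.H26.HB.GSp

/-!
# Module Metric: the gallery metric of a building of hyperbolic type

PLAN. `self`, `comm`, `tri`, `mid`, `ball`: `gd_self`, `gd_comm`, `gd_tri`, `exists_mid`, `balls`.
`slim`: let `d x z + d z y = d x y`. Then `dl x y = dl x z * dl z y` (`dl_mul_of_gd`). Retract at `z`:
`ρ v = dl z v`. `wd (ρ x) (ρ y) = ℓ ((dl z x)⁻¹ * dl z y) = ℓ (dl x z * dl z y) = d x y` (`dl_symm`),
`wd (ρ x) (ρ t) ≤ d x t`, `wd (ρ y) (ρ t) ≤ d y t` (`retr`), and with the point `1 = ρ z` of `W`: `wd 1 (ρ v) = d z v`.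
The four point condition for `1, ρ t, ρ x, ρ y`:
`wd 1 (ρ t) + wd (ρ x) (ρ y) ≤ max (wd 1 (ρ x) + wd (ρ t) (ρ y)) (wd 1 (ρ y) + wd (ρ t) (ρ x)) + k`.
(`wd` is symmetric: `cs.length_inv`.)
-/

set_option autoImplicit false

namespace Pool.Agent.H26.HB

universe u v w

variable {B : Type v} {W : Type u} [Group W] {M : CoxeterMatrix B} {cs : CoxeterSystem M W}
  {X : Type w} {dl : X → X → W}

theorem exists_gsp [Finite B] (hb : IsBuilding cs dl) {n : B → ℕ} (hn : HasThickness cs dl n)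
    {k : ℕ} (hk : IsHyp cs k) : ∃ N : ℕ → ℕ, GSp (gd cs dl) k N := by
  obtain ⟨N, hN⟩ := hb.balls hn
  refine ⟨N, ⟨hb.gd_self, hb.gd_comm, hb.gd_tri, fun x y m hm => hb.exists_mid x y m hm, ?_, hN⟩⟩
  intro x y z t hxy
  have h1 : dl x y = dl x z * dl z y := hb.dl_mul_of_gd hxy
  have e1 : ∀ v, wd cs 1 (dl z v) = gd cs dl z v := by
    intro v
    simp [wd, gd]
  have e2 : wd cs (dl z x) (dl z y) = gd cs dl x y := by
    unfold wd gd
    rw [h1, hb.dl_symm x z, inv_inv]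
  have h4 := hk 1 (dl z t) (dl z x) (dl z y)
  rw [e1, e1, e1, e2] at h4
  have r1 := hb.retr z t y
  have r2 := hb.retr z t x
  rw [hb.gd_comm t y] at r1
  rw [hb.gd_comm t x] at r2
  rw [hb.gd_comm z x] at h4
  refine h4.trans (Nat.add_le_add_right ?_ k)
  exact max_le_max (Nat.add_le_add_left r1 _) (Nat.add_le_add_left r2 _)

end Pool.Agent.H26.HB
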