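import Pool.Agent.H73.HVN.Closure
import Pool.Agent.H73.HVN.Conv

/-!
# Module PhiN: finitely supported multipliers

PLAN. For `w : W` choose `T_w ∈ HA` with `T_w (δ 1) = δ w` (`HA_cyclic`). Put
`Φ x = ∑ w ∈ hf.toFinset, (f w * (x (δ 1)) w) • T_w`. It is linear, `(Φ x (δ 1)) v = f v * (x (δ 1)) v` (the sum of
`f w * (x (δ 1)) w • δ w`, `δ_apply`). It is normal: if `ψ` is a normal functional then `ψ` is linear (it is given by an
absolutely convergent series, cf. the private `summable_pair`, `normal_apply_sub` in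
`Pool/Agent/H73/HVN/Closure.lean`), so `ψ (Φ x) = ∑ w ∈ s, (f w * ψ(T_w)) * (x (δ 1)) w = ⟪ζ, x (δ 1)⟫` with
`ζ = ∑ w ∈ s, conj (f w * ψ(T_w)) • δ w` (`inner_δ`): a normal functional with index type `PUnit`
(`tsum` over `PUnit`; vectors `δ 1` and `ζ`).
-/

set_option autoImplicit false

open scoped ComplexOrder InnerProductSpace
open Filter Topology

namespace Pool.Agent.H26.HB

open Pool.Agent.H73.HVN

universe u v w

section General

variable {H : Type u} [NormedAddCommGroup H] [InnerProductSpace ℂ H]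
  {𝓜 : Subalgebra ℂ (H →L[ℂ] H)}

private theorem PhiN_summable {ι : Type u} {ξ η : ι → H} (hξ : Summable fun i => ‖ξ i‖ ^ 2)
    (hη : Summable fun i => ‖η i‖ ^ 2) (x : H →L[ℂ] H) :
    Summable fun i => ⟪η i, x (ξ i)⟫_ℂ := by
  refine Summable.of_norm_bounded (g := fun i => ‖x‖ * (‖ξ i‖ ^ 2 + ‖η i‖ ^ 2))
    ((hξ.add hη).mul_left _) fun i => ?_
  have h1 : ‖⟪η i, x (ξ i)⟫_ℂ‖ ≤ ‖η i‖ * ‖x (ξ i)‖ := norm_inner_le_norm _ _
  have h2 : ‖x (ξ i)‖ ≤ ‖x‖ * ‖ξ i‖ := x.le_opNorm _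
  have h3 : ‖η i‖ * ‖x (ξ i)‖ ≤ ‖η i‖ * (‖x‖ * ‖ξ i‖) :=
    mul_le_mul_of_nonneg_left h2 (norm_nonneg _)
  have h4 : ‖ξ i‖ * ‖η i‖ ≤ ‖ξ i‖ ^ 2 + ‖η i‖ ^ 2 := by
    nlinarith [sq_nonneg (‖ξ i‖ - ‖η i‖), sq_nonneg (‖ξ i‖), sq_nonneg (‖η i‖)]
  have h5 : ‖η i‖ * (‖x‖ * ‖ξ i‖) ≤ ‖x‖ * (‖ξ i‖ ^ 2 + ‖η i‖ ^ 2) := by
    have := mul_le_mul_of_nonneg_left h4 (norm_nonneg x)
    linarith
  linarith

private theorem PhiN_coe {κ : Type*} (s : Finset κ) (a : κ → ℂ) (y : κ → 𝓜) (ξ : H) :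
    ((∑ w ∈ s, a w • y w : 𝓜) : H →L[ℂ] H) ξ = ∑ w ∈ s, a w • ((y w : H →L[ℂ] H) ξ) := by
  classical
  induction s using Finset.induction_on with
  | empty => rfl
  | insert j s hj ih =>
    rw [Finset.sum_insert hj, Finset.sum_insert hj, ← ih]
    rfl

private theorem PhiN_lin {φ : 𝓜 → ℂ} (hφ : IsNormalFunctional 𝓜 φ) {κ : Type*} (s : Finset κ)
    (a : κ → ℂ) (y : κ → 𝓜) : φ (∑ w ∈ s, a w • y w) = ∑ w ∈ s, a w * φ (y w) := by
  obtain ⟨ι, ξ, η, h1, h2, h3⟩ := hφ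
  have h4 : ∀ w ∈ s, a w * φ (y w) = ∑' i, a w * ⟪η i, (y w : H →L[ℂ] H) (ξ i)⟫_ℂ := by
    intro w _
    rw [h3, tsum_mul_left]
  rw [Finset.sum_congr rfl h4, h3,
    ← Summable.tsum_finsetSum fun w _ => (PhiN_summable h1 h2 (y w : H →L[ℂ] H)).mul_left (a w)]
  refine tsum_congr fun i => ?_
  rw [PhiN_coe, inner_sum]
  refine Finset.sum_congr rfl fun w _ => ?_
  rw [inner_smul_right]

end General

variable {B : Type v} {W : Type u} [Group W] {M : CoxeterMatrix B} (cs : CoxeterSystem M W)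

theorem exists_phi (q : B → ℝ) (f : W → ℂ) (hf : {w | f w ≠ 0}.Finite) :
    ∃ Φ : HA cs q →ₗ[ℂ] HA cs q, IsNormalMap (HA cs q) Φ ∧ IsMult cs q Φ f := by
  classical
  choose T hT hT1 using HA_cyclic cs q
  refine ⟨{ toFun := fun x => ∑ w ∈ hf.toFinset,
              (f w * ((x : L2 W →L[ℂ] L2 W) (δ 1)) w) • (⟨T w, hT w⟩ : HA cs q)
            map_add' := fun x y => ?_
            map_smul' := fun c x => ?_ }, ?_, ?_⟩
  · rw [← Finset.sum_add_distrib]
    refine Finset.sum_congr rfl fun w _ => ?_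
    rw [← add_smul, ← mul_add]
    rfl
  · rw [RingHom.id_apply, Finset.smul_sum]
    refine Finset.sum_congr rfl fun w _ => ?_
    rw [smul_smul]
    congr 1
    have e : ((c • x : HA cs q) : L2 W →L[ℂ] L2 W) (δ 1) w =
        c * ((x : L2 W →L[ℂ] L2 W) (δ 1)) w := rfl
    rw [e]
    ring
  · intro φ hφ
    refine ⟨PUnit, fun _ => δ 1, fun _ => ∑ w ∈ hf.toFinset,
      (starRingEnd ℂ) (f w * φ ⟨T w, hT w⟩) • (δ w : L2 W), ?_, ?_, ?_⟩
    · exact (hasSum_fintype _).summable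
    · exact (hasSum_fintype _).summable
    · intro x
      rw [tsum_fintype, Finset.univ_unique, Finset.sum_singleton]
      have h1 := PhiN_lin hφ hf.toFinset (fun w => f w * ((x : L2 W →L[ℂ] L2 W) (δ 1)) w)
        (fun w => (⟨T w, hT w⟩ : HA cs q))
      refine h1.trans ?_
      rw [sum_inner]
      refine Finset.sum_congr rfl fun w _ => ?_
      rw [inner_smul_left, inner_δ, Complex.conj_conj]
      ring
  · intro x v
    have h1 := PhiN_coe hf.toFinset (fun w => f w * ((x : L2 W →L[ℂ] L2 W) (δ 1)) w)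
      (fun w => (⟨T w, hT w⟩ : HA cs q)) (δ 1)
    have h2 : ∀ g : W → ℂ, (∑ w ∈ hf.toFinset, (g w) • (δ w : L2 W)) v =
        if v ∈ hf.toFinset then g v else 0 := by
      intro g
      rw [lp.coeFn_sum, Finset.sum_apply]
      by_cases hx : v ∈ hf.toFinset
      · rw [if_pos hx, Finset.sum_eq_single v]
        · rw [lp.coeFn_smul, Pi.smul_apply, δ_self, smul_eq_mul, mul_one]
        · intro y _ hy
          rw [lp.coeFn_smul, Pi.smul_apply, δ_ne (Ne.symm hy), smul_zero]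
        · intro h
          exact absurd hx h
      · rw [if_neg hx]
        refine Finset.sum_eq_zero fun y hy => ?_
        have hxy : v ≠ y := fun h => hx (h ▸ hy)
        rw [lp.coeFn_smul, Pi.smul_apply, δ_ne hxy, smul_zero]
    have h3 : ∑ w ∈ hf.toFinset, (f w * ((x : L2 W →L[ℂ] L2 W) (δ 1)) w) •
        ((((⟨T w, hT w⟩ : HA cs q) : L2 W →L[ℂ] L2 W)) (δ 1)) =
        ∑ w ∈ hf.toFinset, (f w * ((x : L2 W →L[ℂ] L2 W) (δ 1)) w) • (δ w : L2 W) :=
      Finset.sum_congr rfl fun w _ => congrArg _ (hT1 w)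
    have h4 := congrArg (fun g : L2 W => g v) (h1.trans h3)
    refine h4.trans ?_
    beta_reduce
    rw [h2]
    split_ifs with hv
    · rfl
    · have h5 : f v = 0 := by
        by_contra h6
        exact hv (hf.mem_toFinset.2 h6)
      rw [h5, zero_mul]

end Pool.Agent.H26.HB
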