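import Pool.Agent.H26.HB.CB
import Pool.Agent.H26.HB.PhiN
import Pool.Agent.H26.HB.Metric
import Pool.Agent.H26.HB.Geo
import Pool.Agent.H26.HB.Ker
import Pool.Agent.H26.HB.Inv
import Pool.Agent.H73.HVN.Bridge

/-!
# Project HB: the main theorem
-/

set_option autoImplicit false

open scoped ComplexOrder InnerProductSpace
open Filter Topology

namespace Pool.Agent.H26.HB

open Pool.Agent.H73.HVN

universe u v w

variable {B : Type v} {W : Type u} [Group W] {M : CoxeterMatrix B} {cs : CoxeterSystem M W}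
  {X : Type w} {dl : X → X → W}

theorem fej_tendsto (m : ℕ) : Tendsto (fun n : ℕ => fej n m) atTop (𝓝 1) := by
  have h1 : Tendsto (fun n : ℕ => (m : ℝ) / ((n : ℝ) + 1)) atTop (𝓝 0) :=
    tendsto_const_nhds.div_atTop (tendsto_atTop_add_const_right _ _ tendsto_natCast_atTop_atTop)
  have h2 : Tendsto (fun n : ℕ => (m : ℝ) / (n : ℝ)) atTop (𝓝 0) :=
    tendsto_const_nhds.div_atTop tendsto_natCast_atTop_atTop
  have h3 := ((tendsto_const_nhds (x := (1 : ℝ))).sub h2).mul
    ((tendsto_const_nhds (x := (1 : ℝ))).sub h1)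
  rw [sub_zero, mul_one] at h3
  refine h3.congr' ?_
  filter_upwards [eventually_ge_atTop (m + 1)] with n hn
  have hn0 : (0 : ℝ) < n := by
    have : 0 < n := by omega
    exact_mod_cast this
  unfold fej
  rw [Nat.cast_sub (by omega : m ≤ n)]
  field_simp
  ring

theorem fej_nonneg (n m : ℕ) : 0 ≤ fej n m := by
  unfold fej; positivity

theorem fej_le_one (n m : ℕ) : fej n m ≤ 1 := by
  unfold fej
  rcases Nat.eq_zero_or_pos n with h | h
  · subst h
    simp
  · have h0 : (0 : ℝ) < n := by exact_mod_cast h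
    rw [div_le_one (by positivity)]
    have h1 : ((n - m : ℕ) : ℝ) ≤ n := by exact_mod_cast Nat.sub_le n m
    have h2 : (0 : ℝ) ≤ ((n - m : ℕ) : ℝ) := Nat.cast_nonneg _
    nlinarith

theorem finite_length_le [Finite B] (n : ℕ) : {w : W | cs.length w ≤ n}.Finite := by
  classical
  have h1 : {l : List B | l.length ≤ n}.Finite := List.finite_length_le B n
  refine (h1.image cs.wordProd).subset ?_
  intro w hw
  obtain ⟨ω, h2, h3⟩ := cs.exists_isReduced w
  refine ⟨ω, ?_, h3.symm⟩
  have h4 : cs.length (cs.wordProd ω) = ω.length := h2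
  rw [← h3] at h4
  have h5 : cs.length w ≤ n := hw
  show ω.length ≤ n
  omega

/-- the kernel theorem for buildings of hyperbolic type -/
theorem building_kernel [Finite B] [Nonempty X] (hb : IsBuilding cs dl) {n : B → ℕ}
    (hn : HasThickness cs dl n) {k : ℕ} (hk : IsHyp cs k) :
    ∃ C : ℝ, 0 ≤ C ∧ ∀ r : ℕ, 1 ≤ r → ∀ F : Finset X,
      KerOK F C (fun x y => fej r (cs.length (dl x y))) := by
  obtain ⟨N, hG⟩ := exists_gsp hb hn hk
  obtain ⟨T, h, g, D, NT, hT⟩ := exists_ts hG
  exact exists_kernel hT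

/-- the main theorem in internal form -/
theorem cbap_HA [Finite B] [Nonempty X] (hb : IsBuilding cs dl) {n : B → ℕ}
    (hn : HasThickness cs dl n) {k : ℕ} (hk : IsHyp cs k) {q : B → ℝ} (hq : Admissible cs q)
    (hqn : ∀ i, q i = n i) : ∃ C : ℝ, HasWeakStarCBAP (HA cs q) C := by
  obtain ⟨nb, fib, κ, hc⟩ := exists_cnt cs hb hn
  obtain ⟨C, hC, hker⟩ := building_kernel hb hn hk
  have hfin : ∀ r : ℕ, {w : W | ((fej r (cs.length w) : ℝ) : ℂ) ≠ 0}.Finite := by
    intro r
    refine (finite_length_le (cs := cs) r).subset ?_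
    intro w hw
    by_contra hlt
    apply hw
    have h1 : r - cs.length w = 0 := by
      have : r < cs.length w := not_le.mp hlt
      omega
    simp [fej, h1]
  choose Φ hΦn hΦm using fun r : ℕ => exists_phi cs q (fun w => ((fej r (cs.length w) : ℝ) : ℂ))
    (hfin r)
  have hcb : ∀ r : ℕ, CBNormLE (HA cs q) (Φ (r + 1)) C := fun r =>
    cb_of_kernel hc hq hqn hC (hker (r + 1) (by omega)) (hΦm (r + 1))
  refine ⟨C, ULift ℕ, inferInstance, inferInstance, inferInstance, fun r => Φ (r.down + 1), ?_, ?_⟩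
  · intro r
    exact ⟨hΦn _, finiteDimensional_range cs hq (hΦm _) (hfin _), hcb _⟩
  · intro x φ hφ
    refine tendsto_weak cs hq (fun r : ULift ℕ => hcb r.down) x ?_ φ hφ
    refine tendsto_mult cs (c := fun (r : ULift ℕ) w => ((fej (r.down + 1) (cs.length w) : ℝ) : ℂ))
      (fun r => hΦm _) ?_ ?_ x
    · intro r w
      rw [Complex.norm_real, Real.norm_of_nonneg (fej_nonneg _ _)]
      exact fej_le_one _ _
    · intro w
      have h1 : Tendsto (fun r : ULift.{u} ℕ => r.down + 1) atTop atTop := by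
        refine tendsto_atTop.2 fun b => ?_
        filter_upwards [eventually_ge_atTop (ULift.up b)] with r hr
        have h2 : b ≤ r.down := hr
        omega
      have h2 := (fej_tendsto (cs.length w)).comp h1
      have h3 := (Complex.continuous_ofReal.tendsto 1).comp h2
      rw [Complex.ofReal_one] at h3
      exact h3

/-- the main theorem with parameters `n i` or `(n i)⁻¹` -/
theorem cbap_main [Finite B] [Nonempty X] (hb : IsBuilding cs dl) {n : B → ℕ}
    (hn : HasThickness cs dl n) {k : ℕ} (hk : IsHyp cs k) {q : B → ℝ} (hq : Admissible cs q)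
    (hqn : ∀ i, q i = n i ∨ q i = (n i : ℝ)⁻¹) : ∃ C : ℝ, HasWeakStarCBAP (HA cs q) C := by
  have hn1 : ∀ i, (1 : ℝ) ≤ n i := by
    obtain ⟨nb, fib, κ, hc⟩ := exists_cnt cs hb hn
    intro i
    exact_mod_cast hc.npos i
  have hmax : ∀ i, (n i : ℝ) = max (q i) (q i)⁻¹ := by
    intro i
    have h1 := hn1 i
    have h2 : (n i : ℝ)⁻¹ ≤ 1 := inv_le_one_of_one_le₀ h1
    rcases hqn i with h | h
    · rw [h, max_eq_left (h2.trans h1)]
    · rw [h, inv_inv, max_eq_right (h2.trans h1)]
  have hq0 : Admissible cs (fun i => (n i : ℝ)) := by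
    refine ⟨fun i => lt_of_lt_of_le one_pos (hn1 i), fun i j hij => ?_⟩
    show (n i : ℝ) = n j
    rw [hmax i, hmax j, hq.2 i j hij]
  obtain ⟨C, hC⟩ := cbap_HA hb hn hk hq0 (fun i => rfl)
  exact ⟨C, cbap_inv cs hq0 hq hqn hC⟩

end Pool.Agent.H26.HB
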